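/-
Power series modulo `Y^M`: truncated `ℓ¹` norm, exponentials.
-/
import Mathlib
import Pool.Agent.H14.GP.Defs
import Pool.Agent.H14.GP.Gb

set_option autoImplicit false

open Finset PowerSeries
open scoped ComplexConjugate

namespace Pool.Agent.H92.RG

open Pool.Agent.H14.GP

/-- truncated `ℓ¹` norm -/
noncomputable def NM (M : ℕ) (f : PowerSeries ℂ) : ℝ := ∑ k ∈ range M, ‖coeff k f‖

/-- sum of the first `M` coefficients -/
noncomputable def LM (M : ℕ) (f : PowerSeries ℂ) : ℂ := ∑ k ∈ range M, coeff k f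

/-- the first `M` coefficients are at most `s` -/
def SB (M : ℕ) (s : ℝ) (f : PowerSeries ℂ) : Prop := ∀ k < M, ‖coeff k f‖ ≤ s

theorem NM_nonneg (M : ℕ) (f : PowerSeries ℂ) : 0 ≤ NM M f := sum_nonneg fun _ _ => norm_nonneg _

theorem NM_add (M : ℕ) (f g : PowerSeries ℂ) : NM M (f + g) ≤ NM M f + NM M g := by
  unfold NM
  rw [← sum_add_distrib]
  refine sum_le_sum fun k _ => ?_
  rw [map_add]
  exact norm_add_le _ _

theorem NM_neg (M : ℕ) (f : PowerSeries ℂ) : NM M (-f) = NM M f := by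
  unfold NM
  refine sum_congr rfl fun k _ => ?_
  rw [map_neg, norm_neg]

theorem NM_sub (M : ℕ) (f g : PowerSeries ℂ) : NM M (f - g) ≤ NM M f + NM M g := by
  rw [sub_eq_add_neg, ← NM_neg M g]
  exact NM_add M f (-g)

theorem NM_C (M : ℕ) (a : ℂ) : NM M (C a) ≤ ‖a‖ := by
  unfold NM
  rcases Nat.eq_zero_or_pos M with rfl | hM
  · simp
  · rw [sum_eq_single 0]
    · simp
    · intro k _ hk
      rw [coeff_C, if_neg hk, norm_zero]
    · intro h
      exact absurd (mem_range.2 hM) h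

theorem NM_one (M : ℕ) : NM M 1 ≤ 1 := by
  have := NM_C M 1
  rwa [map_one, norm_one] at this

theorem NM_mul (M : ℕ) (f g : PowerSeries ℂ) : NM M (f * g) ≤ NM M f * NM M g := by
  unfold NM
  have h1 : ∀ k ∈ range M, ‖coeff k (f * g)‖ ≤ ∑ i ∈ range (k + 1), ‖coeff i f‖ * ‖coeff (k - i) g‖ := by
    intro k _
    rw [coeff_mul, Nat.sum_antidiagonal_eq_sum_range_succ_mk]
    refine (norm_sum_le _ _).trans (le_of_eq (sum_congr rfl fun x _ => ?_))
    rw [norm_mul]
  refine (sum_le_sum h1).trans ?_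
  rw [sum_comm' (s := range M) (t := fun k => range (k + 1)) (t' := range M) (s' := fun i => Ico i M) (by
    intro k i
    simp only [mem_range, mem_Ico]
    omega), sum_mul]
  refine sum_le_sum fun i _ => ?_
  rw [← mul_sum]
  refine mul_le_mul_of_nonneg_left ?_ (norm_nonneg _)
  rw [sum_Ico_eq_sum_range]
  have e : ∑ k ∈ range (M - i), ‖coeff (i + k - i) g‖ = ∑ k ∈ range (M - i), ‖coeff k g‖ :=
    sum_congr rfl fun k _ => by rw [Nat.add_sub_cancel_left]
  rw [e]
  exact sum_le_sum_of_subset_of_nonneg (range_mono (Nat.sub_le _ _)) fun _ _ _ => norm_nonneg _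

theorem SB.mul {M : ℕ} {s : ℝ} {f : PowerSeries ℂ} (hf : SB M s f) (g : PowerSeries ℂ) : SB M (s * NM M g) (f * g) := by
  intro k hk
  rw [coeff_mul]
  refine (norm_sum_le _ _).trans ?_
  have h0 : 0 ≤ s := (norm_nonneg _).trans (hf k hk)
  rw [Nat.sum_antidiagonal_eq_sum_range_succ_mk, ← sum_range_reflect]
  have h1 : ∀ j ∈ range (k + 1), ‖coeff (k + 1 - 1 - j) f * coeff (k - (k + 1 - 1 - j)) g‖ ≤ s * ‖coeff j g‖ := by
    intro j hj
    rw [mem_range] at hj
    rw [norm_mul]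
    have e : k - (k + 1 - 1 - j) = j := by omega
    rw [e]
    exact mul_le_mul_of_nonneg_right (hf _ (by omega)) (norm_nonneg _)
  refine (sum_le_sum h1).trans ?_
  rw [← mul_sum]
  refine mul_le_mul_of_nonneg_left ?_ h0
  unfold NM
  exact sum_le_sum_of_subset_of_nonneg (range_mono (by omega)) fun _ _ _ => norm_nonneg _

theorem SB.add {M : ℕ} {s s' : ℝ} {f g : PowerSeries ℂ} (hf : SB M s f) (hg : SB M s' g) : SB M (s + s') (f + g) := by
  intro k hk
  rw [map_add]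
  exact (norm_add_le _ _).trans (add_le_add (hf k hk) (hg k hk))

theorem SB.mono {M : ℕ} {s s' : ℝ} {f : PowerSeries ℂ} (hf : SB M s f) (h : s ≤ s') : SB M s' f :=
  fun k hk => (hf k hk).trans h

theorem SB.LM {M : ℕ} {s : ℝ} {f : PowerSeries ℂ} (hf : SB M s f) : ‖LM M f‖ ≤ M * s := by
  unfold RG.LM
  refine (norm_sum_le _ _).trans ?_
  refine (sum_le_sum fun k hk => hf k (mem_range.1 hk)).trans ?_
  rw [sum_const, card_range, nsmul_eq_mul]

theorem LM_le_NM (M : ℕ) (f : PowerSeries ℂ) : ‖LM M f‖ ≤ NM M f := norm_sum_le _ _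

theorem LM_add (M : ℕ) (f g : PowerSeries ℂ) : LM M (f + g) = LM M f + LM M g := by
  unfold LM
  rw [← sum_add_distrib]
  exact sum_congr rfl fun k _ => map_add _ _ _

theorem LM_sub (M : ℕ) (f g : PowerSeries ℂ) : LM M (f - g) = LM M f - LM M g := by
  unfold LM
  rw [← sum_sub_distrib]
  exact sum_congr rfl fun k _ => map_sub _ _ _

/-! ### Exponentials -/

/-- `exp (∑_{j≥1} y_j Y^j)` -/
noncomputable def EX (y : ℕ → ℂ) : PowerSeries ℂ := mk (cf 1 y)

theorem EX_zero (y : ℕ → ℂ) : coeff 0 (EX y) = 1 := by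
  unfold EX
  rw [coeff_mk, cf_zero]

theorem EX_newton (y : ℕ → ℂ) (n : ℕ) : ((n : ℂ) + 1) * coeff (n + 1) (EX y) =
    ∑ j ∈ range (n + 1), ((j : ℂ) + 1) * (y (j + 1) * coeff (n - j) (EX y)) := by
  have h := newton (1 : ℝ) y n
  rw [one_smul] at h
  unfold EX
  simp only [coeff_mk]
  have h2 : ((n : ℝ) + 1) • cf 1 y (n + 1) = ((n : ℂ) + 1) * cf 1 y (n + 1) := by
    rw [Complex.real_smul]; push_cast; rfl
  rw [← h2, h]
  refine sum_congr rfl fun j _ => ?_
  rw [Complex.real_smul]; push_cast; rfl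

/-- uniqueness -/
theorem EX_uniq {y : ℕ → ℂ} {M : ℕ} {W : PowerSeries ℂ} (h0 : coeff 0 W = 1)
    (h : ∀ n, n + 1 < M → ((n : ℂ) + 1) * coeff (n + 1) W = ∑ j ∈ range (n + 1), ((j : ℂ) + 1) * (y (j + 1) * coeff (n - j) W)) :
    ∀ n, n < M → coeff n W = coeff n (EX y) := by
  intro n
  induction n using Nat.strong_induction_on with
  | _ n ih =>
    intro hn
    rcases n with _ | n
    · rw [h0, EX_zero]
    · have hne : ((n : ℂ) + 1) ≠ 0 := by exact_mod_cast Nat.succ_ne_zero n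
      apply mul_left_cancel₀ hne
      rw [h n hn, EX_newton]
      refine sum_congr rfl fun j hj => ?_
      rw [ih (n - j) (by omega) (by omega)]

/-- the derivative of `EX` -/
noncomputable def DY (y : ℕ → ℂ) : PowerSeries ℂ := mk fun j => ((j : ℂ) + 1) * y (j + 1)

theorem newton_iff {y : ℕ → ℂ} {W : PowerSeries ℂ} (n : ℕ) :
    coeff n (derivative ℂ W) = coeff n (DY y * W) ↔
    ((n : ℂ) + 1) * coeff (n + 1) W = ∑ j ∈ range (n + 1), ((j : ℂ) + 1) * (y (j + 1) * coeff (n - j) W) := by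
  rw [coeff_derivative, coeff_mul, Nat.sum_antidiagonal_eq_sum_range_succ_mk, mul_comm]
  unfold DY
  simp only [coeff_mk, mul_assoc]

theorem EX_der (y : ℕ → ℂ) : derivative ℂ (EX y) = DY y * EX y := by
  ext n
  exact (newton_iff n).2 (EX_newton y n)

theorem EX_eq {y : ℕ → ℂ} {W : PowerSeries ℂ} (h0 : coeff 0 W = 1) (h : derivative ℂ W = DY y * W) : W = EX y := by
  ext n
  refine EX_uniq (M := n + 1) h0 (fun m _ => ?_) n (by omega)
  exact (newton_iff m).1 (by rw [h])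

theorem DY_add (y y' : ℕ → ℂ) : DY (y + y') = DY y + DY y' := by
  ext n
  unfold DY
  rw [map_add, coeff_mk, coeff_mk, coeff_mk, Pi.add_apply]
  ring

theorem EX_add (y y' : ℕ → ℂ) : EX (y + y') = EX y * EX y' := by
  symm
  apply EX_eq
  · rw [coeff_zero_eq_constantCoeff_apply, map_mul, ← coeff_zero_eq_constantCoeff_apply, ← coeff_zero_eq_constantCoeff_apply,
      EX_zero, EX_zero, one_mul]
  · rw [Derivation.leibniz, EX_der, EX_der, DY_add, smul_eq_mul, smul_eq_mul]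
    ring

theorem EX_geom (w : ℂ) : EX (fun j => w ^ j / j) = mk fun n => w ^ n := by
  symm
  apply EX_eq
  · rw [coeff_mk, pow_zero]
  · ext n
    rw [newton_iff]
    simp only [coeff_mk]
    have h1 : ∀ j ∈ range (n + 1), ((j : ℂ) + 1) * (w ^ (j + 1) / ((j + 1 : ℕ) : ℂ) * w ^ (n - j)) = w ^ (n + 1) := by
      intro j hj
      have hj' : j ≤ n := Nat.lt_succ_iff.1 (mem_range.1 hj)
      have hne : ((j : ℂ) + 1) ≠ 0 := by exact_mod_cast Nat.succ_ne_zero j
      have e : w ^ (n + 1) = w ^ (j + 1) * w ^ (n - j) := by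
        rw [← pow_add]; congr 1; omega
      rw [e]
      push_cast
      field_simp
    rw [sum_congr rfl h1, sum_const, card_range, nsmul_eq_mul]
    push_cast
    ring

/-- `∑_{j≥1} y_j Y^j` -/
noncomputable def YS (y : ℕ → ℂ) : PowerSeries ℂ := mk fun j => if j = 0 then 0 else y j

theorem YS_der (y : ℕ → ℂ) : derivative ℂ (YS y) = DY y := by
  ext n
  rw [coeff_derivative]
  unfold YS DY
  rw [coeff_mk, coeff_mk, if_neg (Nat.succ_ne_zero n)]
  ring

theorem pow_coeff_lt {f : PowerSeries ℂ} (hf : coeff 0 f = 0) {n k : ℕ} (h : n < k) : coeff n (f ^ k) = 0 := by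
  have h1 : X ∣ f := by
    rw [X_dvd_iff, ← coeff_zero_eq_constantCoeff_apply, hf]
  exact (X_pow_dvd_iff.1 (pow_dvd_pow_of_dvd h1 k)) n h

theorem YS_zero (y : ℕ → ℂ) : coeff 0 (YS y) = 0 := by
  unfold YS
  rw [coeff_mk, if_pos rfl]

/-- truncated exponential -/
noncomputable def WK (K : ℕ) (f : PowerSeries ℂ) : PowerSeries ℂ := ∑ k ∈ range (K + 1), C (((k.factorial : ℕ) : ℂ)⁻¹) * f ^ k

theorem WK_succ (K : ℕ) (f : PowerSeries ℂ) : WK (K + 1) f = WK K f + C ((((K + 1).factorial : ℕ) : ℂ)⁻¹) * f ^ (K + 1) := by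
  unfold WK
  rw [sum_range_succ _ (K + 1)]

theorem WK_der (K : ℕ) (f : PowerSeries ℂ) : derivative ℂ (WK (K + 1) f) = derivative ℂ f * WK K f := by
  have hC : ∀ (a : ℂ) (g : PowerSeries ℂ), derivative ℂ (C a * g) = C a * derivative ℂ g := by
    intro a g
    rw [← smul_eq_C_mul, ← smul_eq_C_mul, Derivation.map_smul]
  induction K with
  | zero =>
    unfold WK
    rw [sum_range_succ, sum_range_succ, sum_range_zero, map_add]
    simp only [pow_zero, pow_one, zero_add, mul_one, Nat.factorial_zero, Nat.factorial_one, Nat.cast_one, inv_one, map_one, one_mul]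
    rw [(derivative ℂ).map_one_eq_zero, zero_add]
  | succ K ih =>
    rw [WK_succ (K + 1), map_add, ih, hC, Derivation.leibniz_pow, WK_succ K]
    have e : (((K + 1 + 1).factorial : ℕ) : ℂ)⁻¹ * ((K : ℂ) + 1 + 1) = (((K + 1).factorial : ℕ) : ℂ)⁻¹ := by
      rw [Nat.factorial_succ (K + 1)]
      have h1 : (((K + 1).factorial : ℕ) : ℂ) ≠ 0 := by exact_mod_cast Nat.factorial_ne_zero _
      have h2 : ((K : ℂ) + 1 + 1) ≠ 0 := by exact_mod_cast Nat.succ_ne_zero (K + 1)
      push_cast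
      field_simp
    rw [← e, map_mul, nsmul_eq_mul, smul_eq_mul]
    have e2 : (((K + 1 + 1 : ℕ) : ℕ) : PowerSeries ℂ) = C ((K : ℂ) + 1 + 1) := by
      push_cast
      simp
    rw [e2, Nat.add_sub_cancel]
    ring

theorem WK_coeff (y : ℕ → ℂ) {K n : ℕ} (hn : n ≤ K) : coeff n (WK K (YS y)) = coeff n (EX y) := by
  refine EX_uniq (M := K + 1) ?_ ?_ n (by omega)
  · unfold WK
    rw [map_sum, sum_eq_single 0]
    · simp
    · intro k _ hk
      rw [coeff_C_mul, pow_coeff_lt (YS_zero y) (by omega), mul_zero]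
    · intro h
      exact absurd (mem_range.2 (by omega)) h
  · intro m hm
    rw [← newton_iff]
    obtain ⟨q, rfl⟩ : ∃ q, K = q + 1 := ⟨K - 1, by omega⟩
    rw [WK_der, YS_der, WK_succ, mul_add, map_add]
    have h1 : coeff m (DY y * (C ((((q + 1).factorial : ℕ) : ℂ)⁻¹) * YS y ^ (q + 1))) = 0 := by
      have e : DY y * (C ((((q + 1).factorial : ℕ) : ℂ)⁻¹) * YS y ^ (q + 1)) =
          (C ((((q + 1).factorial : ℕ) : ℂ)⁻¹) * DY y) * YS y ^ (q + 1) := by ring
      have h2 : X ^ (q + 1) ∣ (C ((((q + 1).factorial : ℕ) : ℂ)⁻¹) * DY y) * YS y ^ (q + 1) := by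
        refine Dvd.dvd.mul_left (pow_dvd_pow_of_dvd ?_ _) _
        rw [X_dvd_iff, ← coeff_zero_eq_constantCoeff_apply, YS_zero]
      rw [e]
      exact (X_pow_dvd_iff.1 h2) m (by omega)
    rw [h1, add_zero]

theorem NM_congr {M : ℕ} {f g : PowerSeries ℂ} (h : ∀ n < M, coeff n f = coeff n g) : NM M f = NM M g := by
  unfold NM
  exact sum_congr rfl fun k hk => by rw [h k (mem_range.1 hk)]

theorem NM_pow (M : ℕ) (f : PowerSeries ℂ) (k : ℕ) : NM M (f ^ k) ≤ NM M f ^ k := by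
  induction k with
  | zero => rw [pow_zero, pow_zero]; exact NM_one M
  | succ k ih =>
    rw [pow_succ, pow_succ]
    exact (NM_mul M _ _).trans (mul_le_mul_of_nonneg_right ih (NM_nonneg M f))

theorem NM_sum (M : ℕ) {ι : Type*} (s : Finset ι) (f : ι → PowerSeries ℂ) : NM M (∑ i ∈ s, f i) ≤ ∑ i ∈ s, NM M (f i) := by
  classical
  induction s using Finset.induction_on with
  | empty =>
    rw [sum_empty, sum_empty]
    unfold NM
    simp
  | insert i s hi ih =>
    rw [sum_insert hi, sum_insert hi]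
    exact (NM_add M _ _).trans (add_le_add_right ih _)

/-- `∑_{1≤j<M} |y_j|` -/
noncomputable def nY (M : ℕ) (y : ℕ → ℂ) : ℝ := ∑ j ∈ Ico 1 M, ‖y j‖

theorem nY_nonneg (M : ℕ) (y : ℕ → ℂ) : 0 ≤ nY M y := sum_nonneg fun _ _ => norm_nonneg _

theorem NM_YS (M : ℕ) (y : ℕ → ℂ) : NM M (YS y) = nY M y := by
  unfold NM nY YS
  rcases Nat.eq_zero_or_pos M with rfl | hM
  · simp
  · rw [range_eq_Ico, sum_eq_sum_Ico_succ_bot hM, coeff_mk, if_pos rfl, norm_zero, zero_add]
    refine sum_congr rfl fun k hk => ?_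
    rw [coeff_mk, if_neg (by have := (mem_Ico.1 hk).1; omega)]

theorem NM_EX_sub_one (M : ℕ) (y : ℕ → ℂ) : NM M (EX y - 1) ≤ Real.exp (nY M y) - 1 := by
  have h1 : NM M (EX y - 1) = NM M (∑ k ∈ Ico 1 (M + 1), C (((k.factorial : ℕ) : ℂ)⁻¹) * YS y ^ k) := by
    apply NM_congr
    intro n hn
    have h2 : WK M (YS y) = 1 + ∑ k ∈ Ico 1 (M + 1), C (((k.factorial : ℕ) : ℂ)⁻¹) * YS y ^ k := by
      unfold WK
      rw [range_eq_Ico, sum_eq_sum_Ico_succ_bot (by omega)]
      simp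
    have h3 : ∑ k ∈ Ico 1 (M + 1), C (((k.factorial : ℕ) : ℂ)⁻¹) * YS y ^ k = WK M (YS y) - 1 := by rw [h2]; ring
    rw [h3, map_sub, map_sub, WK_coeff y hn.le]
  rw [h1]
  refine (NM_sum M _ _).trans ?_
  have h2 : ∀ k ∈ Ico 1 (M + 1), NM M (C (((k.factorial : ℕ) : ℂ)⁻¹) * YS y ^ k) ≤ nY M y ^ k / k.factorial := by
    intro k _
    refine (NM_mul M _ _).trans ?_
    have h3 : NM M (C (((k.factorial : ℕ) : ℂ)⁻¹)) ≤ (k.factorial : ℝ)⁻¹ := by
      refine (NM_C M _).trans (le_of_eq ?_)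
      rw [norm_inv, Complex.norm_natCast]
    have h4 : NM M (YS y ^ k) ≤ nY M y ^ k := by
      rw [← NM_YS]
      exact NM_pow M _ k
    rw [div_eq_inv_mul]
    exact mul_le_mul h3 h4 (NM_nonneg _ _) (by positivity)
  refine (sum_le_sum h2).trans ?_
  have h5 := Real.sum_le_exp_of_nonneg (nY_nonneg M y) (M + 1)
  rw [range_eq_Ico, sum_eq_sum_Ico_succ_bot (by omega)] at h5
  simp only [pow_zero, Nat.factorial_zero, Nat.cast_one, div_one] at h5
  have h6 : ∑ k ∈ Ico (0 + 1) (M + 1), nY M y ^ k / (k.factorial : ℝ) = ∑ k ∈ Ico 1 (M + 1), nY M y ^ k / (k.factorial : ℝ) := rfl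
  linarith

theorem NM_EX (M : ℕ) (y : ℕ → ℂ) : NM M (EX y) ≤ Real.exp (nY M y) := by
  have h1 : EX y = (EX y - 1) + 1 := by ring
  rw [h1]
  refine (NM_add M _ _).trans ?_
  have h2 := NM_EX_sub_one M y
  have h3 := NM_one M
  linarith

/-- inverses of small perturbations of `1` -/
theorem NM_inv {M : ℕ} {f g : PowerSeries ℂ} (h : (1 + g) * f = 1) (hg : NM M g ≤ 1 / 2) : NM M f ≤ 2 := by
  have h1 : f = 1 - g * f := by linear_combination h
  have h2 : NM M f ≤ 1 + NM M g * NM M f := by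
    calc NM M f = NM M (1 - g * f) := by rw [← h1]
      _ ≤ NM M 1 + NM M (g * f) := NM_sub M _ _
      _ ≤ 1 + NM M g * NM M f := add_le_add (NM_one M) (NM_mul M _ _)
  have h3 := NM_nonneg M f
  nlinarith

/-- geometric series -/
noncomputable def GE (w : ℂ) : PowerSeries ℂ := mk fun n => w ^ n

theorem GE_mul (w : ℂ) : (1 - C w * X) * GE w = 1 := by
  ext n
  rw [sub_mul, one_mul, map_sub, mul_assoc, coeff_C_mul]
  unfold GE
  rcases n with _ | n
  · rw [coeff_mk, coeff_zero_X_mul]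
    simp
  · rw [coeff_mk, coeff_succ_X_mul, coeff_mk, coeff_one, if_neg (Nat.succ_ne_zero n)]
    ring

theorem SB_GE (M : ℕ) {w : ℂ} (hw : ‖w‖ ≤ 1) : SB M 1 (GE w) := by
  intro k _
  unfold GE
  rw [coeff_mk, norm_pow]
  exact pow_le_one₀ (norm_nonneg _) hw

theorem NM_lin_GE (M : ℕ) {w a : ℂ} (hw : ‖w‖ ≤ 1) : NM M ((1 - C a * X) * GE w) ≤ 1 + M * ‖w - a‖ := by
  have h1 : (1 - C a * X) * GE w = 1 + C (w - a) * (X * GE w) := by
    have h2 := GE_mul w
    have h3 : C (w - a) = C w - C a := map_sub _ _ _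
    rw [h3]
    linear_combination h2
  rw [h1]
  refine (NM_add M _ _).trans (add_le_add (NM_one M) ?_)
  refine (NM_mul M _ _).trans ?_
  have h2 : NM M (X * GE w) ≤ M := by
    unfold NM
    have h3 : ∀ k ∈ range M, ‖coeff k (X * GE w)‖ ≤ 1 := by
      intro k _
      rcases k with _ | k
      · rw [coeff_zero_X_mul, norm_zero]; exact zero_le_one
      · rw [coeff_succ_X_mul]
        exact SB_GE (k + 1) hw k (by omega)
    refine (sum_le_sum h3).trans ?_
    rw [sum_const, card_range, nsmul_eq_mul, mul_one]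
  rw [mul_comm]
  exact mul_le_mul h2 (NM_C M _) (NM_nonneg _ _) (Nat.cast_nonneg _)

end Pool.Agent.H92.RG
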