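/-
MP_103a5c_AH, S1: the mean values `E w(t)^m C(t + a'/L) conj C(t + a/L)` (true shifts).
-/
import Mathlib
import Pool.Agent.H24.AH.Wh
import Pool.Agent.H92.RG.Ps
import Pool.Agent.H68.AH.Defs
import Pool.Agent.H68.HF.Mean

set_option autoImplicit false

open MeasureTheory Set Filter Topology
open scoped Real ContDiff ComplexConjugate

namespace Pool.Agent.H92.RG

open Pool.Agent Pool.Agent.H6 Pool.Agent.H14.GP Pool.Agent.H24.HF Pool.Agent.H67.HF Pool.Agent.H68.AH Pool.Agent.H24.AH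

/-- the twisted cells: `B_j(t + a/L)` has the test function `tau θ G a j` -/
noncomputable def tau (θ : ℝ) (G : ℕ → ℝ → ℝ) (a : ℝ) (j : ℕ) (x : ℝ) : ℂ :=
  (cG θ G j x : ℂ) * Complex.exp (-((a * x : ℝ) : ℂ) * Complex.I)

section
variable {M : ℕ} {G : ℕ → ℝ → ℝ} {θ : ℝ}

theorem cG_cell (hG : Cell0 M G) (hθ : 0 < θ) (j : ℕ) (x : ℝ) (h : cG θ G j x ≠ 0) :
    θ * ((j : ℝ) - 1) / M < x ∧ x < θ * j / M := by
  have h1 := hG.cell j (x / θ) h
  constructor
  · have h2 := h1.1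
    rw [lt_div_iff₀ hθ] at h2
    calc θ * ((j : ℝ) - 1) / M = ((j : ℝ) - 1) / M * θ := by ring
      _ < x := h2
  · have h2 := h1.2
    rw [div_lt_iff₀ hθ] at h2
    calc x < j / M * θ := h2
      _ = θ * j / M := by ring

theorem cG_cont (hG : Cell0 M G) (j : ℕ) : Continuous (cG θ G j) :=
  (hG.smooth j).continuous.comp (continuous_id.div_const θ)

theorem cG_low (hG : Cell0 M G) (hθ : 0 < θ) : ∀ j x, x ≤ θ / (20 * M) → cG θ G j x = 0 := by
  intro j x hx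
  refine hG.low j (x / θ) ?_
  rw [div_le_iff₀ hθ]
  calc x ≤ θ / (20 * M) := hx
    _ = 1 / (20 * (M : ℝ)) * θ := by ring

theorem cG_high (hG : Cell0 M G) (hθ : 0 < θ) (j : ℕ) (x : ℝ) (hx : θ / M * j ≤ x) : cG θ G j x = 0 := by
  by_contra h
  have h1 := (cG_cell hG hθ j x h).2
  have h2 : θ / M * j = θ * j / M := by ring
  linarith

theorem cG_one (hG : Cell0 M G) (hθ : 0 < θ) (hθ1 : θ < 1) (j : ℕ) (x : ℝ) (hx : 1 ≤ x) : cG θ G j x = 0 := by
  by_cases hj : j < 1 ∨ M ≤ j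
  · exact hG.out j hj _
  · push Not at hj
    apply cG_high hG hθ j x
    have hM : (0 : ℝ) < M := by exact_mod_cast (by omega : 0 < M)
    have h2 : (j : ℝ) ≤ M := by exact_mod_cast hj.2.le
    calc θ / M * j ≤ θ / M * M := mul_le_mul_of_nonneg_left h2 (by positivity)
      _ = θ := by field_simp
      _ ≤ x := hθ1.le.trans hx

theorem cG_bdd (hG : Cell0 M G) (hθ : 0 < θ) : ∃ B : ℝ, ∀ j x, |cG θ G j x| ≤ B := by
  have h1 : ∀ i, ∃ C : ℝ, 0 ≤ C ∧ ∀ x, |cG θ G i x| ≤ C := by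
    intro i
    have hc : HasCompactSupport (cG θ G i) := by
      refine HasCompactSupport.intro
        (isCompact_Icc (a := θ * ((i : ℝ) - 1) / M) (b := θ * i / M)) fun x hx => ?_
      by_contra h
      have h2 := cG_cell hG hθ i x h
      exact hx ⟨h2.1.le, h2.2.le⟩
    obtain ⟨C, hC⟩ := (cG_cont hG i).bounded_above_of_compact_support hc
    exact ⟨C, (norm_nonneg _).trans (hC 0), fun x => by
      rw [← Real.norm_eq_abs]
      exact hC x⟩
  choose C hC0 hC using h1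
  have h2 : 0 ≤ ∑ i ∈ Finset.range M, C i := Finset.sum_nonneg fun i _ => hC0 i
  refine ⟨∑ i ∈ Finset.range M, C i, fun i x => ?_⟩
  by_cases hi : i < M
  · exact (hC i x).trans (Finset.single_le_sum (fun j _ => hC0 j) (Finset.mem_range.2 hi))
  · rw [show cG θ G i x = 0 from hG.out i (Or.inr (not_lt.1 hi)) _, abs_zero]
    exact h2

theorem cG_orth (hG : Cell0 M G) (hθ : 0 < θ) {i j : ℕ} (h : i ≠ j) (x : ℝ) : cG θ G i x * cG θ G j x = 0 := by
  by_contra hne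
  have h1 := cG_cell hG hθ i x (left_ne_zero_of_mul hne)
  have h2 := cG_cell hG hθ j x (right_ne_zero_of_mul hne)
  have hM : (0 : ℝ) < M := by
    have := hG.M_pos
    exact_mod_cast (by omega : 0 < M)
  rcases lt_or_gt_of_ne h with h3 | h3
  · have h4 : (i : ℝ) ≤ (j : ℝ) - 1 := by
      have : (i : ℝ) + 1 ≤ j := by exact_mod_cast h3
      linarith
    have h5 : θ * i / M ≤ θ * ((j : ℝ) - 1) / M :=
      div_le_div_of_nonneg_right (mul_le_mul_of_nonneg_left h4 hθ.le) hM.le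
    linarith [h1.2, h2.1]
  · have h4 : (j : ℝ) ≤ (i : ℝ) - 1 := by
      have : (j : ℝ) + 1 ≤ i := by exact_mod_cast h3
      linarith
    have h5 : θ * j / M ≤ θ * ((i : ℝ) - 1) / M :=
      div_le_div_of_nonneg_right (mul_le_mul_of_nonneg_left h4 hθ.le) hM.le
    linarith [h1.1, h2.2]

theorem norm_tau (θ : ℝ) (G : ℕ → ℝ → ℝ) (a : ℝ) (j : ℕ) (x : ℝ) : ‖tau θ G a j x‖ = |cG θ G j x| := by
  unfold tau
  rw [norm_mul, ← Complex.ofReal_neg, Complex.norm_exp_ofReal_mul_I, mul_one, Complex.norm_real, Real.norm_eq_abs]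

theorem tau_zero_of {a : ℝ} {j : ℕ} {x : ℝ} (h : cG θ G j x = 0) : tau θ G a j x = 0 := by
  unfold tau
  rw [h, Complex.ofReal_zero, zero_mul]

theorem continuous_tau (hG : Cell0 M G) (a : ℝ) (j : ℕ) : Continuous (tau θ G a j) := by
  unfold tau
  have := cG_cont (θ := θ) hG j
  fun_prop

theorem Sh_tau (hG : Cell0 M G) (hθ : 0 < θ) (a : ℝ) (j : ℕ) : Sh (θ / M * j) (tau θ G a j) where
  cont := continuous_tau hG a j
  low := ⟨θ / (20 * M), by
    have : (0 : ℝ) < M := by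
      have := hG.M_pos
      exact_mod_cast (by omega : 0 < M)
    positivity, fun x hx => tau_zero_of (cG_low hG hθ j x hx)⟩
  high := fun x hx => tau_zero_of (cG_high hG hθ j x hx)

theorem ipc_tau_ne (hG : Cell0 M G) (hθ : 0 < θ) (a a' : ℝ) {i j : ℕ} (h : i ≠ j) : ipc (tau θ G a' i) (tau θ G a j) = 0 := by
  unfold ipc
  have h1 : ∀ x, tau θ G a' i x * conj (tau θ G a j x) / (x : ℂ) = 0 := by
    intro x
    unfold tau
    have h2 := cG_orth hG hθ h x
    have h3 : (cG θ G i x : ℂ) * (cG θ G j x : ℂ) = 0 := by exact_mod_cast h2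
    rw [map_mul, Complex.conj_ofReal]
    have e : (cG θ G i x : ℂ) * Complex.exp (-((a' * x : ℝ) : ℂ) * Complex.I) *
        ((cG θ G j x : ℂ) * conj (Complex.exp (-((a * x : ℝ) : ℂ) * Complex.I))) =
        ((cG θ G i x : ℂ) * (cG θ G j x : ℂ)) * (Complex.exp (-((a' * x : ℝ) : ℂ) * Complex.I) *
        conj (Complex.exp (-((a * x : ℝ) : ℂ) * Complex.I))) := by ring
    rw [e, h3, zero_mul, zero_div]
  simp [h1]

theorem hh_tau (hG : Cell0 M G) (hθ : 0 < θ) (hθ1 : θ < 1) {W T : ℝ} (hW : 1 ≤ W) (hT : 1 < T) (a t : ℝ) (k : ℕ) :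
    hh (cG θ G) T (t + a / Real.log T) k = cf (-1) (fun j => BB (tau θ G a j) W T t) k := by
  rw [hh_BB]
  congr 1
  funext j
  rw [BB_shift _ one_pos hT, BB_cut (fun x hx => tau_zero_of (cG_one hG hθ hθ1 j x hx)) hW hT]
  rfl

/-- `w(y) = δ - 1/2 + 2 ∑_j ⟨G, τ_a G_j⟩ y^j` -/
noncomputable def kapS (θ : ℝ) (G : ℕ → ℝ → ℝ) (χ : ℝ → ℝ) (δ a : ℝ) : PowerSeries ℂ :=
  PowerSeries.C ((δ : ℂ) - 1 / 2) + 2 * kap (tau θ G a) (fun x => (Gd χ δ x : ℂ))

/-- `∑_j ⟨τ_{a'} G_j, τ_a G_j⟩ y^j`, exponentiated -/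
noncomputable def EXS (θ : ℝ) (G : ℕ → ℝ → ℝ) (a' a : ℝ) : PowerSeries ℂ := EX fun j => ipc (tau θ G a' j) (tau θ G a j)

theorem mean_wh2 {v : ℝ → ℝ} (hv : Wgt v) (hG : Cell0 M G) (hθ : 0 < θ) (hθ1 : θ < 1) {χ : ℝ → ℝ} {D δ : ℝ}
    (hW : Win2 χ D) (a' a : ℝ) (m k : ℕ) {l : ℕ} (hl : l < M) :
    Tendsto (fun T => EC v T (fun t => (((δ : ℂ) - 2 * PP1 χ δ D T t - 1 / 2) ^ m *
        hh (cG θ G) T (t + a' / Real.log T) k) * conj (hh (cG θ G) T (t + a / Real.log T) l))) atTop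
      (𝓝 (((∫ x, v x : ℝ) : ℂ) * PowerSeries.coeff l (kapS θ G χ δ a ^ m *
        (PowerSeries.X ^ k * PowerSeries.C (cf 1 (fun j => ipc (tau θ G a' j) (tau θ G a j)) k))))) := by
  obtain ⟨B', hB'⟩ := cG_bdd hG hθ
  have hM : (0 : ℝ) < M := by exact_mod_cast (by omega : 0 < M)
  set A : ℕ → ℝ → ℂ := fun j => if j = 0 then (fun x => (Gd χ δ x : ℂ)) else tau θ G a' j with hA
  have hA0 : A 0 = fun x => (Gd χ δ x : ℂ) := if_pos rfl
  have hA1 : ∀ j, 1 ≤ j → A j = tau θ G a' j := fun j hj => if_neg (by omega)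
  set R : QC := (MvPolynomial.C ((δ : ℂ) - 1 / 2) - 2 * MvPolynomial.X 0) ^ m *
    cf (-1) (fun j => (MvPolynomial.X j : QC)) k with hR
  have hev : ∀ (𝒞 : Type) [CommRing 𝒞] [Algebra ℂ 𝒞] [Algebra ℝ 𝒞] [IsScalarTower ℝ ℂ 𝒞] (y : ℕ → 𝒞),
      MvPolynomial.aeval y R = (algebraMap ℂ 𝒞 ((δ : ℂ) - 1 / 2) - 2 * y 0) ^ m * cf (-1) y k := by
    intro 𝒞 _ _ _ _ y
    rw [hR, map_mul, map_pow, map_sub, map_mul, MvPolynomial.aeval_X, MvPolynomial.aeval_C, map_ofNat]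
    congr 1
    have := cf_map ((MvPolynomial.aeval y : QC →ₐ[ℂ] 𝒞).restrictScalars ℝ) (-1) (fun j => (MvPolynomial.X j : QC)) k
    have h2 : ((MvPolynomial.aeval y : QC →ₐ[ℂ] 𝒞).restrictScalars ℝ) (cf (-1) (fun j => (MvPolynomial.X j : QC)) k) =
      MvPolynomial.aeval y (cf (-1) (fun j => (MvPolynomial.X j : QC)) k) := rfl
    rw [← h2, this]
    congr 1
    funext j
    show MvPolynomial.aeval y (MvPolynomial.X j : QC) = y j
    rw [MvPolynomial.aeval_X]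
  have h1 := wick_hm hv hW.D_pos (A := A) (by
    intro j
    rcases Nat.eq_zero_or_pos j with h | h
    · rw [h, hA0]
      refine ⟨Complex.continuous_ofReal.comp (Pool.Agent.H68.HF.continuous_Gd hW δ), D * |δ|, fun x => ?_⟩
      rw [Complex.norm_real, Real.norm_eq_abs]
      exact Pool.Agent.H68.HF.Gd_le hW δ x
    · rw [hA1 j h]
      exact ⟨continuous_tau hG a' j, B', fun x => by rw [norm_tau]; exact hB' j x⟩)
    (ρ := θ / M) (by positivity) (Sh_tau hG hθ a) (m := l) (by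
      have h2 : (l : ℝ) < M := by exact_mod_cast hl
      calc θ / M * l < θ / M * M := mul_lt_mul_of_pos_left h2 (by positivity)
        _ = θ := by field_simp
        _ < 1 := hθ1) R
  have e1 : MvPolynomial.aeval (fun j => -(kap (tau θ G a) (A j))) R = kapS θ G χ δ a ^ m *
        (PowerSeries.X ^ k * PowerSeries.C (cf 1 (fun j => ipc (tau θ G a' j) (tau θ G a j)) k)) := by
    rw [hev]
    congr 1
    · congr 1
      rw [hA0]
      unfold kapS
      have e4 : (algebraMap ℂ (PowerSeries ℂ)) ((δ : ℂ) - 1 / 2) = PowerSeries.C ((δ : ℂ) - 1 / 2) := rfl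
      rw [e4]
      ring
    · rw [← cf_kap (fun i j h => ipc_tau_ne hG hθ a a' h)]
      refine cf_congr (-1) (fun j hj => ?_) k
      rw [hA1 j hj]
  rw [e1] at h1
  refine h1.congr' ?_
  filter_upwards [eventually_gt_atTop (1 : ℝ)] with T hT
  congr 1
  funext t
  rw [hev, hh_tau hG hθ hθ1 hW.D_pos hT, hh_tau hG hθ hθ1 hW.D_pos hT]
  congr 1
  have e3 : cf (-1) (fun j => BB (A j) D T t) k = cf (-1) (fun j => BB (tau θ G a' j) D T t) k :=
    cf_congr (-1) (fun j hj => by rw [hA1 j hj]) k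
  rw [e3]
  congr 1
  have e5 : BB (A 0) D T t = PP1 χ δ D T t := by
    rw [hA0, BB_ofReal]
    rfl
  have e6 : (algebraMap ℂ ℂ) ((δ : ℂ) - 1 / 2) = (δ : ℂ) - 1 / 2 := rfl
  rw [e5, e6]
  ring

theorem cont_hh2 (G : ℕ → ℝ → ℝ) (T c : ℝ) (k : ℕ) : Continuous (fun t => hh G T (t + c) k) :=
  (Pool.Agent.H68.HF.continuous_hh G T k).comp (continuous_id.add continuous_const)

/-- **the mean value of `w(t)^m C(t+a'/L) conj C(t+a/L)`** -/
theorem mean_wC2 {v : ℝ → ℝ} (hv : Wgt v) (hG : Cell0 M G) (hθ : 0 < θ) (hθ1 : θ < 1) {χ : ℝ → ℝ} {D δ : ℝ}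
    (hW : Win2 χ D) (a' a : ℝ) (m : ℕ) :
    Tendsto (fun T => EC v T (fun t => ((δ : ℂ) - 2 * PP1 χ δ D T t - 1 / 2) ^ m *
        CT M (cG θ G) T (t + a' / Real.log T) * conj (CT M (cG θ G) T (t + a / Real.log T)))) atTop
      (𝓝 (((∫ x, v x : ℝ) : ℂ) * LM M (kapS θ G χ δ a ^ m * EXS θ G a' a))) := by
  have h1 : Tendsto (fun T => ∑ l ∈ Finset.range M, ∑ k ∈ Finset.range M, EC v T (fun t =>
      (((δ : ℂ) - 2 * PP1 χ δ D T t - 1 / 2) ^ m * hh (cG θ G) T (t + a' / Real.log T) k) *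
        conj (hh (cG θ G) T (t + a / Real.log T) l))) atTop
      (𝓝 (∑ l ∈ Finset.range M, ∑ k ∈ Finset.range M,
        (((∫ x, v x : ℝ) : ℂ) * PowerSeries.coeff l (kapS θ G χ δ a ^ m *
          (PowerSeries.X ^ k * PowerSeries.C (cf 1 (fun j => ipc (tau θ G a' j) (tau θ G a j)) k)))))) :=
    tendsto_finsetSum _ fun l hl => tendsto_finsetSum _ fun k _ => mean_wh2 hv hG hθ hθ1 hW a' a m k (Finset.mem_range.1 hl)
  have e1 : ∑ l ∈ Finset.range M, ∑ k ∈ Finset.range M,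
        (((∫ x, v x : ℝ) : ℂ) * PowerSeries.coeff l (kapS θ G χ δ a ^ m *
          (PowerSeries.X ^ k * PowerSeries.C (cf 1 (fun j => ipc (tau θ G a' j) (tau θ G a j)) k)))) =
      ((∫ x, v x : ℝ) : ℂ) * LM M (kapS θ G χ δ a ^ m * EXS θ G a' a) := by
    unfold LM
    rw [Finset.mul_sum]
    refine Finset.sum_congr rfl fun l hl => ?_
    rw [← Finset.mul_sum, ← map_sum, ← Finset.mul_sum]
    congr 1
    rw [PowerSeries.coeff_mul, PowerSeries.coeff_mul]
    refine Finset.sum_congr rfl fun x hx => ?_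
    congr 1
    rw [map_sum]
    have hx2 : x.2 < M := by
      have h3 := Finset.HasAntidiagonal.mem_antidiagonal.1 hx
      have h4 := Finset.mem_range.1 hl
      omega
    rw [Finset.sum_eq_single x.2]
    · rw [mul_comm (PowerSeries.X ^ x.2), PowerSeries.coeff_C_mul, PowerSeries.coeff_X_pow, if_pos rfl, mul_one]
      unfold EXS EX
      rw [PowerSeries.coeff_mk]
    · intro k _ hk
      rw [mul_comm, PowerSeries.coeff_C_mul, PowerSeries.coeff_X_pow, if_neg (Ne.symm hk), mul_zero]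
    · intro h
      exact absurd (Finset.mem_range.2 hx2) h
  rw [e1] at h1
  refine h1.congr' ?_
  filter_upwards [eventually_gt_atTop (0 : ℝ)] with T hT
  have hc1 : Continuous (fun t => ((δ : ℂ) - 2 * PP1 χ δ D T t - 1 / 2) ^ m) := by
    have h2 : Continuous (fun t => PP1 χ δ D T t) := Pool.Agent.H68.HF.continuous_PP1 χ δ D T
    fun_prop
  have h3 := Vb_EC_sum hv hT (Finset.range M ×ˢ Finset.range M) (fun _ => (1 : ℂ)) (fun x t =>
      (((δ : ℂ) - 2 * PP1 χ δ D T t - 1 / 2) ^ m * hh (cG θ G) T (t + a' / Real.log T) x.2) *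
        conj (hh (cG θ G) T (t + a / Real.log T) x.1))
      (fun x _ => ((hc1.mul (cont_hh2 _ T _ x.2)).mul (Complex.continuous_conj.comp (cont_hh2 _ T _ x.1))))
  simp only [one_mul] at h3
  rw [Finset.sum_product] at h3
  rw [← h3]
  congr 1
  funext t
  rw [Finset.sum_product]
  unfold CT
  rw [map_sum, mul_assoc, Finset.sum_mul_sum, Finset.mul_sum, Finset.sum_comm]
  refine Finset.sum_congr rfl fun l _ => ?_
  rw [Finset.mul_sum]
  refine Finset.sum_congr rfl fun k _ => ?_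
  ring

end

end Pool.Agent.H92.RG
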