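/-
Exponential moments from holomorphic moments on the strip `|Re w| ≤ 3/4`.
-/
import Mathlib

set_option autoImplicit false

open Finset

namespace Pool.Agent.H92.RG

private theorem split_sum {M : Type*} [AddCommMonoid M] (f : ℕ → M) (k : ℕ) :
    ∑ m ∈ range (2 * k + 1), f m = ∑ i ∈ range (k + 1), f (2 * i) + ∑ i ∈ range k, f (2 * i + 1) := by
  induction k with
  | zero => simp
  | succ k ih =>
    have e : 2 * (k + 1) + 1 = (2 * k + 1) + 1 + 1 := by ring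
    rw [e, sum_range_succ, sum_range_succ, ih, sum_range_succ (fun i => f (2 * i)) (k + 1), sum_range_succ (fun i => f (2 * i + 1)) k]
    have e2 : 2 * (k + 1) = 2 * k + 1 + 1 := by ring
    rw [e2]
    abel

/-- The pointwise inequality. -/
theorem pt_ineq (k : ℕ) {x : ℝ} (y : ℝ) (hx : |x| ≤ 3 / 4) :
    y ^ (2 * k) ≤ (-1) ^ k * (((x : ℂ) + y * Complex.I) ^ (2 * k)).re +
      ∑ i ∈ range k, (Nat.choose (2 * k) (2 * i) : ℝ) * (9 / 16) ^ (k - i) * y ^ (2 * i) := by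
  have h1 : (-1 : ℝ) ^ k * (((x : ℂ) + y * Complex.I) ^ (2 * k)).re = (((y : ℂ) + (-(x : ℂ) * Complex.I)) ^ (2 * k)).re := by
    have e1 : (x : ℂ) + y * Complex.I = Complex.I * ((y : ℂ) + (-(x : ℂ) * Complex.I)) := by
      have := Complex.I_mul_I
      linear_combination (x:ℂ) * this
    rw [e1, mul_pow, pow_mul Complex.I, Complex.I_sq]
    have e2 : ((-1 : ℂ)) ^ k = (((-1 : ℝ) ^ k : ℝ) : ℂ) := by push_cast; ring
    rw [e2, Complex.re_ofReal_mul, ← mul_assoc, ← pow_add, ← two_mul, pow_mul]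
    simp
  rw [h1, add_pow, Complex.re_sum, split_sum, sum_range_succ]
  have h2 : ∀ i ∈ range k, (((y : ℂ) ^ (2 * i + 1) * (-(x : ℂ) * Complex.I) ^ (2 * k - (2 * i + 1)) * ((2 * k).choose (2 * i + 1) : ℂ))).re = 0 := by
    intro i hi
    rw [mem_range] at hi
    have e1 : 2 * k - (2 * i + 1) = 2 * (k - i - 1) + 1 := by omega
    have e0 : (-(x : ℂ) * Complex.I) ^ (2 * (k - i - 1) + 1) = ((-(x : ℂ)) ^ 2 * -1) ^ (k - i - 1) * (-(x : ℂ) * Complex.I) := by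
      rw [pow_succ, pow_mul, mul_pow, Complex.I_sq]
    rw [e1, e0]
    have e3 : (y : ℂ) ^ (2 * i + 1) * (((-(x : ℂ)) ^ 2 * -1) ^ (k - i - 1) * (-(x : ℂ) * Complex.I)) * ((2 * k).choose (2 * i + 1) : ℂ) =
        ((y ^ (2 * i + 1) * (((-x) ^ 2 * -1) ^ (k - i - 1) * (-x)) * ((2 * k).choose (2 * i + 1) : ℝ) : ℝ) : ℂ) * Complex.I := by
      push_cast; ring
    rw [e3, Complex.re_ofReal_mul, Complex.I_re, mul_zero]
  rw [sum_congr rfl h2, sum_const_zero, add_zero]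
  have h3 : (((y : ℂ) ^ (2 * k) * (-(x : ℂ) * Complex.I) ^ (2 * k - 2 * k) * ((2 * k).choose (2 * k) : ℂ))).re = y ^ (2 * k) := by
    rw [Nat.sub_self, pow_zero, Nat.choose_self, mul_one, Nat.cast_one, mul_one, ← Complex.ofReal_pow, Complex.ofReal_re]
  rw [h3]
  have h4 : - ∑ i ∈ range k, (Nat.choose (2 * k) (2 * i) : ℝ) * (9 / 16) ^ (k - i) * y ^ (2 * i) ≤
      ∑ i ∈ range k, (((y : ℂ) ^ (2 * i) * (-(x : ℂ) * Complex.I) ^ (2 * k - 2 * i) * ((2 * k).choose (2 * i) : ℂ))).re := by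
    rw [← sum_neg_distrib]
    refine sum_le_sum fun i hi => ?_
    rw [mem_range] at hi
    have e1 : 2 * k - 2 * i = 2 * (k - i) := by omega
    have e3 : (y : ℂ) ^ (2 * i) * (-(x : ℂ) * Complex.I) ^ (2 * k - 2 * i) * ((2 * k).choose (2 * i) : ℂ) =
        ((y ^ (2 * i) * ((-1) ^ (k - i) * (x ^ 2) ^ (k - i)) * ((2 * k).choose (2 * i) : ℝ) : ℝ) : ℂ) := by
      rw [e1, pow_mul (-(x : ℂ) * Complex.I), mul_pow, Complex.I_sq]
      push_cast
      rw [mul_pow]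
      ring
    rw [e3, Complex.ofReal_re]
    have e4 : |(-1 : ℝ) ^ (k - i) * (x ^ 2) ^ (k - i)| ≤ (9 / 16) ^ (k - i) := by
      rw [abs_mul, abs_pow, abs_neg, abs_one, one_pow, one_mul, abs_pow]
      apply pow_le_pow_left₀ (abs_nonneg _)
      rw [abs_of_nonneg (sq_nonneg x), ← sq_abs]
      nlinarith [abs_nonneg x]
    have e5 := (abs_le.1 e4).1
    have e6 : 0 ≤ y ^ (2 * i) := by rw [pow_mul]; positivity
    have e7 : (0:ℝ) ≤ ((2 * k).choose (2 * i) : ℝ) := Nat.cast_nonneg _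
    nlinarith [mul_nonneg e6 e7, mul_le_mul_of_nonneg_left e5 (mul_nonneg e6 e7)]
  linarith

private theorem fact_ge (j : ℕ) : 2 * 12 ^ j ≤ (2 * (j + 1)).factorial := by
  induction j with
  | zero => decide
  | succ j ih =>
    have e : 2 * (j + 1 + 1) = 2 * (j + 1) + 1 + 1 := by ring
    rw [e, Nat.factorial_succ, Nat.factorial_succ, pow_succ]
    have h1 : 12 ≤ (2 * (j + 1) + 1 + 1) * (2 * (j + 1) + 1) := by nlinarith
    calc 2 * (12 ^ j * 12) = 12 * (2 * 12 ^ j) := by ring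
      _ ≤ ((2 * (j + 1) + 1 + 1) * (2 * (j + 1) + 1)) * (2 * (j + 1)).factorial := Nat.mul_le_mul h1 ih
      _ = _ := by ring

private theorem ser_le (k : ℕ) : ∑ j ∈ range k, ((36:ℝ) / 25) ^ (j + 1) / ((2 * (j + 1)).factorial : ℝ) ≤ 9 / 10 := by
  have h1 : ∀ j ∈ range k, ((36:ℝ) / 25) ^ (j + 1) / ((2 * (j + 1)).factorial : ℝ) ≤ 18 / 25 * (3 / 25) ^ j := by
    intro j _
    have h2 : ((2 * 12 ^ j : ℕ) : ℝ) ≤ ((2 * (j + 1)).factorial : ℝ) := by exact_mod_cast fact_ge j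
    push_cast at h2
    rw [div_le_iff₀ (by positivity)]
    calc ((36:ℝ) / 25) ^ (j + 1) = 18 / 25 * (3 / 25) ^ j * (2 * 12 ^ j) := by
          rw [pow_succ]
          have : ((36:ℝ) / 25) ^ j = (3 / 25) ^ j * 12 ^ j := by rw [← mul_pow]; norm_num
          rw [this]; ring
      _ ≤ _ := mul_le_mul_of_nonneg_left h2 (by positivity)
  refine (sum_le_sum h1).trans ?_
  rw [← mul_sum]
  have h3 : ∑ j ∈ range k, ((3:ℝ) / 25) ^ j ≤ (1 - 3 / 25)⁻¹ := by
    rw [geom_sum_eq (by norm_num)]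
    have : (0:ℝ) ≤ (3 / 25) ^ k := by positivity
    rw [div_le_iff_of_neg (by norm_num)]
    norm_num
  calc (18:ℝ) / 25 * ∑ j ∈ range k, ((3:ℝ) / 25) ^ j ≤ 18 / 25 * (1 - 3 / 25)⁻¹ := mul_le_mul_of_nonneg_left h3 (by norm_num)
    _ ≤ 9 / 10 := by norm_num

/-- One step of the recursion: rate `8 / 5 > π / 2`. -/
theorem rec_step {D : ℝ} (hD : 0 ≤ D) (k : ℕ) :
    ∑ i ∈ range k, (Nat.choose (2 * k) (2 * i) : ℝ) * (9 / 16) ^ (k - i) * (D * (2 * i).factorial * (25 / 64) ^ i) ≤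
      9 / 10 * (D * (2 * k).factorial * (25 / 64) ^ k) := by
  have h1 : ∑ i ∈ range k, (Nat.choose (2 * k) (2 * i) : ℝ) * (9 / 16) ^ (k - i) * (D * (2 * i).factorial * (25 / 64) ^ i) =
      D * (2 * k).factorial * (25 / 64) ^ k * ∑ i ∈ range k, ((36:ℝ) / 25) ^ (k - i) / ((2 * (k - i)).factorial : ℝ) := by
    rw [mul_sum]
    refine sum_congr rfl fun i hi => ?_
    rw [mem_range] at hi
    have h4 : (Nat.choose (2 * k) (2 * i) : ℝ) = (2 * k).factorial / ((2 * i).factorial * (2 * k - 2 * i).factorial) :=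
      Nat.cast_choose ℝ (by omega)
    have h5 : 2 * k - 2 * i = 2 * (k - i) := by omega
    have h6 : ((25:ℝ) / 64) ^ k = (25 / 64) ^ i * (25 / 64) ^ (k - i) := by rw [← pow_add]; congr 1; omega
    have h7 : ((9:ℝ) / 16) ^ (k - i) = (25 / 64) ^ (k - i) * (36 / 25) ^ (k - i) := by rw [← mul_pow]; norm_num
    rw [h4, h5, h6, h7]
    have h8 : ((2 * i).factorial : ℝ) ≠ 0 := by positivity
    have h9 : ((2 * (k - i)).factorial : ℝ) ≠ 0 := by positivity
    field_simp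
  have h10 : ∑ i ∈ range k, ((36:ℝ) / 25) ^ (k - i) / ((2 * (k - i)).factorial : ℝ) ≤ 9 / 10 := by
    have := ser_le k
    rw [← sum_range_reflect] at this
    refine le_trans (le_of_eq (sum_congr rfl fun i hi => ?_)) this
    rw [mem_range] at hi
    have : k - 1 - i + 1 = k - i := by omega
    rw [this]
  rw [h1, mul_comm (9 / 10 : ℝ)]
  exact mul_le_mul_of_nonneg_left h10 (by positivity)

end Pool.Agent.H92.RG
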