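/-
Polynomial approximation of tan (pi w / 2) on the strip |Re w| <= 3/4, with growth exp (pi |Im w| / 2).
-/
import Mathlib

set_option autoImplicit false

open Finset Filter Topology

namespace Pool.Agent.H92.RG

theorem sinh_le_mul_exp (u : ℝ) : Real.sinh u ≤ u * Real.exp u := by
  have h1 : 1 - 2 * u ≤ Real.exp (-(2 * u)) := by
    have := Real.add_one_le_exp (-(2 * u))
    linarith
  have h2 : Real.sinh u = (Real.exp u - Real.exp (-u)) / 2 := Real.sinh_eq u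
  have h3 : Real.exp (-u) = Real.exp u * Real.exp (-(2 * u)) := by
    rw [← Real.exp_add]; congr 1; ring
  rw [h2, h3]
  nlinarith [Real.exp_pos u]

theorem prod_bound (n : ℕ) (y : ℝ) :
    ∏ j ∈ range n, (1 + y ^ 2 / ((j : ℝ) + 1) ^ 2) ≤ Real.exp (Real.pi * |y|) := by
  wlog hy : 0 ≤ y with H
  · have := H n (-y) (by linarith)
    simpa using this
  rcases hy.eq_or_lt with h0 | h0
  · rw [← h0]; simp
  rw [abs_of_pos h0]
  set P : ℕ → ℝ := fun n => ∏ j ∈ range n, (1 + y ^ 2 / ((j : ℝ) + 1) ^ 2) with hP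
  have hmono : Monotone P := by
    refine monotone_nat_of_le_succ fun m => ?_
    rw [hP]
    simp only [prod_range_succ]
    have h1 : 0 ≤ ∏ j ∈ range m, (1 + y ^ 2 / ((j : ℝ) + 1) ^ 2) := prod_nonneg fun j _ => by positivity
    have h2 : (1:ℝ) ≤ 1 + y ^ 2 / ((m : ℝ) + 1) ^ 2 := by
      have : 0 ≤ y ^ 2 / ((m : ℝ) + 1) ^ 2 := by positivity
      linarith
    exact le_mul_of_one_le_right h1 h2
  have hlim : Tendsto (fun m => Real.pi * y * P m) atTop (𝓝 (Real.sinh (Real.pi * y))) := by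
    have h1 := Complex.tendsto_euler_sin_prod ((y : ℂ) * Complex.I)
    have h2 : Complex.sin (Real.pi * ((y : ℂ) * Complex.I)) = (Real.sinh (Real.pi * y) : ℂ) * Complex.I := by
      rw [← mul_assoc, Complex.sin_mul_I]
      push_cast
      ring_nf
    rw [h2] at h1
    have h3 := (Complex.continuous_im.tendsto _).comp h1
    have h4 : ((Real.sinh (Real.pi * y) : ℂ) * Complex.I).im = Real.sinh (Real.pi * y) := by
      rw [Complex.mul_I_im, Complex.ofReal_re]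
    rw [h4] at h3
    refine h3.congr fun m => ?_
    have h5 : ∏ j ∈ range m, (1 - ((y : ℂ) * Complex.I) ^ 2 / ((j : ℂ) + 1) ^ 2) = ((P m : ℝ) : ℂ) := by
      rw [hP]
      push_cast
      refine prod_congr rfl fun j _ => ?_
      rw [mul_pow, Complex.I_sq]
      ring
    show (Real.pi * ((y : ℂ) * Complex.I) * ∏ j ∈ range m, (1 - ((y : ℂ) * Complex.I) ^ 2 / ((j : ℂ) + 1) ^ 2)).im = _
    rw [h5]
    have h6 : (Real.pi : ℂ) * ((y : ℂ) * Complex.I) * ((P m : ℝ) : ℂ) = ((Real.pi * y * P m : ℝ) : ℂ) * Complex.I := by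
      push_cast; ring
    rw [h6]; simp
  have hle : Real.pi * y * P n ≤ Real.sinh (Real.pi * y) := by
    refine ge_of_tendsto hlim (eventually_atTop.2 ⟨n, fun m hm => ?_⟩)
    exact mul_le_mul_of_nonneg_left (hmono hm) (by positivity)
  have h7 := sinh_le_mul_exp (Real.pi * y)
  have h8 : 0 < Real.pi * y := by positivity
  exact le_of_mul_le_mul_left (hle.trans h7) h8

theorem prod_half (n : ℕ) : (∏ j ∈ range n, (((j : ℝ) + 7 / 4) / ((j : ℝ) + 2))) ^ 4 ≤ 2 / ((n : ℝ) + 2) := by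
  induction n with
  | zero => simp
  | succ n ih =>
    rw [prod_range_succ, mul_pow]
    have h1 : (((n : ℝ) + 7 / 4) / ((n : ℝ) + 2)) ^ 4 ≤ ((n : ℝ) + 2) / ((n : ℝ) + 3) := by
      rw [div_pow, div_le_div_iff₀ (by positivity) (by positivity)]
      have hn : (0:ℝ) ≤ n := Nat.cast_nonneg n
      have e : ((n : ℝ) + 2) * ((n : ℝ) + 2) ^ 4 - ((n : ℝ) + 7 / 4) ^ 4 * ((n : ℝ) + 3) =
          5 / 8 * (n : ℝ) ^ 3 + 55 / 16 * (n : ℝ) ^ 2 + 1615 / 256 * n + 989 / 256 := by ring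
      have h2 : 0 ≤ 5 / 8 * (n : ℝ) ^ 3 + 55 / 16 * (n : ℝ) ^ 2 + 1615 / 256 * n + 989 / 256 := by positivity
      linarith
    calc _ ≤ 2 / ((n : ℝ) + 2) * (((n : ℝ) + 2) / ((n : ℝ) + 3)) :=
          mul_le_mul ih h1 (by positivity) (by positivity)
      _ = 2 / (((n + 1 : ℕ) : ℝ) + 2) := by
          push_cast
          field_simp
          ring

/-- The interpolation product. -/
noncomputable def PP (a : ℝ) (n : ℕ) (w : ℂ) : ℂ := ∏ j ∈ range n, ((w + ((j : ℂ) + 1)) / ((a : ℂ) + ((j : ℂ) + 1)))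

theorem PP_bound {a : ℝ} (ha : 1 ≤ a) (n : ℕ) {w : ℂ} (hw : |w.re| ≤ 3 / 4) :
    ‖PP a n w‖ ≤ √(√(2 / ((n : ℝ) + 2))) * Real.exp (Real.pi / 2 * |w.im|) := by
  set q : ℝ := ∏ j ∈ range n, (((j : ℝ) + 7 / 4) / ((j : ℝ) + 2)) with hq
  have hq0 : 0 ≤ q := prod_nonneg fun j _ => by positivity
  have h0 : ‖PP a n w‖ ^ 2 ≤ q ^ 2 * Real.exp (Real.pi * |w.im|) := by
    unfold PP
    rw [norm_prod, ← prod_pow]
    calc ∏ j ∈ range n, ‖(w + ((j : ℂ) + 1)) / ((a : ℂ) + ((j : ℂ) + 1))‖ ^ 2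
        ≤ ∏ j ∈ range n, ((((j : ℝ) + 7 / 4) / ((j : ℝ) + 2)) ^ 2 * (1 + w.im ^ 2 / ((j : ℝ) + 1) ^ 2)) := by
          refine prod_le_prod (fun j _ => by positivity) fun j _ => ?_
          have hj : (0:ℝ) ≤ j := Nat.cast_nonneg j
          have e1 : ‖w + ((j : ℂ) + 1)‖ ^ 2 = (w.re + (j + 1)) ^ 2 + w.im ^ 2 := by
            rw [← Complex.normSq_eq_norm_sq, Complex.normSq_apply]
            simp
            ring
          have e2 : ‖(a : ℂ) + ((j : ℂ) + 1)‖ = a + (j + 1) := by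
            have : (a : ℂ) + ((j : ℂ) + 1) = ((a + (j + 1) : ℝ) : ℂ) := by push_cast; ring
            rw [this, Complex.norm_real, Real.norm_eq_abs, abs_of_pos (by positivity)]
          rw [norm_div, div_pow, e1, e2]
          have h1 := abs_le.1 hw
          have e3 : (w.re + (j + 1)) ^ 2 ≤ ((j : ℝ) + 7 / 4) ^ 2 := by
            apply pow_le_pow_left₀
            · linarith
            · linarith
          have e4 : ((j : ℝ) + 2) ^ 2 ≤ (a + (j + 1)) ^ 2 := by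
            apply pow_le_pow_left₀ (by positivity)
            linarith
          calc ((w.re + (j + 1)) ^ 2 + w.im ^ 2) / (a + (j + 1)) ^ 2
              ≤ (((j : ℝ) + 7 / 4) ^ 2 + w.im ^ 2) / ((j : ℝ) + 2) ^ 2 := by
                apply div_le_div₀ (by positivity) (by linarith) (by positivity) e4
            _ ≤ _ := by
                rw [div_pow]
                have e5 : w.im ^ 2 ≤ ((j : ℝ) + 7 / 4) ^ 2 * (w.im ^ 2 / ((j : ℝ) + 1) ^ 2) := by
                  rw [mul_div_assoc', le_div_iff₀ (by positivity), mul_comm]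
                  apply mul_le_mul_of_nonneg_right _ (sq_nonneg _)
                  apply pow_le_pow_left₀ (by positivity)
                  linarith
                rw [div_mul_eq_mul_div]
                apply div_le_div_of_nonneg_right _ (by positivity)
                nlinarith
      _ = q ^ 2 * ∏ j ∈ range n, (1 + w.im ^ 2 / ((j : ℝ) + 1) ^ 2) := by
          rw [prod_mul_distrib, prod_pow]
      _ ≤ q ^ 2 * Real.exp (Real.pi * |w.im|) :=
          mul_le_mul_of_nonneg_left (prod_bound n w.im) (by positivity)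
  have h1 : q ^ 2 * Real.exp (Real.pi * |w.im|) = (q * Real.exp (Real.pi / 2 * |w.im|)) ^ 2 := by
    rw [mul_pow, ← Real.exp_nat_mul]
    congr 2
    push_cast
    ring
  rw [h1] at h0
  have h2 : ‖PP a n w‖ ≤ q * Real.exp (Real.pi / 2 * |w.im|) := le_of_sq_le_sq h0 (by positivity)
  have h3 : q ≤ √(√(2 / ((n : ℝ) + 2))) := by
    apply Real.le_sqrt_of_sq_le
    apply Real.le_sqrt_of_sq_le
    have := prod_half n
    rw [← hq] at this
    calc (q ^ 2) ^ 2 = q ^ 4 := by ring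
      _ ≤ _ := this
  exact h2.trans (mul_le_mul_of_nonneg_right h3 (Real.exp_pos _).le)

theorem frac_poly {a : ℝ} (ha : 1 ≤ a) {ε : ℝ} (hε : 0 < ε) : ∃ p : Polynomial ℂ, ∀ w : ℂ, |w.re| ≤ 3 / 4 →
    ‖p.eval w - 1 / ((a : ℂ) - w)‖ ≤ ε * Real.exp (Real.pi / 2 * |w.im|) := by
  obtain ⟨n, hn⟩ : ∃ n : ℕ, 4 * √(√(2 / ((n : ℝ) + 2))) ≤ ε := by
    have h1 : Tendsto (fun n : ℕ => 4 * √(√(2 / ((n : ℝ) + 2)))) atTop (𝓝 (4 * √(√0))) := by
      refine Tendsto.const_mul _ (((Real.continuous_sqrt.comp Real.continuous_sqrt).tendsto 0).comp ?_)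
      exact tendsto_const_nhds.div_atTop (tendsto_atTop_add_const_right _ _ tendsto_natCast_atTop_atTop)
    rw [Real.sqrt_zero, Real.sqrt_zero, mul_zero] at h1
    exact ((h1.eventually (gt_mem_nhds hε)).exists).imp fun n hn => hn.le
  set Q : Polynomial ℂ := ∏ j ∈ range n, (Polynomial.C (((a : ℂ) + ((j : ℂ) + 1))⁻¹) * (Polynomial.X + Polynomial.C ((j : ℂ) + 1))) with hQ
  have hQe : ∀ w, Q.eval w = PP a n w := by
    intro w
    rw [hQ, Polynomial.eval_prod]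
    unfold PP
    refine prod_congr rfl fun j _ => ?_
    simp only [Polynomial.eval_mul, Polynomial.eval_C, Polynomial.eval_add, Polynomial.eval_X]
    rw [div_eq_inv_mul]
  have hne : ∀ j : ℕ, (a : ℂ) + ((j : ℂ) + 1) ≠ 0 := by
    intro j h
    have := congrArg Complex.re h
    simp at this
    have hj : (0:ℝ) ≤ j := Nat.cast_nonneg j
    linarith
  have hQa : Q.eval (a : ℂ) = 1 := by
    rw [hQe]
    unfold PP
    refine prod_eq_one fun j _ => div_self (hne j)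
  have hroot : (1 - Q).IsRoot (a : ℂ) := by
    rw [Polynomial.IsRoot.def, Polynomial.eval_sub, Polynomial.eval_one, hQa, sub_self]
  obtain ⟨q, hq⟩ := Polynomial.dvd_iff_isRoot.2 hroot
  refine ⟨-q, fun w hw => ?_⟩
  have h1 := congrArg (Polynomial.eval w) hq
  rw [Polynomial.eval_sub, Polynomial.eval_one, hQe, Polynomial.eval_mul, Polynomial.eval_sub, Polynomial.eval_X,
    Polynomial.eval_C] at h1
  have hre : 1 / 4 ≤ ((a : ℂ) - w).re := by
    simp
    have := (abs_le.1 hw).2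
    linarith
  have hnorm : 1 / 4 ≤ ‖(a : ℂ) - w‖ := hre.trans (Complex.re_le_norm _)
  have hne' : (a : ℂ) - w ≠ 0 := fun h => by rw [h, norm_zero] at hnorm; linarith
  have h2 : (-q).eval w - 1 / ((a : ℂ) - w) = - (PP a n w / ((a : ℂ) - w)) := by
    rw [Polynomial.eval_neg]
    field_simp
    linear_combination -h1
  rw [h2, norm_neg, norm_div]
  have h3 := PP_bound ha n hw
  have h4 : ‖PP a n w‖ / ‖(a : ℂ) - w‖ ≤ ‖PP a n w‖ / (1 / 4) := div_le_div_of_nonneg_left (norm_nonneg _) (by norm_num) hnorm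
  refine h4.trans ?_
  calc ‖PP a n w‖ / (1 / 4) = 4 * ‖PP a n w‖ := by ring
    _ ≤ 4 * (√(√(2 / ((n : ℝ) + 2))) * Real.exp (Real.pi / 2 * |w.im|)) := by linarith
    _ = (4 * √(√(2 / ((n : ℝ) + 2)))) * Real.exp (Real.pi / 2 * |w.im|) := by ring
    _ ≤ _ := mul_le_mul_of_nonneg_right hn (Real.exp_pos _).le

/-- The set of functions approximable by polynomials on the strip with the weight. -/
def Apx (f : ℂ → ℂ) : Prop := ∀ ε : ℝ, 0 < ε → ∃ p : Polynomial ℂ, ∀ w : ℂ, |w.re| ≤ 3 / 4 →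
  ‖p.eval w - f w‖ ≤ ε * Real.exp (Real.pi / 2 * |w.im|)

theorem Apx.add {f g : ℂ → ℂ} (hf : Apx f) (hg : Apx g) : Apx (fun w => f w + g w) := by
  intro ε hε
  obtain ⟨p, hp⟩ := hf (ε / 2) (by positivity)
  obtain ⟨q, hq⟩ := hg (ε / 2) (by positivity)
  refine ⟨p + q, fun w hw => ?_⟩
  rw [Polynomial.eval_add]
  have : p.eval w + q.eval w - (f w + g w) = (p.eval w - f w) + (q.eval w - g w) := by ring
  rw [this]
  refine (norm_add_le _ _).trans ?_
  have := hp w hw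
  have := hq w hw
  linarith

theorem Apx.smul {f : ℂ → ℂ} (hf : Apx f) (c : ℂ) : Apx (fun w => c * f w) := by
  intro ε hε
  obtain ⟨p, hp⟩ := hf (ε / (‖c‖ + 1)) (by positivity)
  refine ⟨Polynomial.C c * p, fun w hw => ?_⟩
  rw [Polynomial.eval_mul, Polynomial.eval_C, ← mul_sub, norm_mul]
  have h1 := hp w hw
  have h2 : ‖c‖ * (ε / (‖c‖ + 1)) ≤ ε := by
    rw [mul_div_assoc', div_le_iff₀ (by positivity)]
    nlinarith [norm_nonneg c]
  calc ‖c‖ * ‖p.eval w - f w‖ ≤ ‖c‖ * (ε / (‖c‖ + 1) * Real.exp (Real.pi / 2 * |w.im|)) :=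
        mul_le_mul_of_nonneg_left h1 (norm_nonneg _)
    _ = (‖c‖ * (ε / (‖c‖ + 1))) * Real.exp (Real.pi / 2 * |w.im|) := by ring
    _ ≤ _ := mul_le_mul_of_nonneg_right h2 (Real.exp_pos _).le

theorem Apx.zero : Apx (fun _ => 0) := by
  intro ε hε
  refine ⟨0, fun w _ => ?_⟩
  simp
  positivity

theorem Apx.sum {ι : Type*} (s : Finset ι) {f : ι → ℂ → ℂ} (hf : ∀ i ∈ s, Apx (f i)) : Apx (fun w => ∑ i ∈ s, f i w) := by
  classical
  induction s using Finset.induction_on with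
  | empty => simpa using Apx.zero
  | insert i s hi ih =>
    have h1 := (hf i (mem_insert_self i s)).add (ih fun j hj => hf j (mem_insert_of_mem hj))
    simpa [sum_insert hi] using h1

theorem Apx.frac {a : ℝ} (ha : 1 ≤ a) : Apx (fun w => 1 / ((a : ℂ) - w)) := fun _ hε => frac_poly ha hε

theorem Apx.frac' {a : ℝ} (ha : 1 ≤ a) : Apx (fun w => 1 / ((a : ℂ) + w)) := by
  intro ε hε
  obtain ⟨p, hp⟩ := frac_poly ha hε
  refine ⟨p.comp (-Polynomial.X), fun w hw => ?_⟩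
  have h1 := hp (-w) (by simpa using hw)
  rw [Polynomial.eval_comp, Polynomial.eval_neg, Polynomial.eval_X]
  simpa using h1

/-- Partial sums of the expansion of `π tan (π w / 2)`. -/
noncomputable def TS (K : ℕ) (w : ℂ) : ℂ :=
  2 * (1 / (((1 : ℝ) : ℂ) - w)) + ∑ m ∈ range K, (2 * (1 / (((2 * (m : ℝ) + 3 : ℝ) : ℂ) - w)) + (-2) * (1 / (((2 * (m : ℝ) + 1 : ℝ) : ℂ) + w)))

theorem TS_apx (K : ℕ) : Apx (TS K) := by
  unfold TS
  refine ((Apx.frac le_rfl).smul 2).add (Apx.sum _ fun m _ => ?_)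
  have hm : (0:ℝ) ≤ m := Nat.cast_nonneg m
  exact ((Apx.frac (by linarith)).smul 2).add ((Apx.frac' (by linarith)).smul (-2))

private theorem strip_ne {w : ℂ} (hw : |w.re| ≤ 3 / 4) {a : ℝ} (_ha : 1 ≤ a) : a - 3 / 4 ≤ ‖(a : ℂ) - w‖ ∧ a - 3 / 4 ≤ ‖(a : ℂ) + w‖ := by
  have h1 := abs_le.1 hw
  constructor
  · have h2 : a - 3 / 4 ≤ ((a : ℂ) - w).re := by simp; linarith
    exact h2.trans (Complex.re_le_norm _)
  · have h2 : a - 3 / 4 ≤ ((a : ℂ) + w).re := by simp; linarith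
    exact h2.trans (Complex.re_le_norm _)

private theorem term_eq {w : ℂ} (hw : |w.re| ≤ 3 / 4) (m : ℕ) :
    2 * (1 / (((2 * (m : ℝ) + 3 : ℝ) : ℂ) - w)) + (-2) * (1 / (((2 * (m : ℝ) + 1 : ℝ) : ℂ) + w)) =
      1 / ((1 - w) / 2 - ((m : ℂ) + 1)) + 1 / ((1 - w) / 2 + ((m : ℂ) + 1)) := by
  have hm : (0:ℝ) ≤ m := Nat.cast_nonneg m
  have h1 := (strip_ne hw (a := 2 * (m : ℝ) + 3) (by linarith)).1
  have h2 := (strip_ne hw (a := 2 * (m : ℝ) + 1) (by linarith)).2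
  have n1 : ((2 * (m : ℝ) + 3 : ℝ) : ℂ) - w ≠ 0 := fun h => by rw [h, norm_zero] at h1; linarith
  have n2 : ((2 * (m : ℝ) + 1 : ℝ) : ℂ) + w ≠ 0 := fun h => by rw [h, norm_zero] at h2; linarith
  have e1 : (1 - w) / 2 - ((m : ℂ) + 1) = - (((2 * (m : ℝ) + 1 : ℝ) : ℂ) + w) / 2 := by push_cast; ring
  have e2 : (1 - w) / 2 + ((m : ℂ) + 1) = (((2 * (m : ℝ) + 3 : ℝ) : ℂ) - w) / 2 := by push_cast; ring
  rw [e1, e2]
  field_simp
  ring

private theorem term_bound {w : ℂ} (hw : |w.re| ≤ 3 / 4) {m : ℕ} (hm : 1 ≤ m) :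
    ‖2 * (1 / (((2 * (m : ℝ) + 3 : ℝ) : ℂ) - w)) + (-2) * (1 / (((2 * (m : ℝ) + 1 : ℝ) : ℂ) + w))‖ ≤
      4 * (‖w‖ + 1) * (1 / (m : ℝ) - 1 / ((m : ℝ) + 1)) := by
  have hm0 : (1:ℝ) ≤ m := by exact_mod_cast hm
  have h1 := (strip_ne hw (a := 2 * (m : ℝ) + 3) (by linarith)).1
  have h2 := (strip_ne hw (a := 2 * (m : ℝ) + 1) (by linarith)).2
  have n1 : ((2 * (m : ℝ) + 3 : ℝ) : ℂ) - w ≠ 0 := fun h => by rw [h, norm_zero] at h1; linarith
  have n2 : ((2 * (m : ℝ) + 1 : ℝ) : ℂ) + w ≠ 0 := fun h => by rw [h, norm_zero] at h2; linarith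
  have e1 : 2 * (1 / (((2 * (m : ℝ) + 3 : ℝ) : ℂ) - w)) + (-2) * (1 / (((2 * (m : ℝ) + 1 : ℝ) : ℂ) + w)) =
      4 * (w - 1) / ((((2 * (m : ℝ) + 3 : ℝ) : ℂ) - w) * (((2 * (m : ℝ) + 1 : ℝ) : ℂ) + w)) := by
    field_simp
    push_cast
    ring
  rw [e1, norm_div, norm_mul, norm_mul]
  have e2 : ‖w - 1‖ ≤ ‖w‖ + 1 := (norm_sub_le _ _).trans (by simp)
  have e3 : ‖(4:ℂ)‖ = 4 := by simp
  rw [e3]
  have e4 : 1 / (m : ℝ) - 1 / ((m : ℝ) + 1) = 1 / ((m : ℝ) * ((m : ℝ) + 1)) := by field_simp; ring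
  rw [e4, mul_one_div]
  have e5 : (m : ℝ) * ((m : ℝ) + 1) ≤ ‖((2 * (m : ℝ) + 3 : ℝ) : ℂ) - w‖ * ‖((2 * (m : ℝ) + 1 : ℝ) : ℂ) + w‖ := by
    calc (m : ℝ) * ((m : ℝ) + 1) ≤ (2 * (m : ℝ) + 3 - 3 / 4) * (2 * (m : ℝ) + 1 - 3 / 4) := by nlinarith
      _ ≤ _ := mul_le_mul h1 h2 (by linarith) (norm_nonneg _)
  exact div_le_div₀ (by positivity) (by linarith) (by positivity) e5

theorem TS_sub {w : ℂ} (hw : |w.re| ≤ 3 / 4) {K : ℕ} (hK : 1 ≤ K) {N : ℕ} (hN : K ≤ N) :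
    ‖TS N w - TS K w‖ ≤ 4 * (‖w‖ + 1) * (1 / (K : ℝ) - 1 / (N : ℝ)) := by
  induction N, hN using Nat.le_induction with
  | base => simp
  | succ n hn ih =>
    have e1 : TS (n + 1) w - TS K w = (TS n w - TS K w) +
        (2 * (1 / (((2 * (n : ℝ) + 3 : ℝ) : ℂ) - w)) + (-2) * (1 / (((2 * (n : ℝ) + 1 : ℝ) : ℂ) + w))) := by
      unfold TS
      rw [sum_range_succ]
      ring
    rw [e1]
    refine (norm_add_le _ _).trans ?_
    have h1 := term_bound hw (m := n) (hK.trans hn)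
    have h2 : ((n + 1 : ℕ) : ℝ) = (n : ℝ) + 1 := by push_cast; ring
    rw [h2]
    calc _ ≤ 4 * (‖w‖ + 1) * (1 / (K : ℝ) - 1 / (n : ℝ)) + 4 * (‖w‖ + 1) * (1 / (n : ℝ) - 1 / ((n : ℝ) + 1)) := add_le_add ih h1
      _ = _ := by ring

theorem tan_err (K : ℕ) (hK : 1 ≤ K) {w : ℂ} (hw : |w.re| ≤ 3 / 4) :
    ‖TS K w - Real.pi * Complex.tan (Real.pi * w / 2)‖ ≤ 4 * (‖w‖ + 1) / K := by
  have hx : (1 - w) / 2 ∈ Complex.integerComplement := by
    rw [Complex.mem_integerComplement_iff]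
    rintro ⟨n, hn⟩
    have h1 := congrArg Complex.re hn
    have h2 : ((1 - w) / 2).re = (1 - w.re) / 2 := by simp
    rw [h2, Complex.intCast_re] at h1
    have h3 := abs_le.1 hw
    have h4 : (0:ℝ) < n := by linarith
    have h5 : (n:ℝ) < 1 := by linarith
    have h6 : (0:ℤ) < n := by exact_mod_cast h4
    have h7 : n < 1 := by exact_mod_cast h5
    omega
  have hlim : Tendsto (fun N => TS N w) atTop (𝓝 (Real.pi * Complex.tan (Real.pi * w / 2))) := by
    have h1 := (tendsto_logDeriv_euler_cot_sub hx).const_add (1 / ((1 - w) / 2))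
    have h2 : 1 / ((1 - w) / 2) + (Real.pi * Complex.cot (Real.pi * ((1 - w) / 2)) - 1 / ((1 - w) / 2)) =
        Real.pi * Complex.tan (Real.pi * w / 2) := by
      have h3 : (Real.pi : ℂ) * ((1 - w) / 2) = (Real.pi : ℂ) / 2 - Real.pi * w / 2 := by ring
      rw [h3, Complex.cot, Complex.tan, Complex.cos_pi_div_two_sub, Complex.sin_pi_div_two_sub]
      ring
    rw [h2] at h1
    refine h1.congr fun N => ?_
    unfold TS
    congr 1
    · rw [one_div_div]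
      push_cast
      ring
    · exact sum_congr rfl fun m _ => (term_eq hw m).symm
  have h1 : Tendsto (fun N => ‖TS N w - TS K w‖) atTop (𝓝 ‖Real.pi * Complex.tan (Real.pi * w / 2) - TS K w‖) :=
    (hlim.sub_const _).norm
  rw [norm_sub_rev]
  refine le_of_tendsto h1 (eventually_atTop.2 ⟨K, fun N hN => ?_⟩)
  refine (TS_sub hw hK hN).trans ?_
  have hN0 : 0 ≤ 1 / (N : ℝ) := by positivity
  have h2 : 4 * (‖w‖ + 1) * (1 / (K : ℝ) - 1 / (N : ℝ)) ≤ 4 * (‖w‖ + 1) * (1 / (K : ℝ)) :=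
    mul_le_mul_of_nonneg_left (by linarith) (by positivity)
  refine h2.trans (le_of_eq ?_)
  ring

/-- `tan (π w / 2)` is a limit of polynomials on the strip, with weight `exp (π |Im w| / 2)`. -/
theorem tan_apx : Apx (fun w => Complex.tan (Real.pi * w / 2)) := by
  intro ε hε
  obtain ⟨K, hK⟩ := exists_nat_gt (14 / ε)
  have hK0 : (0:ℝ) < K := lt_of_le_of_lt (by positivity) hK
  have hK1 : 1 ≤ K := by
    have : 0 < K := by exact_mod_cast hK0
    omega
  obtain ⟨p, hp⟩ := TS_apx K ε hε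
  refine ⟨Polynomial.C ((1 : ℂ) / Real.pi) * p, fun w hw => ?_⟩
  have h1 := hp w hw
  have h2 := tan_err K hK1 hw
  have hpi : (3:ℝ) < Real.pi := Real.pi_gt_three
  have hpi0 : (Real.pi : ℂ) ≠ 0 := by exact_mod_cast Real.pi_ne_zero
  rw [Polynomial.eval_mul, Polynomial.eval_C]
  have h3 : 1 / (Real.pi : ℂ) * p.eval w - Complex.tan (Real.pi * w / 2) =
      1 / (Real.pi : ℂ) * ((p.eval w - TS K w) + (TS K w - Real.pi * Complex.tan (Real.pi * w / 2))) := by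
    field_simp
    ring
  rw [h3, norm_mul]
  have h4 : ‖1 / (Real.pi : ℂ)‖ = 1 / Real.pi := by
    rw [norm_div, norm_one, Complex.norm_real, Real.norm_eq_abs, abs_of_pos Real.pi_pos]
  rw [h4]
  set E := Real.exp (Real.pi / 2 * |w.im|) with hE
  have h5 : ‖w‖ + 1 ≤ 7 / 4 * E := by
    have a1 : ‖w‖ ≤ |w.re| + |w.im| := Complex.norm_le_abs_re_add_abs_im w
    have a2 : 1 + Real.pi / 2 * |w.im| ≤ E := by
      have := Real.add_one_le_exp (Real.pi / 2 * |w.im|)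
      linarith
    have a3 : 0 ≤ |w.im| := abs_nonneg _
    nlinarith
  have h6 : 4 * (‖w‖ + 1) / K ≤ ε / 2 * E := by
    rw [div_le_iff₀ hK0]
    have b1 : 14 < ε * K := by
      rw [div_lt_iff₀ hε] at hK
      linarith
    have b2 : 0 < E := Real.exp_pos _
    calc 4 * (‖w‖ + 1) ≤ 7 * E := by linarith
      _ ≤ ε / 2 * E * K := by nlinarith
  have h7 := norm_add_le (p.eval w - TS K w) (TS K w - Real.pi * Complex.tan (Real.pi * w / 2))
  have h8 : ‖(p.eval w - TS K w) + (TS K w - Real.pi * Complex.tan (Real.pi * w / 2))‖ ≤ 3 / 2 * (ε * E) := by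
    linarith
  have h9 : 0 ≤ ε * E := by positivity
  calc 1 / Real.pi * ‖(p.eval w - TS K w) + (TS K w - Real.pi * Complex.tan (Real.pi * w / 2))‖
      ≤ 1 / 3 * (3 / 2 * (ε * E)) := by
        apply mul_le_mul _ h8 (norm_nonneg _) (by norm_num)
        exact one_div_le_one_div_of_le (by norm_num) hpi.le
    _ ≤ ε * E := by linarith

end Pool.Agent.H92.RG
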