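/-
The abstract contraction theorem: `‖Q - Φ(w) A‖²` is small in the mean, from holomorphic moments.
-/
import Mathlib
import Pool.Agent.H92.RG.TanPoly
import Pool.Agent.H92.RG.ExpMom

set_option autoImplicit false

open MeasureTheory Filter Topology Finset Complex

namespace Pool.Agent.H92.RG

variable {Ω : Type*} [MeasurableSpace Ω]

/-- `S ≥ 1` has bounded moments of all orders, along the filter `l`. -/
structure MomS (l : Filter ℝ) (μ : ℝ → Measure Ω) (S : ℝ → Ω → ℝ) : Prop where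
  fin : ∀ᶠ T in l, IsFiniteMeasure (μ T)
  meas : ∀ᶠ T in l, AEStronglyMeasurable (S T) (μ T)
  one : ∀ T ω, 1 ≤ S T ω
  int : ∀ n : ℕ, ∀ᶠ T in l, Integrable (fun ω => S T ω ^ n) (μ T)
  bdd : ∀ n : ℕ, ∃ K : ℝ, ∀ᶠ T in l, ∫ ω, S T ω ^ n ∂(μ T) ≤ K

/-- `f` is measurable and dominated by a power of `S`. -/
def Dom {E : Type*} [NormedAddCommGroup E] (l : Filter ℝ) (μ : ℝ → Measure Ω) (S : ℝ → Ω → ℝ) (f : ℝ → Ω → E) : Prop :=
  ∃ (n : ℕ) (C : ℝ), 0 ≤ C ∧ ∀ᶠ T in l, AEStronglyMeasurable (f T) (μ T) ∧ ∀ ω, ‖f T ω‖ ≤ C * S T ω ^ n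

section
variable {l : Filter ℝ} {μ : ℝ → Measure Ω} {S : ℝ → Ω → ℝ}

theorem Dom.integrable {E : Type*} [NormedAddCommGroup E] (hS : MomS l μ S) {f : ℝ → Ω → E} (hf : Dom l μ S f) :
    ∀ᶠ T in l, Integrable (f T) (μ T) := by
  obtain ⟨n, C, _, h⟩ := hf
  filter_upwards [h, hS.int n] with T h1 h2
  exact (h2.const_mul C).mono' h1.1 (Eventually.of_forall h1.2)

theorem Dom.mul {R : Type*} [NormedRing R] {f g : ℝ → Ω → R}
    (hf : Dom l μ S f) (hg : Dom l μ S g) : Dom l μ S (fun T ω => f T ω * g T ω) := by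
  obtain ⟨n, C, hC, h⟩ := hf
  obtain ⟨m, D, hD, k⟩ := hg
  refine ⟨n + m, C * D, mul_nonneg hC hD, ?_⟩
  filter_upwards [h, k] with T h1 h2
  refine ⟨h1.1.mul h2.1, fun ω => ?_⟩
  calc ‖f T ω * g T ω‖ ≤ ‖f T ω‖ * ‖g T ω‖ := norm_mul_le _ _
    _ ≤ (C * S T ω ^ n) * (D * S T ω ^ m) := by
        apply mul_le_mul (h1.2 ω) (h2.2 ω) (norm_nonneg _)
        exact (norm_nonneg _).trans (h1.2 ω)
    _ = _ := by rw [pow_add]; ring

theorem Dom.add {E : Type*} [NormedAddCommGroup E] (hS : MomS l μ S) {f g : ℝ → Ω → E} (hf : Dom l μ S f) (hg : Dom l μ S g) :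
    Dom l μ S (fun T ω => f T ω + g T ω) := by
  obtain ⟨n, C, hC, h⟩ := hf
  obtain ⟨m, D, hD, k⟩ := hg
  refine ⟨n + m, C + D, add_nonneg hC hD, ?_⟩
  filter_upwards [h, k] with T h1 h2
  refine ⟨h1.1.add h2.1, fun ω => ?_⟩
  have s1 : S T ω ^ n ≤ S T ω ^ (n + m) := pow_le_pow_right₀ (hS.one T ω) (by omega)
  have s2 : S T ω ^ m ≤ S T ω ^ (n + m) := pow_le_pow_right₀ (hS.one T ω) (by omega)
  calc ‖f T ω + g T ω‖ ≤ ‖f T ω‖ + ‖g T ω‖ := norm_add_le _ _
    _ ≤ C * S T ω ^ (n + m) + D * S T ω ^ (n + m) :=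
        add_le_add ((h1.2 ω).trans (mul_le_mul_of_nonneg_left s1 hC)) ((h2.2 ω).trans (mul_le_mul_of_nonneg_left s2 hD))
    _ = _ := by ring

theorem Dom.const {E : Type*} [NormedAddCommGroup E] (c : E) : Dom l μ S (fun _ _ => c) :=
  ⟨0, ‖c‖, norm_nonneg _, Eventually.of_forall fun T => ⟨aestronglyMeasurable_const, fun ω => by simp⟩⟩

theorem Dom.pow {R : Type*} [NormedRing R] {f : ℝ → Ω → R} (hf : Dom l μ S f) (k : ℕ) : Dom l μ S (fun T ω => f T ω ^ k) := by
  induction k with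
  | zero => simpa using Dom.const (l := l) (μ := μ) (S := S) (1 : R)
  | succ k ih => simpa [pow_succ] using ih.mul hf

theorem Dom.of_le {E F : Type*} [NormedAddCommGroup E] [NormedAddCommGroup F] {f : ℝ → Ω → E} {g : ℝ → Ω → F} (hg : Dom l μ S g)
    (hm : ∀ᶠ T in l, AEStronglyMeasurable (f T) (μ T)) (h : ∀ᶠ T in l, ∀ ω, ‖f T ω‖ ≤ ‖g T ω‖) : Dom l μ S f := by
  obtain ⟨n, C, hC, k⟩ := hg
  refine ⟨n, C, hC, ?_⟩
  filter_upwards [hm, h, k] with T h1 h2 h3
  exact ⟨h1, fun ω => (h2 ω).trans (h3.2 ω)⟩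

/-- Sets of small measure carry little. -/
theorem small_set (hS : MomS l μ S) {E : Type*} [NormedAddCommGroup E] [NormedSpace ℝ E] {f : ℝ → Ω → E} (hf : Dom l μ S f) {G : ℝ → Set Ω}
    (hG : ∀ᶠ T in l, NullMeasurableSet (G T) (μ T)) (hG0 : Tendsto (fun T => (μ T).real (G T)) l (𝓝 0)) :
    Tendsto (fun T => ∫ ω in G T, ‖f T ω‖ ∂(μ T)) l (𝓝 0) := by
  obtain ⟨n, C, hC, h⟩ := hf
  obtain ⟨K, hK⟩ := hS.bdd (2 * n)
  rw [tendsto_order]
  constructor
  · intro a ha
    filter_upwards with T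
    exact lt_of_lt_of_le ha (integral_nonneg fun ω => norm_nonneg _)
  · intro ε hε
    set R : ℝ := 2 * C * (|K| + 1) / ε + 1 with hR
    have hR0 : 0 < R := by positivity
    have h0 : ∀ᶠ T in l, (μ T).real (G T) < ε / (2 * (C * R + 1)) := hG0.eventually_lt_const (by positivity)
    filter_upwards [h, hK, h0, hG, hS.int (2 * n), hS.fin] with T h1 h2 h3 h4 h5 h6
    have hint : Integrable (fun ω => C * R + C / R * S T ω ^ (2 * n)) ((μ T).restrict (G T)) :=
      ((integrable_const _).add ((h5.mono_measure Measure.restrict_le_self).const_mul _))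
    have hpt : ∀ ω, ‖f T ω‖ ≤ C * R + C / R * S T ω ^ (2 * n) := by
      intro ω
      refine (h1.2 ω).trans ?_
      have s0 : 0 ≤ S T ω ^ n := by have := hS.one T ω; positivity
      have s1 : S T ω ^ n ≤ R + S T ω ^ (2 * n) / R := by
        rw [two_mul, pow_add]
        rcases le_total (S T ω ^ n) R with h7 | h7
        · have : 0 ≤ S T ω ^ n * S T ω ^ n / R := by positivity
          linarith
        · have : S T ω ^ n ≤ S T ω ^ n * S T ω ^ n / R := by
            rw [le_div_iff₀ hR0]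
            exact mul_le_mul_of_nonneg_left h7 s0
          linarith
      calc C * S T ω ^ n ≤ C * (R + S T ω ^ (2 * n) / R) := mul_le_mul_of_nonneg_left s1 hC
        _ = _ := by ring
    have hfi : Integrable (fun ω => ‖f T ω‖) ((μ T).restrict (G T)) := by
      refine hint.mono' (h1.1.norm.mono_measure Measure.restrict_le_self) (Eventually.of_forall fun ω => ?_)
      rw [norm_norm]; exact hpt ω
    calc ∫ ω in G T, ‖f T ω‖ ∂(μ T) ≤ ∫ ω in G T, (C * R + C / R * S T ω ^ (2 * n)) ∂(μ T) :=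
          integral_mono hfi hint hpt
      _ = (μ T).real (G T) * (C * R) + C / R * ∫ ω in G T, S T ω ^ (2 * n) ∂(μ T) := by
          rw [integral_add (integrable_const _) ((h5.mono_measure Measure.restrict_le_self).const_mul _), integral_const,
            integral_const_mul, smul_eq_mul]
          congr 2
          simp [Measure.real]
      _ ≤ (μ T).real (G T) * (C * R) + C / R * K := by
          have h8 : ∫ ω in G T, S T ω ^ (2 * n) ∂(μ T) ≤ ∫ ω, S T ω ^ (2 * n) ∂(μ T) := by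
            apply integral_mono_measure Measure.restrict_le_self (Eventually.of_forall fun ω => ?_) h5
            have := hS.one T ω
            show (0:ℝ) ≤ _
            positivity
          have h9 := mul_le_mul_of_nonneg_left (h8.trans h2) (by positivity : 0 ≤ C / R)
          linarith
      _ < ε := by
          have h10 : (μ T).real (G T) * (C * R) ≤ ε / 2 := by
            have h11 : (μ T).real (G T) * (C * R) ≤ ε / (2 * (C * R + 1)) * (C * R) :=
              mul_le_mul_of_nonneg_right h3.le (by positivity)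
            refine h11.trans ?_
            rw [div_mul_eq_mul_div, div_le_div_iff₀ (by positivity) (by norm_num)]
            nlinarith [mul_nonneg hC hR0.le]
          have h12 : C / R * K < ε / 2 := by
            have h13 : C / R * K ≤ C / R * |K| := mul_le_mul_of_nonneg_left (le_abs_self K) (by positivity)
            refine lt_of_le_of_lt h13 ?_
            rw [div_mul_eq_mul_div, div_lt_iff₀ hR0, hR]
            have h14 : ε / 2 * (2 * C * (|K| + 1) / ε + 1) = C * (|K| + 1) + ε / 2 := by field_simp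
            rw [h14]
            nlinarith [abs_nonneg K]
          linarith

theorem nm_le {w : Ω → ℂ} {ν : Measure Ω} (hw : AEStronglyMeasurable w ν) (r : ℝ) : NullMeasurableSet {ω | |(w ω).re| ≤ r} ν := by
  have h1 : AEMeasurable (fun ω => |(w ω).re|) ν := (continuous_abs.comp Complex.continuous_re).comp_aestronglyMeasurable hw |>.aemeasurable
  exact nullMeasurableSet_le h1 aemeasurable_const

theorem nm_lt {w : Ω → ℂ} {ν : Measure Ω} (hw : AEStronglyMeasurable w ν) (r : ℝ) : NullMeasurableSet {ω | r < |(w ω).re|} ν := by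
  have h1 : AEMeasurable (fun ω => |(w ω).re|) ν := (continuous_abs.comp Complex.continuous_re).comp_aestronglyMeasurable hw |>.aemeasurable
  exact nullMeasurableSet_lt aemeasurable_const h1

/-- The integral over a set whose complement has small measure. -/
theorem int_set (hS : MomS l μ S) {f : ℝ → Ω → ℂ} (hf : Dom l μ S f) {w : ℝ → Ω → ℂ} (hw : Dom l μ S w) {r : ℝ}
    (hst : Tendsto (fun T => (μ T).real {ω | r < |(w T ω).re|}) l (𝓝 0)) {a : ℂ} (ha : Tendsto (fun T => ∫ ω, f T ω ∂(μ T)) l (𝓝 a)) :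
    Tendsto (fun T => ∫ ω in {ω | |(w T ω).re| ≤ r}, f T ω ∂(μ T)) l (𝓝 a) := by
  obtain ⟨n, C, _, hwd⟩ := hw
  have h1 := small_set hS hf (G := fun T => {ω | r < |(w T ω).re|}) (by
    filter_upwards [hwd] with T h2
    exact nm_lt h2.1 r) hst
  have h2 : Tendsto (fun T => ∫ ω in {ω | r < |(w T ω).re|}, f T ω ∂(μ T)) l (𝓝 0) := by
    rw [tendsto_zero_iff_norm_tendsto_zero]
    refine squeeze_zero (fun T => norm_nonneg _) (fun T => norm_integral_le_integral_norm _) h1
  have h3 := ha.sub h2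
  rw [sub_zero] at h3
  refine h3.congr' ?_
  filter_upwards [hwd, hf.integrable hS] with T h4 h5
  have h6 := integral_add_compl₀ (nm_le h4.1 r) h5
  have h7 : {ω | |(w T ω).re| ≤ r}ᶜ = {ω | r < |(w T ω).re|} := by
    ext ω; simp
  rw [h7] at h6
  rw [← h6]
  ring

theorem int_pos_set (hS : MomS l μ S) {f : ℝ → Ω → ℝ} (hf : Dom l μ S f) (hf0 : ∀ T ω, 0 ≤ f T ω) (G : ℝ → Set Ω) :
    ∀ᶠ T in l, ∫ ω in G T, f T ω ∂(μ T) ≤ ∫ ω, f T ω ∂(μ T) := by
  filter_upwards [hf.integrable hS] with T h1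
  exact integral_mono_measure Measure.restrict_le_self (Eventually.of_forall (hf0 T)) h1

/-- Moments of the imaginary part, rate `8 / 5`. -/
theorem expmom (hS : MomS l μ S) {w : ℝ → Ω → ℂ} {W : ℝ → Ω → ℝ} (hw : Dom l μ S w) (hW : Dom l μ S W) (hW0 : ∀ T ω, 0 ≤ W T ω)
    (hst : Tendsto (fun T => (μ T).real {ω | 3 / 4 < |(w T ω).re|}) l (𝓝 0)) {a : ℕ → ℂ}
    (ha : ∀ m, Tendsto (fun T => ∫ ω, w T ω ^ m * (W T ω : ℂ) ∂(μ T)) l (𝓝 (a m))) {D : ℝ} (hD : 0 ≤ D)
    (hg : ∀ k, ‖a (2 * k)‖ ≤ D * (2 * k).factorial * (25 / 64) ^ k) (k : ℕ) :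
    ∀ ε : ℝ, 0 < ε → ∀ᶠ T in l, ∫ ω in {ω | |(w T ω).re| ≤ 3 / 4}, (w T ω).im ^ (2 * k) * W T ω ∂(μ T) ≤
      10 * D * (2 * k).factorial * (25 / 64) ^ k + ε := by
  induction k using Nat.strong_induction_on with
  | _ k ih =>
    intro ε hε
    have hWc : Dom l μ S (fun T ω => (W T ω : ℂ)) := by
      obtain ⟨n, C, hC, h⟩ := hW
      refine ⟨n, C, hC, ?_⟩
      filter_upwards [h] with T h1
      exact ⟨Complex.continuous_ofReal.comp_aestronglyMeasurable h1.1, fun ω => by simpa using h1.2 ω⟩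
    have hIm : Dom l μ S (fun T ω => (w T ω).im) := by
      obtain ⟨n, C, hC, h⟩ := hw
      refine ⟨n, C, hC, ?_⟩
      filter_upwards [h] with T h1
      exact ⟨Complex.continuous_im.comp_aestronglyMeasurable h1.1, fun ω => (Complex.abs_im_le_norm _).trans (h1.2 ω)⟩
    have hF : ∀ m, Dom l μ S (fun T ω => w T ω ^ m * (W T ω : ℂ)) := fun m => (hw.pow m).mul hWc
    have hY : ∀ i, Dom l μ S (fun T ω => (w T ω).im ^ (2 * i) * W T ω) := fun i => (hIm.pow (2 * i)).mul hW
    have h1 := int_set hS (hF (2 * k)) hw hst (ha (2 * k))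
    have h2 : Tendsto (fun T => (-1 : ℝ) ^ k * (∫ ω in {ω | |(w T ω).re| ≤ 3 / 4}, w T ω ^ (2 * k) * (W T ω : ℂ) ∂(μ T)).re) l
        (𝓝 ((-1) ^ k * (a (2 * k)).re)) := ((Complex.continuous_re.tendsto _).comp h1).const_mul _
    have h3 : (-1 : ℝ) ^ k * (a (2 * k)).re ≤ D * (2 * k).factorial * (25 / 64) ^ k := by
      refine le_trans (le_abs_self _) ?_
      rw [abs_mul, abs_pow, abs_neg, abs_one, one_pow, one_mul]
      exact (Complex.abs_re_le_norm _).trans (hg k)
    have h4 : ∀ᶠ T in l, (-1 : ℝ) ^ k * (∫ ω in {ω | |(w T ω).re| ≤ 3 / 4}, w T ω ^ (2 * k) * (W T ω : ℂ) ∂(μ T)).re <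
        D * (2 * k).factorial * (25 / 64) ^ k + ε / 2 := h2.eventually_lt_const (by linarith)
    set cc : ℕ → ℝ := fun i => (Nat.choose (2 * k) (2 * i) : ℝ) * (9 / 16) ^ (k - i) with hcc
    have hcc0 : ∀ i, 0 ≤ cc i := fun i => by rw [hcc]; positivity
    set δ : ℝ := ε / (2 * (∑ i ∈ range k, cc i + 1)) with hδ
    have hsum0 : 0 ≤ ∑ i ∈ range k, cc i := sum_nonneg fun i _ => hcc0 i
    have hδ0 : 0 < δ := by positivity
    have h5 : ∀ᶠ T in l, ∀ i ∈ range k, ∫ ω in {ω | |(w T ω).re| ≤ 3 / 4}, (w T ω).im ^ (2 * i) * W T ω ∂(μ T) ≤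
        10 * D * (2 * i).factorial * (25 / 64) ^ i + δ := by
      rw [Filter.eventually_all_finset]
      intro i hi
      exact ih i (mem_range.1 hi) δ hδ0
    have h6 : ∀ᶠ T in l, ∀ i ∈ range k, Integrable (fun ω => (w T ω).im ^ (2 * i) * W T ω) (μ T) := by
      rw [Filter.eventually_all_finset]
      intro i _
      exact (hY i).integrable hS
    obtain ⟨nw, Cw, _, hwd⟩ := hw
    filter_upwards [h4, h5, h6, (hY k).integrable hS, (hF (2 * k)).integrable hS, hwd] with T g4 g5 g6 g7 g8 g9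
    set G : Set Ω := {ω | |(w T ω).re| ≤ 3 / 4} with hG
    have hGm : NullMeasurableSet G (μ T) := nm_le g9.1 _
    have hri : ∀ {f : Ω → ℝ}, Integrable f (μ T) → Integrable f ((μ T).restrict G) := fun hf => hf.mono_measure Measure.restrict_le_self
    have e1 : ∫ ω in G, (w T ω).im ^ (2 * k) * W T ω ∂(μ T) ≤
        ∫ ω in G, ((-1) ^ k * (w T ω ^ (2 * k) * (W T ω : ℂ)).re + ∑ i ∈ range k, cc i * ((w T ω).im ^ (2 * i) * W T ω)) ∂(μ T) := by
      have i1 : Integrable (fun ω => (-1 : ℝ) ^ k * (w T ω ^ (2 * k) * (W T ω : ℂ)).re + ∑ i ∈ range k, cc i * ((w T ω).im ^ (2 * i) * W T ω))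
          (μ T) := (g8.re.const_mul _).add (integrable_finsetSum _ fun i hi => (g6 i hi).const_mul _)
      apply integral_mono_ae (hri g7) (hri i1)
      filter_upwards [ae_restrict_mem₀ hGm] with ω hω
      have p1 := pt_ineq k (w T ω).im (show |(w T ω).re| ≤ 3 / 4 from hω)
      rw [Complex.re_add_im] at p1
      have p2 := mul_le_mul_of_nonneg_right p1 (hW0 T ω)
      show (w T ω).im ^ (2 * k) * W T ω ≤ _
      refine p2.trans (le_of_eq ?_)
      rw [Complex.re_mul_ofReal, add_mul, sum_mul]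
      congr 1
      · ring
      · exact sum_congr rfl fun i _ => by rw [hcc]; ring
    have e2 : ∫ ω in G, ((-1) ^ k * (w T ω ^ (2 * k) * (W T ω : ℂ)).re + ∑ i ∈ range k, cc i * ((w T ω).im ^ (2 * i) * W T ω)) ∂(μ T) =
        (-1 : ℝ) ^ k * (∫ ω in G, w T ω ^ (2 * k) * (W T ω : ℂ) ∂(μ T)).re +
          ∑ i ∈ range k, cc i * ∫ ω in G, (w T ω).im ^ (2 * i) * W T ω ∂(μ T) := by
      have g8r : Integrable (fun ω => (w T ω ^ (2 * k) * (W T ω : ℂ)).re) ((μ T).restrict G) := hri g8.re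
      have g8s : Integrable (fun ω => (-1 : ℝ) ^ k * (w T ω ^ (2 * k) * (W T ω : ℂ)).re) ((μ T).restrict G) := g8r.const_mul _
      have g6s : Integrable (fun ω => ∑ i ∈ range k, cc i * ((w T ω).im ^ (2 * i) * W T ω)) ((μ T).restrict G) :=
        integrable_finsetSum _ fun i hi => (hri (g6 i hi)).const_mul _
      rw [integral_add g8s g6s, integral_const_mul,
        integral_finsetSum _ fun i hi => (hri (g6 i hi)).const_mul _]
      congr 1
      · congr 1
        exact integral_re (g8.mono_measure Measure.restrict_le_self)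
      · exact sum_congr rfl fun i _ => integral_const_mul _ _
    have e3 : ∑ i ∈ range k, cc i * ∫ ω in G, (w T ω).im ^ (2 * i) * W T ω ∂(μ T) ≤
        9 / 10 * (10 * D * (2 * k).factorial * (25 / 64) ^ k) + ε / 2 := by
      have s1 : ∑ i ∈ range k, cc i * ∫ ω in G, (w T ω).im ^ (2 * i) * W T ω ∂(μ T) ≤
          ∑ i ∈ range k, (cc i * (10 * D * (2 * i).factorial * (25 / 64) ^ i) + cc i * δ) := by
        refine sum_le_sum fun i hi => ?_
        rw [← mul_add]
        exact mul_le_mul_of_nonneg_left (g5 i hi) (hcc0 i)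
      rw [sum_add_distrib, ← sum_mul] at s1
      have s2 := rec_step (D := 10 * D) (by positivity) k
      have s3 : (∑ i ∈ range k, cc i) * δ ≤ ε / 2 := by
        rw [hδ, mul_div_assoc', div_le_div_iff₀ (by positivity) (by norm_num)]
        nlinarith
      linarith
    rw [e2] at e1
    linarith

end

end Pool.Agent.H92.RG
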