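/-
The abstract contraction theorem.
-/
import Mathlib
import Pool.Agent.H92.RG.Contr

set_option autoImplicit false

open MeasureTheory Filter Topology Finset Complex

namespace Pool.Agent.H92.RG

variable {Ω : Type*} [MeasurableSpace Ω]

section
variable {l : Filter ℝ} {μ : ℝ → Measure Ω} {S : ℝ → Ω → ℝ}

theorem Dom.bdd {E : Type*} [NormedAddCommGroup E] (hS : MomS l μ S) {f : ℝ → Ω → E} (hf : Dom l μ S f) :
    ∃ K : ℝ, ∀ᶠ T in l, ∫ ω, ‖f T ω‖ ∂(μ T) ≤ K := by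
  obtain ⟨n, C, hC, h⟩ := hf
  obtain ⟨K, hK⟩ := hS.bdd n
  refine ⟨C * K, ?_⟩
  filter_upwards [h, hK, hS.int n] with T h1 h2 h3
  calc ∫ ω, ‖f T ω‖ ∂(μ T) ≤ ∫ ω, C * S T ω ^ n ∂(μ T) := by
        apply integral_mono ?_ (h3.const_mul C) h1.2
        refine (h3.const_mul C).mono' h1.1.norm (Eventually.of_forall fun ω => ?_)
        rw [norm_norm]
        exact h1.2 ω
    _ = C * ∫ ω, S T ω ^ n ∂(μ T) := integral_const_mul _ _
    _ ≤ C * K := mul_le_mul_of_nonneg_left h2 hC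

theorem Dom.norm {E : Type*} [NormedAddCommGroup E] {f : ℝ → Ω → E} (hf : Dom l μ S f) : Dom l μ S (fun T ω => ‖f T ω‖) := by
  obtain ⟨n, C, hC, h⟩ := hf
  refine ⟨n, C, hC, ?_⟩
  filter_upwards [h] with T h1
  exact ⟨h1.1.norm, fun ω => by rw [norm_norm]; exact h1.2 ω⟩

theorem Dom.conj {f : ℝ → Ω → ℂ} (hf : Dom l μ S f) : Dom l μ S (fun T ω => (starRingEnd ℂ) (f T ω)) := by
  obtain ⟨n, C, hC, h⟩ := hf
  refine ⟨n, C, hC, ?_⟩
  filter_upwards [h] with T h1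
  exact ⟨Complex.continuous_conj.comp_aestronglyMeasurable h1.1, fun ω => by rw [Complex.norm_conj]; exact h1.2 ω⟩

theorem Dom.im {f : ℝ → Ω → ℂ} (hf : Dom l μ S f) : Dom l μ S (fun T ω => (f T ω).im) := by
  obtain ⟨n, C, hC, h⟩ := hf
  refine ⟨n, C, hC, ?_⟩
  filter_upwards [h] with T h1
  exact ⟨Complex.continuous_im.comp_aestronglyMeasurable h1.1, fun ω => (Complex.abs_im_le_norm _).trans (h1.2 ω)⟩

theorem Dom.re {f : ℝ → Ω → ℂ} (hf : Dom l μ S f) : Dom l μ S (fun T ω => (f T ω).re) := by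
  obtain ⟨n, C, hC, h⟩ := hf
  refine ⟨n, C, hC, ?_⟩
  filter_upwards [h] with T h1
  exact ⟨Complex.continuous_re.comp_aestronglyMeasurable h1.1, fun ω => (Complex.abs_re_le_norm _).trans (h1.2 ω)⟩

theorem Dom.poly (hS : MomS l μ S) {w : ℝ → Ω → ℂ} (hw : Dom l μ S w) (p : Polynomial ℂ) :
    Dom l μ S (fun T ω => p.eval (w T ω)) := by
  induction p using Polynomial.induction_on' with
  | add p q hp hq => simp only [Polynomial.eval_add]; exact hp.add hS hq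
  | monomial n a => simp only [Polynomial.eval_monomial]; exact (Dom.const a).mul (hw.pow n)

theorem tendsto_poly (hS : MomS l μ S) {w f : ℝ → Ω → ℂ} (hw : Dom l μ S w) (hf : Dom l μ S f) {c : ℕ → ℂ}
    (hc : ∀ m, Tendsto (fun T => ∫ ω, w T ω ^ m * f T ω ∂(μ T)) l (𝓝 (c m))) (p : Polynomial ℂ) :
    Tendsto (fun T => ∫ ω, p.eval (w T ω) * f T ω ∂(μ T)) l (𝓝 (p.sum fun m x => x * c m)) := by
  induction p using Polynomial.induction_on' with
  | add p q hp hq =>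
    rw [Polynomial.sum_add_index _ _ _ (fun _ => zero_mul _) (fun _ _ _ => add_mul _ _ _)]
    refine (hp.add hq).congr' ?_
    filter_upwards [((hw.poly hS p).mul hf).integrable hS, ((hw.poly hS q).mul hf).integrable hS] with T h1 h2
    rw [← integral_add h1 h2]
    refine integral_congr_ae (ae_of_all _ fun ω => ?_)
    show _ + _ = Polynomial.eval (w T ω) (p + q) * f T ω
    rw [Polynomial.eval_add, add_mul]
  | monomial n a =>
    rw [Polynomial.sum_monomial_index a (fun m x => x * c m) (zero_mul _)]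
    refine ((hc n).const_mul a).congr fun T => ?_
    rw [← integral_const_mul]
    refine integral_congr_ae (ae_of_all _ fun ω => ?_)
    show a * (w T ω ^ n * f T ω) = Polynomial.eval (w T ω) (Polynomial.monomial n a) * f T ω
    rw [Polynomial.eval_monomial]
    ring

/-! ### the exponential moment -/

theorem cosh_trunc (Y : ℝ) : ∃ K : ℕ, ∀ y : ℝ, |y| ≤ Y →
    Real.exp (Real.pi / 2 * |y|) ≤ 2 + 2 * ∑ k ∈ range K, (Real.pi / 2) ^ (2 * k) / (2 * k).factorial * y ^ (2 * k) := by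
  have hs := Real.hasSum_cosh (Real.pi / 2 * Y)
  obtain ⟨K, hK⟩ := ((hs.tendsto_sum_nat).eventually_const_lt (show Real.cosh (Real.pi / 2 * Y) - 1 < Real.cosh (Real.pi / 2 * Y) by linarith)).exists
  refine ⟨K, fun y hy => ?_⟩
  have hY : 0 ≤ Y := (abs_nonneg y).trans hy
  have hpi := Real.pi_pos
  have h1 : Real.exp (Real.pi / 2 * |y|) ≤ 2 * Real.cosh (Real.pi / 2 * |y|) := by
    rw [Real.cosh_eq]
    have := Real.exp_pos (-(Real.pi / 2 * |y|))
    linarith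
  have hs1 := Real.hasSum_cosh (Real.pi / 2 * |y|)
  have h2 : Real.cosh (Real.pi / 2 * |y|) - ∑ k ∈ range K, (Real.pi / 2 * |y|) ^ (2 * k) / (2 * k).factorial ≤
      Real.cosh (Real.pi / 2 * Y) - ∑ k ∈ range K, (Real.pi / 2 * Y) ^ (2 * k) / (2 * k).factorial := by
    have e1 := hs1.summable.sum_add_tsum_nat_add K
    have e2 := hs.summable.sum_add_tsum_nat_add K
    rw [hs1.tsum_eq] at e1
    rw [hs.tsum_eq] at e2
    have e3 : ∑' k, (Real.pi / 2 * |y|) ^ (2 * (k + K)) / ((2 * (k + K)).factorial : ℝ) ≤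
        ∑' k, (Real.pi / 2 * Y) ^ (2 * (k + K)) / ((2 * (k + K)).factorial : ℝ) := by
      apply Summable.tsum_le_tsum
      · intro k
        apply div_le_div_of_nonneg_right _ (by positivity)
        apply pow_le_pow_left₀ (by positivity)
        exact mul_le_mul_of_nonneg_left hy (by positivity)
      · exact (summable_nat_add_iff K).2 hs1.summable
      · exact (summable_nat_add_iff K).2 hs.summable
    linarith
  have h3 : ∑ k ∈ range K, (Real.pi / 2 * |y|) ^ (2 * k) / ((2 * k).factorial : ℝ) =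
      ∑ k ∈ range K, (Real.pi / 2) ^ (2 * k) / (2 * k).factorial * y ^ (2 * k) := by
    refine sum_congr rfl fun k _ => ?_
    rw [mul_pow, (even_two_mul k).pow_abs]
    ring
  rw [h3] at h2
  linarith

theorem geo_sum (K : ℕ) : ∑ k ∈ range K, (Real.pi / 2) ^ (2 * k) * (25 / 64 : ℝ) ^ k ≤ 28 := by
  have h1 : ∀ k ∈ range K, (Real.pi / 2) ^ (2 * k) * (25 / 64 : ℝ) ^ k = ((Real.pi / 2) ^ 2 * (25 / 64)) ^ k := by
    intro k _
    rw [pow_mul, ← mul_pow]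
  rw [sum_congr rfl h1]
  have hpi : Real.pi < 3.1416 := Real.pi_lt_d4
  have hpi0 := Real.pi_pos
  have h2 : (Real.pi / 2) ^ 2 * (25 / 64) ≤ 27 / 28 := by nlinarith
  have h3 : (0 : ℝ) ≤ (Real.pi / 2) ^ 2 * (25 / 64) := by positivity
  calc ∑ k ∈ range K, ((Real.pi / 2) ^ 2 * (25 / 64)) ^ k ≤ ∑ k ∈ range K, (27 / 28 : ℝ) ^ k :=
        sum_le_sum fun k _ => pow_le_pow_left₀ h3 h2 k
    _ ≤ ∑' k : ℕ, (27 / 28 : ℝ) ^ k := (summable_geometric_of_lt_one (by norm_num) (by norm_num)).sum_le_tsum _ (fun k _ => by positivity)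
    _ = 28 := by rw [tsum_geometric_of_lt_one (by norm_num) (by norm_num)]; norm_num

theorem exp_int (hS : MomS l μ S) {w : ℝ → Ω → ℂ} {W : ℝ → Ω → ℝ} (hw : Dom l μ S w) (hW : Dom l μ S W) (hW0 : ∀ T ω, 0 ≤ W T ω)
    (hst : Tendsto (fun T => (μ T).real {ω | 3 / 4 < |(w T ω).re|}) l (𝓝 0)) {a : ℕ → ℂ}
    (ha : ∀ m, Tendsto (fun T => ∫ ω, w T ω ^ m * (W T ω : ℂ) ∂(μ T)) l (𝓝 (a m))) {D : ℝ} (hD : 0 ≤ D)
    (hg : ∀ k, ‖a (2 * k)‖ ≤ D * (2 * k).factorial * (25 / 64) ^ k) (Y : ℝ) {ε : ℝ} (hε : 0 < ε) :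
    ∀ᶠ T in l, ∫ ω in {ω | |(w T ω).re| ≤ 3 / 4}, (if |(w T ω).im| ≤ Y then Real.exp (Real.pi / 2 * |(w T ω).im|) * W T ω else 0) ∂(μ T) ≤
      600 * D + ε := by
  obtain ⟨K, hK⟩ := cosh_trunc Y
  have hpi := Real.pi_pos
  set cc : ℕ → ℝ := fun k => (Real.pi / 2) ^ (2 * k) / (2 * k).factorial with hcc
  have hcc0 : ∀ k, 0 ≤ cc k := fun k => by rw [hcc]; positivity
  have hsum0 : 0 ≤ ∑ k ∈ range K, cc k := sum_nonneg fun k _ => hcc0 k
  set ε' : ℝ := ε / (2 + 2 * ∑ k ∈ range K, cc k) with hε'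
  have hε'0 : 0 < ε' := by positivity
  have h5 : ∀ᶠ T in l, ∀ k ∈ range K, ∫ ω in {ω | |(w T ω).re| ≤ 3 / 4}, (w T ω).im ^ (2 * k) * W T ω ∂(μ T) ≤
      10 * D * (2 * k).factorial * (25 / 64) ^ k + ε' := by
    rw [Filter.eventually_all_finset]
    intro k _
    exact expmom hS hw hW hW0 hst ha hD hg k ε' hε'0
  have h6 := expmom hS hw hW hW0 hst ha hD hg 0 ε' hε'0
  have hY : ∀ i, Dom l μ S (fun T ω => (w T ω).im ^ (2 * i) * W T ω) := fun i => (hw.im.pow (2 * i)).mul hW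
  have h7 : ∀ᶠ T in l, ∀ i ∈ range K, Integrable (fun ω => (w T ω).im ^ (2 * i) * W T ω) (μ T) := by
    rw [Filter.eventually_all_finset]
    intro i _
    exact (hY i).integrable hS
  filter_upwards [h5, h6, h7, hW.integrable hS] with T g5 g6 g7 g8
  set G : Set Ω := {ω | |(w T ω).re| ≤ 3 / 4} with hG
  have hri : ∀ {f : Ω → ℝ}, Integrable f (μ T) → Integrable f ((μ T).restrict G) := fun hf => hf.mono_measure Measure.restrict_le_self
  have i1 : Integrable (fun ω => 2 * W T ω + 2 * ∑ k ∈ range K, cc k * ((w T ω).im ^ (2 * k) * W T ω)) (μ T) :=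
    (g8.const_mul 2).add ((integrable_finsetSum _ fun i hi => (g7 i hi).const_mul _).const_mul 2)
  have e1 : ∫ ω in G, (if |(w T ω).im| ≤ Y then Real.exp (Real.pi / 2 * |(w T ω).im|) * W T ω else 0) ∂(μ T) ≤
      ∫ ω in G, (2 * W T ω + 2 * ∑ k ∈ range K, cc k * ((w T ω).im ^ (2 * k) * W T ω)) ∂(μ T) := by
    apply integral_mono_of_nonneg (Eventually.of_forall fun ω => ?_) (hri i1) (Eventually.of_forall fun ω => ?_)
    · show (0 : ℝ) ≤ _
      split_ifs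
      · exact mul_nonneg (Real.exp_pos _).le (hW0 T ω)
      · exact le_refl _
    · show _ ≤ 2 * W T ω + 2 * ∑ k ∈ range K, cc k * ((w T ω).im ^ (2 * k) * W T ω)
      have hpos : 0 ≤ ∑ k ∈ range K, cc k * ((w T ω).im ^ (2 * k) * W T ω) := by
        refine sum_nonneg fun k _ => mul_nonneg (hcc0 k) (mul_nonneg ?_ (hW0 T ω))
        rw [pow_mul]; positivity
      split_ifs with hy
      · have h8 := mul_le_mul_of_nonneg_right (hK _ hy) (hW0 T ω)
        refine h8.trans (le_of_eq ?_)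
        rw [add_mul, mul_assoc 2 (∑ k ∈ range K, _) (W T ω), sum_mul]
        congr 2
        exact sum_congr rfl fun k _ => by rw [hcc]; ring
      · have := hW0 T ω
        linarith
  refine e1.trans ?_
  rw [integral_add ((hri g8).const_mul 2) (((integrable_finsetSum _ fun i hi => (hri (g7 i hi)).const_mul _)).const_mul 2),
    integral_const_mul, integral_const_mul, integral_finsetSum _ fun i hi => (hri (g7 i hi)).const_mul _]
  have e2 : ∑ k ∈ range K, ∫ ω in G, cc k * ((w T ω).im ^ (2 * k) * W T ω) ∂(μ T) ≤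
      10 * D * 28 + (∑ k ∈ range K, cc k) * ε' := by
    have s1 : ∑ k ∈ range K, ∫ ω in G, cc k * ((w T ω).im ^ (2 * k) * W T ω) ∂(μ T) ≤
        ∑ k ∈ range K, (10 * D * ((Real.pi / 2) ^ (2 * k) * (25 / 64 : ℝ) ^ k) + cc k * ε') := by
      refine sum_le_sum fun k hk => ?_
      rw [integral_const_mul]
      refine (mul_le_mul_of_nonneg_left (g5 k hk) (hcc0 k)).trans (le_of_eq ?_)
      rw [hcc]
      have : ((2 * k).factorial : ℝ) ≠ 0 := by exact_mod_cast Nat.factorial_ne_zero _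
      field_simp
    rw [sum_add_distrib, ← mul_sum, ← sum_mul] at s1
    have s2 := mul_le_mul_of_nonneg_left (geo_sum K) (by positivity : 0 ≤ 10 * D)
    linarith
  have e3 : ∫ ω in G, W T ω ∂(μ T) ≤ 10 * D + ε' := by
    simpa using g6
  have e4 : (2 + 2 * ∑ k ∈ range K, cc k) * ε' = ε := by
    rw [hε']
    field_simp
  nlinarith

/-! ### the multiplier -/

/-- `Φ = (1-V)/(1+V)`, `V = e^{iπw}` -/
noncomputable def Phi (z : ℂ) : ℂ := -I * Complex.tan (Real.pi * z / 2)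

theorem norm_sq_cos_sin (x y : ℝ) : ‖Complex.cos (x + y * I)‖ ^ 2 = Real.cos x ^ 2 + Real.sinh y ^ 2 ∧
    ‖Complex.sin (x + y * I)‖ ^ 2 = Real.sin x ^ 2 + Real.sinh y ^ 2 := by
  have hch := Real.cosh_sq y
  have hcs := Real.sin_sq_add_cos_sq x
  constructor
  · rw [Complex.cos_add_mul_I]
    have e : Complex.cos x * Complex.cosh y - Complex.sin x * Complex.sinh y * I =
        ((Real.cos x * Real.cosh y : ℝ) : ℂ) + ((-(Real.sin x * Real.sinh y) : ℝ) : ℂ) * I := by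
      push_cast; ring
    rw [e, ← Complex.normSq_eq_norm_sq, Complex.normSq_add_mul_I]
    rw [mul_pow, neg_sq, mul_pow, hch]
    nlinarith
  · rw [Complex.sin_add_mul_I]
    have e : Complex.sin x * Complex.cosh y + Complex.cos x * Complex.sinh y * I =
        ((Real.sin x * Real.cosh y : ℝ) : ℂ) + ((Real.cos x * Real.sinh y : ℝ) : ℂ) * I := by
      push_cast; ring
    rw [e, ← Complex.normSq_eq_norm_sq, Complex.normSq_add_mul_I]
    rw [mul_pow, mul_pow, hch]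
    nlinarith

theorem norm_Phi {η : ℝ} (hη : 0 ≤ η) (hη4 : η ≤ 1 / 4) {z : ℂ} (hz : |z.re| ≤ 1 / 2 + η) : ‖Phi z‖ ^ 2 ≤ 1 + 26 * η := by
  have hpi := Real.pi_pos
  have hpi2 : Real.pi < 3.15 := Real.pi_lt_d2
  obtain ⟨x, y, hx, hy, hxy⟩ : ∃ x y : ℝ, x = Real.pi * z.re / 2 ∧ y = Real.pi * z.im / 2 ∧ (Real.pi * z / 2 : ℂ) = x + y * I := by
    refine ⟨_, _, rfl, rfl, ?_⟩
    push_cast
    conv_lhs => rw [← Complex.re_add_im z]
    ring
  obtain ⟨hc, hs⟩ := norm_sq_cos_sin x y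
  have h1 : -(Real.pi * η) ≤ Real.cos (2 * x) := by
    have e : 2 * x = Real.pi * z.re := by rw [hx]; ring
    rw [e, ← Real.cos_abs, abs_mul, abs_of_pos hpi]
    rcases le_total (|z.re|) (1 / 2) with h | h
    · have : 0 ≤ Real.cos (Real.pi * |z.re|) := by
        apply Real.cos_nonneg_of_neg_pi_div_two_le_of_le
        · have : 0 ≤ Real.pi * |z.re| := by positivity
          linarith
        · nlinarith
      have h2 : 0 ≤ Real.pi * η := by positivity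
      linarith
    · have e2 : Real.cos (Real.pi * |z.re|) = -Real.sin (Real.pi * |z.re| - Real.pi / 2) := by
        rw [Real.sin_sub_pi_div_two, neg_neg]
      rw [e2]
      have h3 : Real.sin (Real.pi * |z.re| - Real.pi / 2) ≤ Real.pi * |z.re| - Real.pi / 2 := Real.sin_le (by nlinarith)
      nlinarith
  have h2 : 1 / 8 ≤ Real.cos x ^ 2 := by
    rw [Real.cos_sq]
    have h3 : -(3 / 4) ≤ Real.cos (2 * x) := by
      have e : 2 * x = Real.pi * z.re := by rw [hx]; ring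
      rw [e, ← Real.cos_abs, abs_mul, abs_of_pos hpi]
      have h4 : Real.cos (3 * Real.pi / 4) ≤ Real.cos (Real.pi * |z.re|) := by
        apply Real.cos_le_cos_of_nonneg_of_le_pi (by positivity) (by linarith)
        nlinarith
      have h5 : Real.cos (3 * Real.pi / 4) = -(Real.sqrt 2 / 2) := by
        have : 3 * Real.pi / 4 = Real.pi - Real.pi / 4 := by ring
        rw [this, Real.cos_pi_sub, Real.cos_pi_div_four]
      have h6 : Real.sqrt 2 ≤ 3 / 2 := by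
        rw [Real.sqrt_le_left (by norm_num)]; norm_num
      linarith
    linarith
  have hc0 : 0 < ‖Complex.cos (x + y * I)‖ ^ 2 := by
    rw [hc]
    have := sq_nonneg (Real.sinh y)
    linarith
  unfold Phi
  rw [norm_mul, norm_neg, Complex.norm_I, one_mul, hxy, Complex.tan_eq_sin_div_cos, norm_div, div_pow, div_le_iff₀ hc0, hs, hc]
  have h7 : Real.cos (2 * x) = 2 * Real.cos x ^ 2 - 1 := Real.cos_two_mul x
  have h8 := Real.sin_sq_add_cos_sq x
  have h9 := sq_nonneg (Real.sinh y)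
  nlinarith [mul_nonneg hη h9]

theorem pt_main {Q A Ph P : ℂ} : ‖Q - Ph * A‖ ^ 2 ≤ ‖Q‖ ^ 2 + ‖Ph‖ ^ 2 * ‖A‖ ^ 2 - 2 * (P * (A * (starRingEnd ℂ) Q)).re +
    ‖P - Ph‖ * (‖A‖ ^ 2 + ‖Q‖ ^ 2) := by
  have h1 : ‖Q - Ph * A‖ ^ 2 = ‖Q‖ ^ 2 + ‖Ph‖ ^ 2 * ‖A‖ ^ 2 - 2 * (Ph * (A * (starRingEnd ℂ) Q)).re := by
    rw [← Complex.normSq_eq_norm_sq, Complex.normSq_sub, Complex.normSq_mul, Complex.normSq_eq_norm_sq, Complex.normSq_eq_norm_sq,
      Complex.normSq_eq_norm_sq]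
    have e : (Q * (starRingEnd ℂ) (Ph * A)).re = (Ph * (A * (starRingEnd ℂ) Q)).re := by
      rw [← Complex.conj_re (Ph * (A * (starRingEnd ℂ) Q))]
      congr 1
      rw [map_mul, map_mul, map_mul, Complex.conj_conj]
      ring
    rw [e]
  have h2 : (Ph * (A * (starRingEnd ℂ) Q)).re = (P * (A * (starRingEnd ℂ) Q)).re - ((P - Ph) * (A * (starRingEnd ℂ) Q)).re := by
    rw [sub_mul, Complex.sub_re]; ring
  have h3 : ((P - Ph) * (A * (starRingEnd ℂ) Q)).re ≤ ‖P - Ph‖ * (‖A‖ * ‖Q‖) := by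
    refine (Complex.re_le_norm _).trans (le_of_eq ?_)
    rw [norm_mul, norm_mul, Complex.norm_conj]
  have h4 : 2 * (‖A‖ * ‖Q‖) ≤ ‖A‖ ^ 2 + ‖Q‖ ^ 2 := by nlinarith [sq_nonneg (‖A‖ - ‖Q‖)]
  have h5 := mul_le_mul_of_nonneg_left h4 (norm_nonneg (P - Ph))
  rw [h1, h2]
  nlinarith

/-- **The contraction theorem** -/
theorem contraction (hS : MomS l μ S) {w A Q : ℝ → Ω → ℂ} (hw : Dom l μ S w) (hA : Dom l μ S A) (hQ : Dom l μ S Q)
    (hst : ∀ η : ℝ, 0 < η → Tendsto (fun T => (μ T).real {ω | 1 / 2 + η < |(w T ω).re|}) l (𝓝 0)) {a b c : ℕ → ℂ}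
    (ha : ∀ m, Tendsto (fun T => ∫ ω, w T ω ^ m * ((‖A T ω‖ ^ 2 : ℝ) : ℂ) ∂(μ T)) l (𝓝 (a m)))
    (hb : ∀ m, Tendsto (fun T => ∫ ω, w T ω ^ m * ((‖Q T ω‖ ^ 2 : ℝ) : ℂ) ∂(μ T)) l (𝓝 (b m)))
    (hc : ∀ m, Tendsto (fun T => ∫ ω, w T ω ^ m * (A T ω * (starRingEnd ℂ) (Q T ω)) ∂(μ T)) l (𝓝 (c m)))
    {D : ℝ} (hD : 0 ≤ D) (hga : ∀ k, ‖a (2 * k)‖ ≤ D * (2 * k).factorial * (25 / 64) ^ k)
    (hgb : ∀ k, ‖b (2 * k)‖ ≤ D * (2 * k).factorial * (25 / 64) ^ k)
    {p : Polynomial ℂ} {ε : ℝ} (hε : 0 ≤ ε) (hp : ∀ z : ℂ, |z.re| ≤ 3 / 4 → ‖p.eval z - Phi z‖ ≤ ε * Real.exp (Real.pi / 2 * |z.im|))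
    {η : ℝ} (hη : 0 < η) (hη4 : η ≤ 1 / 4) {ε' : ℝ} (hε' : 0 < ε') :
    ∀ᶠ T in l, ∫ ω in {ω | |(w T ω).re| ≤ 1 / 2 + η}, ‖Q T ω - Phi (w T ω) * A T ω‖ ^ 2 ∂(μ T) ≤
      (1 + 26 * η) * (a 0).re + (b 0).re - 2 * (p.sum fun m x => x * c m).re + 1200 * D * ε + ε' := by
  have hst2 : Tendsto (fun T => (μ T).real {ω | 3 / 4 < |(w T ω).re|}) l (𝓝 0) := by
    have := hst (1 / 4) (by norm_num)
    norm_num at this
    exact this
  set W : ℝ → Ω → ℝ := fun T ω => ‖A T ω‖ ^ 2 + ‖Q T ω‖ ^ 2 with hWdef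
  have hW : Dom l μ S W := (hA.norm.pow 2).add hS (hQ.norm.pow 2)
  have hW0 : ∀ T ω, 0 ≤ W T ω := fun T ω => by rw [hWdef]; positivity
  have hwc := hw
  have hAc : Dom l μ S (fun T ω => ((‖A T ω‖ ^ 2 : ℝ) : ℂ)) := by
    obtain ⟨n, C, hC, h⟩ := hA.norm.pow 2
    refine ⟨n, C, hC, ?_⟩
    filter_upwards [h] with T h1
    exact ⟨Complex.continuous_ofReal.comp_aestronglyMeasurable h1.1, fun ω => by rw [Complex.norm_real]; exact h1.2 ω⟩
  have hQc : Dom l μ S (fun T ω => ((‖Q T ω‖ ^ 2 : ℝ) : ℂ)) := by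
    obtain ⟨n, C, hC, h⟩ := hQ.norm.pow 2
    refine ⟨n, C, hC, ?_⟩
    filter_upwards [h] with T h1
    exact ⟨Complex.continuous_ofReal.comp_aestronglyMeasurable h1.1, fun ω => by rw [Complex.norm_real]; exact h1.2 ω⟩
  have hab : ∀ m, Tendsto (fun T => ∫ ω, w T ω ^ m * (W T ω : ℂ) ∂(μ T)) l (𝓝 (a m + b m)) := by
    intro m
    refine ((ha m).add (hb m)).congr' ?_
    filter_upwards [((hw.pow m).mul hAc).integrable hS, ((hw.pow m).mul hQc).integrable hS] with T h1 h2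
    rw [← integral_add h1 h2]
    refine integral_congr_ae (ae_of_all _ fun ω => ?_)
    show _ + _ = w T ω ^ m * ((‖A T ω‖ ^ 2 + ‖Q T ω‖ ^ 2 : ℝ) : ℂ)
    push_cast
    ring
  have hgab : ∀ k, ‖a (2 * k) + b (2 * k)‖ ≤ (2 * D) * (2 * k).factorial * (25 / 64) ^ k := by
    intro k
    refine (norm_add_le _ _).trans ?_
    have h1 := hga k
    have h2 := hgb k
    linarith
  -- the remainder far from the real axis
  have hfar : Dom l μ S (fun T ω => (w T ω).im ^ 2 * ((‖p.eval (w T ω)‖ + 3) * W T ω)) :=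
    (hw.im.pow 2).mul (((hw.poly hS p).norm.add hS (Dom.const (3 : ℝ))).mul hW)
  obtain ⟨K, hK⟩ := hfar.bdd hS
  obtain ⟨Y, hY1, hY2⟩ : ∃ Y : ℝ, 1 ≤ Y ∧ K ≤ ε' / 8 * Y ^ 2 := by
    refine ⟨max 1 (8 * |K| / ε'), le_max_left _ _, ?_⟩
    have h1 : 8 * |K| / ε' ≤ max 1 (8 * |K| / ε') := le_max_right _ _
    have h2 : (1 : ℝ) ≤ max 1 (8 * |K| / ε') := le_max_left _ _
    have h3 : |K| ≤ ε' / 8 * max 1 (8 * |K| / ε') := by
      calc |K| = ε' / 8 * (8 * |K| / ε') := by field_simp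
        _ ≤ _ := mul_le_mul_of_nonneg_left h1 (by positivity)
    have h4 : ε' / 8 * max 1 (8 * |K| / ε') ≤ ε' / 8 * max 1 (8 * |K| / ε') ^ 2 := by
      apply mul_le_mul_of_nonneg_left _ (by positivity)
      nlinarith
    exact (le_abs_self K).trans (h3.trans h4)
  have hexp := exp_int hS hw hW hW0 hst2 hab (by positivity) hgab Y (ε := ε' / (8 * (ε + 1))) (by positivity)
  have hI3 := int_set hS ((hw.poly hS p).mul (hA.mul hQ.conj)) hw (hst η hη) (tendsto_poly hS hw (hA.mul hQ.conj) hc p)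
  have hI3' : ∀ᶠ T in l, (p.sum fun m x => x * c m).re - ε' / 8 <
      (∫ ω in {ω | |(w T ω).re| ≤ 1 / 2 + η}, p.eval (w T ω) * (A T ω * (starRingEnd ℂ) (Q T ω)) ∂(μ T)).re :=
    ((Complex.continuous_re.tendsto _).comp hI3).eventually_const_lt (by linarith)
  have hre : ∀ {f : ℝ → Ω → ℂ} {g : ℝ → Ω → ℝ} {z : ℂ}, (∀ T ω, f T ω = ((g T ω : ℝ) : ℂ)) →
      Tendsto (fun T => ∫ ω, w T ω ^ 0 * f T ω ∂(μ T)) l (𝓝 z) → ∀ e : ℝ, 0 < e → ∀ᶠ T in l, ∫ ω, g T ω ∂(μ T) < z.re + e := by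
    intro f g z hfg ht e he
    have h1 := ((Complex.continuous_re.tendsto _).comp ht).eventually_lt_const (show z.re < z.re + e by linarith)
    filter_upwards [h1] with T h2
    have e1 : ∫ ω, w T ω ^ 0 * f T ω ∂(μ T) = ((∫ ω, g T ω ∂(μ T) : ℝ) : ℂ) := by
      rw [← integral_complex_ofReal]
      refine integral_congr_ae (ae_of_all _ fun ω => ?_)
      show w T ω ^ 0 * f T ω = _
      rw [pow_zero, one_mul, hfg]
    rw [Function.comp_apply, e1, Complex.ofReal_re] at h2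
    exact h2
  have hI1 := hre (g := fun T ω => ‖Q T ω‖ ^ 2) (fun _ _ => rfl) (hb 0) (ε' / 8) (by positivity)
  have hI2 := hre (g := fun T ω => ‖A T ω‖ ^ 2) (fun _ _ => rfl) (ha 0) (ε' / 60) (by positivity)
  obtain ⟨nw, Cw, _, hwd⟩ := hwc
  filter_upwards [hK, hexp, hI3', hI1, hI2, hwd, (hA.norm.pow 2).integrable hS, (hQ.norm.pow 2).integrable hS,
    ((hw.poly hS p).mul (hA.mul hQ.conj)).integrable hS, hfar.integrable hS, hW.integrable hS, hS.fin] with T g1 g2 g3 g4 g5 g6 iA iQ iP iF iW gfin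
  set G : Set Ω := {ω | |(w T ω).re| ≤ 1 / 2 + η} with hG
  set G3 : Set Ω := {ω | |(w T ω).re| ≤ 3 / 4} with hG3
  have hGm : NullMeasurableSet G (μ T) := nm_le g6.1 _
  have hG3m : NullMeasurableSet G3 (μ T) := nm_le g6.1 _
  have hGG : G ⊆ G3 := fun ω hω => by
    have h1 : |(w T ω).re| ≤ 1 / 2 + η := hω
    show |(w T ω).re| ≤ 3 / 4
    linarith
  have hri : ∀ {f : Ω → ℝ}, Integrable f (μ T) → Integrable f ((μ T).restrict G) := fun hf => hf.mono_measure Measure.restrict_le_self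
  set E : Ω → ℝ := fun ω => if |(w T ω).im| ≤ Y then Real.exp (Real.pi / 2 * |(w T ω).im|) * W T ω else 0 with hE
  have hE0 : ∀ ω, 0 ≤ E ω := by
    intro ω
    rw [hE]
    show (0 : ℝ) ≤ if _ then _ else _
    split_ifs
    · exact mul_nonneg (Real.exp_pos _).le (hW0 T ω)
    · exact le_refl _
  have iE : Integrable E (μ T) := by
    refine (iW.const_mul (Real.exp (Real.pi / 2 * Y))).mono' ?_ (Eventually.of_forall fun ω => ?_)
    · have hm : AEStronglyMeasurable (fun ω => Real.exp (Real.pi / 2 * |(w T ω).im|) * W T ω) (μ T) := by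
        refine AEStronglyMeasurable.mul ?_ iW.1
        have hcont : Continuous (fun z : ℂ => Real.exp (Real.pi / 2 * |z.im|)) := by fun_prop
        exact hcont.comp_aestronglyMeasurable g6.1
      have h1 : AEMeasurable (fun ω => |(w T ω).im|) (μ T) :=
        ((continuous_abs.comp Complex.continuous_im).comp_aestronglyMeasurable g6.1).aemeasurable
      have hset : NullMeasurableSet {ω | |(w T ω).im| ≤ Y} (μ T) := nullMeasurableSet_le h1 aemeasurable_const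
      have e : E = Set.indicator {ω | |(w T ω).im| ≤ Y} (fun ω => Real.exp (Real.pi / 2 * |(w T ω).im|) * W T ω) := by
        funext ω
        rw [hE]
        by_cases h : |(w T ω).im| ≤ Y
        · rw [Set.indicator_of_mem (show ω ∈ {ω | |(w T ω).im| ≤ Y} from h)]
          exact if_pos h
        · rw [Set.indicator_of_notMem (show ω ∉ {ω | |(w T ω).im| ≤ Y} from h)]
          exact if_neg h
      rw [e]
      exact hm.indicator₀ hset
    · rw [Real.norm_eq_abs, abs_of_nonneg (hE0 ω)]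
      rw [hE]
      show (if _ then _ else _) ≤ _
      split_ifs with h
      · apply mul_le_mul_of_nonneg_right _ (hW0 T ω)
        apply Real.exp_le_exp.2
        exact mul_le_mul_of_nonneg_left h (by positivity)
      · exact mul_nonneg (Real.exp_pos _).le (hW0 T ω)
  have hY0 : 0 < Y := by linarith
  -- pointwise
  have hpt : ∀ ω ∈ G, ‖Q T ω - Phi (w T ω) * A T ω‖ ^ 2 ≤ ‖Q T ω‖ ^ 2 + (1 + 26 * η) * ‖A T ω‖ ^ 2 -
      2 * (p.eval (w T ω) * (A T ω * (starRingEnd ℂ) (Q T ω))).re + ε * E ω +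
      1 / Y ^ 2 * ((w T ω).im ^ 2 * ((‖p.eval (w T ω)‖ + 3) * W T ω)) := by
    intro ω hω
    have h1 := pt_main (Q := Q T ω) (A := A T ω) (Ph := Phi (w T ω)) (P := p.eval (w T ω))
    have h2 := norm_Phi hη.le hη4 (show |(w T ω).re| ≤ 1 / 2 + η from hω)
    have h3 : ‖Phi (w T ω)‖ ^ 2 * ‖A T ω‖ ^ 2 ≤ (1 + 26 * η) * ‖A T ω‖ ^ 2 := mul_le_mul_of_nonneg_right h2 (by positivity)
    have h4 : ‖p.eval (w T ω) - Phi (w T ω)‖ * (‖A T ω‖ ^ 2 + ‖Q T ω‖ ^ 2) ≤ ε * E ω +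
        1 / Y ^ 2 * ((w T ω).im ^ 2 * ((‖p.eval (w T ω)‖ + 3) * W T ω)) := by
      have hWW : ‖A T ω‖ ^ 2 + ‖Q T ω‖ ^ 2 = W T ω := rfl
      rw [hWW]
      by_cases hy : |(w T ω).im| ≤ Y
      · have h5 := hp (w T ω) (hGG hω)
        have h6 : E ω = Real.exp (Real.pi / 2 * |(w T ω).im|) * W T ω := if_pos hy
        have h7 : 0 ≤ 1 / Y ^ 2 * ((w T ω).im ^ 2 * ((‖p.eval (w T ω)‖ + 3) * W T ω)) := by
          have := hW0 T ω
          positivity
        have h8 := mul_le_mul_of_nonneg_right h5 (hW0 T ω)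
        rw [h6]
        nlinarith
      · have h5 : ‖p.eval (w T ω) - Phi (w T ω)‖ ≤ ‖p.eval (w T ω)‖ + 3 := by
          refine (norm_sub_le _ _).trans ?_
          have : ‖Phi (w T ω)‖ ≤ 3 := by
            have h9 : ‖Phi (w T ω)‖ ^ 2 ≤ 3 ^ 2 := h2.trans (by linarith)
            exact le_of_sq_le_sq h9 (by norm_num)
          linarith
        have h6 : 1 ≤ 1 / Y ^ 2 * (w T ω).im ^ 2 := by
          rw [one_div_mul_eq_div, le_div_iff₀ (by positivity), one_mul, ← sq_abs (w T ω).im]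
          exact pow_le_pow_left₀ hY0.le (not_le.1 hy).le 2
        have h7 : 0 ≤ ε * E ω := mul_nonneg hε (hE0 ω)
        have h8 : ‖p.eval (w T ω) - Phi (w T ω)‖ * W T ω ≤ (‖p.eval (w T ω)‖ + 3) * W T ω := mul_le_mul_of_nonneg_right h5 (hW0 T ω)
        have h9 : 0 ≤ (‖p.eval (w T ω)‖ + 3) * W T ω := mul_nonneg (by positivity) (hW0 T ω)
        have h10 : (‖p.eval (w T ω)‖ + 3) * W T ω ≤ (1 / Y ^ 2 * (w T ω).im ^ 2) * ((‖p.eval (w T ω)‖ + 3) * W T ω) :=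
          le_mul_of_one_le_left h9 h6
        nlinarith
    linarith
  have iall : Integrable (fun ω => ‖Q T ω‖ ^ 2 + (1 + 26 * η) * ‖A T ω‖ ^ 2 -
      2 * (p.eval (w T ω) * (A T ω * (starRingEnd ℂ) (Q T ω))).re + ε * E ω +
      1 / Y ^ 2 * ((w T ω).im ^ 2 * ((‖p.eval (w T ω)‖ + 3) * W T ω))) ((μ T).restrict G) :=
    hri ((((iQ.add (iA.const_mul _)).sub (iP.re.const_mul 2)).add (iE.const_mul ε)).add (iF.const_mul _))
  have e1 : ∫ ω in G, ‖Q T ω - Phi (w T ω) * A T ω‖ ^ 2 ∂(μ T) ≤ ∫ ω in G, (‖Q T ω‖ ^ 2 + (1 + 26 * η) * ‖A T ω‖ ^ 2 -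
      2 * (p.eval (w T ω) * (A T ω * (starRingEnd ℂ) (Q T ω))).re + ε * E ω +
      1 / Y ^ 2 * ((w T ω).im ^ 2 * ((‖p.eval (w T ω)‖ + 3) * W T ω))) ∂(μ T) := by
    apply integral_mono_of_nonneg (Eventually.of_forall fun ω => by positivity) iall
    filter_upwards [ae_restrict_mem₀ hGm] with ω hω
    exact hpt ω hω
  refine e1.trans ?_
  have jQ := hri iQ
  have jA : Integrable (fun ω => (1 + 26 * η) * ‖A T ω‖ ^ 2) ((μ T).restrict G) := (hri iA).const_mul _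
  have jP : Integrable (fun ω => 2 * (p.eval (w T ω) * (A T ω * (starRingEnd ℂ) (Q T ω))).re) ((μ T).restrict G) := (hri iP.re).const_mul 2
  have jE : Integrable (fun ω => ε * E ω) ((μ T).restrict G) := (hri iE).const_mul ε
  have jF : Integrable (fun ω => 1 / Y ^ 2 * ((w T ω).im ^ 2 * ((‖p.eval (w T ω)‖ + 3) * W T ω))) ((μ T).restrict G) := (hri iF).const_mul _
  have jQA : Integrable (fun ω => ‖Q T ω‖ ^ 2 + (1 + 26 * η) * ‖A T ω‖ ^ 2) ((μ T).restrict G) := jQ.add jA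
  have jQAP : Integrable (fun ω => ‖Q T ω‖ ^ 2 + (1 + 26 * η) * ‖A T ω‖ ^ 2 -
      2 * (p.eval (w T ω) * (A T ω * (starRingEnd ℂ) (Q T ω))).re) ((μ T).restrict G) := jQA.sub jP
  have jQAPE : Integrable (fun ω => ‖Q T ω‖ ^ 2 + (1 + 26 * η) * ‖A T ω‖ ^ 2 -
      2 * (p.eval (w T ω) * (A T ω * (starRingEnd ℂ) (Q T ω))).re + ε * E ω) ((μ T).restrict G) := jQAP.add jE
  rw [integral_add jQAPE jF, integral_add jQAP jE, integral_sub jQA jP, integral_add jQ jA, integral_const_mul, integral_const_mul,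
    integral_const_mul, integral_const_mul]
  have f1 : ∫ ω in G, ‖Q T ω‖ ^ 2 ∂(μ T) ≤ ∫ ω, ‖Q T ω‖ ^ 2 ∂(μ T) :=
    integral_mono_measure Measure.restrict_le_self (Eventually.of_forall fun ω => by positivity) iQ
  have f2 : ∫ ω in G, ‖A T ω‖ ^ 2 ∂(μ T) ≤ ∫ ω, ‖A T ω‖ ^ 2 ∂(μ T) :=
    integral_mono_measure Measure.restrict_le_self (Eventually.of_forall fun ω => by positivity) iA
  have f3 : ∫ ω in G, (p.eval (w T ω) * (A T ω * (starRingEnd ℂ) (Q T ω))).re ∂(μ T) =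
      (∫ ω in G, p.eval (w T ω) * (A T ω * (starRingEnd ℂ) (Q T ω)) ∂(μ T)).re :=
    integral_re (iP.mono_measure Measure.restrict_le_self)
  have f4 : ∫ ω in G, E ω ∂(μ T) ≤ 600 * (2 * D) + ε' / (8 * (ε + 1)) := by
    refine le_trans ?_ g2
    apply integral_mono_measure (Measure.restrict_mono_set _ hGG) (Eventually.of_forall hE0)
    exact iE.mono_measure Measure.restrict_le_self
  have f5 : ∫ ω in G, (w T ω).im ^ 2 * ((‖p.eval (w T ω)‖ + 3) * W T ω) ∂(μ T) ≤ K := by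
    refine le_trans ?_ g1
    have h1 : ∫ ω in G, (w T ω).im ^ 2 * ((‖p.eval (w T ω)‖ + 3) * W T ω) ∂(μ T) ≤ ∫ ω, (w T ω).im ^ 2 * ((‖p.eval (w T ω)‖ + 3) * W T ω) ∂(μ T) := by
      apply integral_mono_measure Measure.restrict_le_self (Eventually.of_forall fun ω => ?_) iF
      have := hW0 T ω
      show (0 : ℝ) ≤ _
      positivity
    refine h1.trans (integral_mono iF iF.norm fun ω => ?_)
    exact Real.le_norm_self _
  have f6 : ε * (ε' / (8 * (ε + 1))) ≤ ε' / 8 := by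
    rw [mul_div_assoc', div_le_div_iff₀ (by positivity) (by norm_num)]
    nlinarith
  have f7 : 1 / Y ^ 2 * ∫ ω in G, (w T ω).im ^ 2 * ((‖p.eval (w T ω)‖ + 3) * W T ω) ∂(μ T) ≤ ε' / 8 := by
    calc _ ≤ 1 / Y ^ 2 * (ε' / 8 * Y ^ 2) := mul_le_mul_of_nonneg_left (f5.trans hY2) (by positivity)
      _ = ε' / 8 := by field_simp
  have f8 := mul_le_mul_of_nonneg_left f4 hε
  have f9 : (1 + 26 * η) * ∫ ω in G, ‖A T ω‖ ^ 2 ∂(μ T) ≤ (1 + 26 * η) * ((a 0).re + ε' / 60) :=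
    mul_le_mul_of_nonneg_left (f2.trans g5.le) (by positivity)
  have f10 : (1 + 26 * η) * (ε' / 60) ≤ ε' / 8 := by nlinarith
  rw [f3]
  nlinarith

end

end Pool.Agent.H92.RG
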