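/-
MP_103a5c_AH, S1: the measures `v(t/T) dt / T`, weights, moments.
-/
import Mathlib
import Pool.Agent.H92.RG.Mean2
import Pool.Agent.H92.RG.Contr2
import Pool.Agent.H67.HF.Main2
import Pool.Agent.H5.AH.Strip
import Pool.Agent.H68.AH.Rc

set_option autoImplicit false

open MeasureTheory Set Filter Topology
open scoped Real ContDiff ComplexConjugate

namespace Pool.Agent.H92.RG

open Pool.Agent Pool.Agent.H6 Pool.Agent.H14.GP Pool.Agent.H24.HF Pool.Agent.H67.HF Pool.Agent.H68.AH Pool.Agent.H24.AH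
  Pool.Agent.H98.GP Pool.Agent.H5.AH

/-- the measure `v(t/T) dt / T` -/
noncomputable def muT (v : ℝ → ℝ) (T : ℝ) : Measure ℝ := volume.withDensity fun t => ENNReal.ofReal (v (t / T) / T)

section
variable {v : ℝ → ℝ}

theorem muT_cont (hv : Wgt v) (T : ℝ) : Continuous fun t : ℝ => v (t / T) / T :=
  (hv.smooth.continuous.comp (continuous_id.div_const T)).div_const T

theorem muT_nn (hv : Wgt v) {T : ℝ} (hT : 0 < T) (t : ℝ) : 0 ≤ v (t / T) / T := div_nonneg (hv.nonneg _) hT.le

theorem muT_supp {a b : ℝ} (hsupp : ∀ x, x ∉ Icc a b → v x = 0) {T : ℝ} (hT : 0 < T) (t : ℝ) (ht : t ∉ Icc (a * T) (b * T)) :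
    v (t / T) = 0 := by
  apply hsupp
  intro h
  apply ht
  rw [mem_Icc, le_div_iff₀ hT, div_le_iff₀ hT] at h
  exact h

theorem muT_vint (hv : Wgt v) {T : ℝ} (hT : 0 < T) {E : Type*} [NormedAddCommGroup E] [NormedSpace ℝ E] {g : ℝ → E} (hg : Continuous g) :
    Integrable (fun t => (v (t / T) / T) • g t) volume := by
  obtain ⟨a, b, ha, hab, hsupp⟩ := hv.supp
  apply ((muT_cont hv T).smul hg).integrable_of_hasCompactSupport
  apply HasCompactSupport.intro (isCompact_Icc (a := a * T) (b := b * T))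
  intro t ht
  show (v (t / T) / T) • g t = 0
  rw [muT_supp hsupp hT t ht, zero_div, zero_smul]

theorem muT_fin (hv : Wgt v) {T : ℝ} (hT : 0 < T) : IsFiniteMeasure (muT v T) := by
  apply isFiniteMeasure_withDensity_ofReal
  have h1 := muT_vint hv hT (g := fun _ => (1 : ℝ)) continuous_const
  simp only [smul_eq_mul, mul_one] at h1
  exact h1.hasFiniteIntegral

theorem muT_meas (hv : Wgt v) (T : ℝ) : Measurable fun t : ℝ => ENNReal.ofReal (v (t / T) / T) :=
  (muT_cont hv T).measurable.ennreal_ofReal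

theorem muT_lt (v : ℝ → ℝ) (T : ℝ) : ∀ᵐ t ∂(volume : Measure ℝ), ENNReal.ofReal (v (t / T) / T) < ⊤ :=
  Filter.Eventually.of_forall fun t => ENNReal.ofReal_lt_top

theorem muT_integral (hv : Wgt v) {T : ℝ} (hT : 0 < T) {E : Type*} [NormedAddCommGroup E] [NormedSpace ℝ E] (f : ℝ → E) :
    ∫ t, f t ∂(muT v T) = ∫ t, (v (t / T) / T) • f t := by
  unfold muT
  rw [integral_withDensity_eq_integral_toReal_smul (muT_meas hv T) (muT_lt v T)]
  congr 1
  funext t
  rw [ENNReal.toReal_ofReal (muT_nn hv hT t)]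

theorem muT_EE (hv : Wgt v) {T : ℝ} (hT : 0 < T) (f : ℝ → ℝ) : ∫ t, f t ∂(muT v T) = EE v T f := by
  rw [muT_integral hv hT, EE, ← integral_const_mul]
  congr 1
  funext t
  rw [smul_eq_mul]
  ring

theorem muT_EC (hv : Wgt v) {T : ℝ} (hT : 0 < T) (f : ℝ → ℂ) : ∫ t, f t ∂(muT v T) = EC v T f := by
  rw [muT_integral hv hT, EC, ← integral_const_mul]
  congr 1
  funext t
  rw [Complex.real_smul]
  push_cast
  ring

theorem muT_intble (hv : Wgt v) {T : ℝ} (hT : 0 < T) {E : Type*} [NormedAddCommGroup E] [NormedSpace ℝ E] {f : ℝ → E} (hf : Continuous f) :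
    Integrable f (muT v T) := by
  unfold muT
  rw [integrable_withDensity_iff_integrable_smul' (muT_meas hv T) (muT_lt v T)]
  refine (muT_vint hv hT hf).congr (Filter.Eventually.of_forall fun t => ?_)
  simp only [ENNReal.toReal_ofReal (muT_nn hv hT t)]

theorem muT_le (hv : Wgt v) {a b : ℝ} (hsupp : ∀ x, x ∉ Icc a b → v x = 0) {B : ℝ} (hB : ∀ x, v x ≤ B) {T : ℝ} (hT : 0 < T)
    {s : Set ℝ} (hs : MeasurableSet s) : (muT v T).real s ≤ B / T * volume.real (s ∩ Icc (a * T) (b * T)) := by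
  have hB0 : 0 ≤ B := (hv.nonneg 0).trans (hB 0)
  have h1 : muT v T s ≤ ENNReal.ofReal (B / T) * volume (s ∩ Icc (a * T) (b * T)) := by
    unfold muT
    rw [withDensity_apply _ hs, inter_comm, ← Measure.restrict_apply measurableSet_Icc,
      ← lintegral_indicator_const measurableSet_Icc]
    apply lintegral_mono
    intro t
    simp only [indicator]
    split_ifs with ht
    · apply ENNReal.ofReal_le_ofReal
      exact div_le_div_of_nonneg_right (hB _) hT.le
    · rw [muT_supp hsupp hT t ht, zero_div, ENNReal.ofReal_zero]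
  have h2 : volume (s ∩ Icc (a * T) (b * T)) ≠ ⊤ :=
    ne_top_of_le_ne_top (isCompact_Icc.measure_lt_top).ne (measure_mono inter_subset_right)
  have h3 := ENNReal.toReal_mono (ENNReal.mul_ne_top ENNReal.ofReal_ne_top h2) h1
  rw [ENNReal.toReal_mul, ENNReal.toReal_ofReal (by positivity)] at h3
  exact h3

theorem muT_ge (hv : Wgt v) {α β : ℝ} (h1 : ∀ x ∈ Icc α β, 1 ≤ v x) {T : ℝ} (hT : 0 < T)
    {s : Set ℝ} (hs : MeasurableSet s) (hsub : s ⊆ Icc (α * T) (β * T)) : volume.real s ≤ T * (muT v T).real s := by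
  have := muT_fin hv hT
  have h2 : ENNReal.ofReal (1 / T) * volume s ≤ muT v T s := by
    unfold muT
    rw [withDensity_apply _ hs, ← setLIntegral_const]
    apply setLIntegral_mono (muT_meas hv T)
    intro t ht
    apply ENNReal.ofReal_le_ofReal
    have h3 := hsub ht
    have h4 : t / T ∈ Icc α β := ⟨(le_div_iff₀ hT).2 h3.1, (div_le_iff₀ hT).2 h3.2⟩
    exact div_le_div_of_nonneg_right (h1 _ h4) hT.le
  have h3 := ENNReal.toReal_mono (measure_ne_top _ _) h2
  rw [ENNReal.toReal_mul, ENNReal.toReal_ofReal (by positivity)] at h3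
  have h4 : volume.real s = T * (1 / T * (volume s).toReal) := by
    rw [← mul_assoc, mul_one_div_cancel hT.ne', one_mul]
    rfl
  rw [h4]
  exact mul_le_mul_of_nonneg_left h3 hT.le

end

/-- a good weight -/
theorem exists_wgt {α β : ℝ} (hα : 0 < α) (hαβ : α < β) (hβ : β < 1) : ∃ (v : ℝ → ℝ) (a b : ℝ), Wgt v ∧ 0 < a ∧ a < b ∧ b < 1 ∧
    (∀ x, x ∉ Icc a b → v x = 0) ∧ (∀ x, v x ≤ 1) ∧ (∀ x ∈ Icc α β, 1 ≤ v x) ∧ 0 ≤ ∫ x, v x ∧ ∫ x, v x ≤ 1 := by
  set r : ℝ := (β - α) / 2 with hr
  set e : ℝ := min α (1 - β) / 2 with he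
  have he0 : 0 < e := by
    have : 0 < min α (1 - β) := lt_min hα (by linarith)
    positivity
  have he1 : 2 * e ≤ α := by
    have := min_le_left α (1 - β)
    linarith
  have he2 : 2 * e ≤ 1 - β := by
    have := min_le_right α (1 - β)
    linarith
  have hr0 : 0 < r := by rw [hr]; linarith
  let b : ContDiffBump ((α + β) / 2 : ℝ) := ⟨r, r + e, hr0, by linarith⟩
  have hsupp : ∀ x, x ∉ Icc (α - e) (β + e) → b x = 0 := by
    intro x hx
    apply b.zero_of_le_dist
    rw [Real.dist_eq]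
    show r + e ≤ |x - (α + β) / 2|
    by_contra h
    rw [not_le, abs_lt] at h
    exact hx ⟨by linarith [h.1], by linarith [h.2]⟩
  have hwgt : Wgt (b : ℝ → ℝ) := ⟨b.contDiff, ⟨α - e, β + e, by linarith, by linarith, hsupp⟩, fun x => b.nonneg⟩
  refine ⟨b, α - e, β + e, hwgt, by linarith, by linarith, by linarith, hsupp, fun x => b.le_one, ?_, ?_, ?_⟩
  · intro x hx
    rw [b.one_of_mem_closedBall]
    rw [Metric.mem_closedBall, Real.dist_eq, abs_le]
    show -r ≤ x - (α + β) / 2 ∧ x - (α + β) / 2 ≤ r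
    exact ⟨by linarith [hx.1], by linarith [hx.2]⟩
  · exact integral_nonneg fun x => b.nonneg
  · have h1 : ∫ x, b x = ∫ x in Icc (α - e) (β + e), b x := by
      symm
      apply setIntegral_eq_integral_of_forall_compl_eq_zero
      intro x hx
      exact hsupp x hx
    rw [h1]
    have h2 : ∫ x in Icc (α - e) (β + e), b x ≤ ∫ x in Icc (α - e) (β + e), (1 : ℝ) := by
      apply setIntegral_mono_on
      · exact (b.continuous.continuousOn).integrableOn_Icc
      · exact integrableOn_const (by rw [Real.volume_Icc]; exact ENNReal.ofReal_ne_top)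
      · exact measurableSet_Icc
      · intro x _
        exact b.le_one
    refine h2.trans ?_
    rw [setIntegral_const, smul_eq_mul, mul_one, Measure.real, Real.volume_Icc, ENNReal.toReal_ofReal (by linarith)]
    linarith

/-- shifts by `c / log T` -/
theorem Mom_shift {F : ℝ → ℝ → ℝ} (hF : Mom F) (s : ℝ) : Mom (fun T t => F T (t + s / Real.log T)) := by
  constructor
  · filter_upwards [hF.cont] with T hT
    exact hT.comp (continuous_id.add continuous_const)
  · intro k c C hc hcC
    obtain ⟨K, hK⟩ := hF.bdd k (c / 2) (2 * C) (by linarith) (by linarith)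
    refine ⟨K, ?_⟩
    have h1 : Tendsto (fun T : ℝ => s / Real.log T) atTop (𝓝 0) := tendsto_const_nhds.div_atTop Real.tendsto_log_atTop
    have h2 : ∀ᶠ T : ℝ in atTop, |s / Real.log T| < 1 := by
      have := h1.abs
      rw [abs_zero] at this
      exact this.eventually_lt_const one_pos
    have h3 : ∀ᶠ T : ℝ in atTop, 2 / c < T := eventually_gt_atTop _
    have h4 : ∀ᶠ T : ℝ in atTop, 2 / C < T := eventually_gt_atTop _
    filter_upwards [hK, h2, h3, h4, hF.cont, eventually_gt_atTop (0 : ℝ)] with T g1 g2 g3 g4 g5 hT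
    have e : ∫ t in (c * T)..(C * T), F T (t + s / Real.log T) ^ (2 * k) =
        ∫ t in (c * T + s / Real.log T)..(C * T + s / Real.log T), F T t ^ (2 * k) :=
      intervalIntegral.integral_comp_add_right (fun t => F T t ^ (2 * k)) _
    rw [e]
    refine le_trans ?_ g1
    have hC : 0 < C := by linarith
    rw [div_lt_iff₀ hc] at g3
    rw [div_lt_iff₀ hC] at g4
    rw [abs_lt] at g2
    have q1 : c / 2 * T ≤ c * T + s / Real.log T := by nlinarith
    have q2 : C * T + s / Real.log T ≤ 2 * C * T := by nlinarith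
    have q3 : c * T + s / Real.log T ≤ C * T + s / Real.log T := by nlinarith
    exact intervalIntegral.integral_mono_interval q1 q3 q2 (Eventually.of_forall fun t => by
      show (0 : ℝ) ≤ F T t ^ (2 * k)
      rw [pow_mul]; positivity) ((g5.pow _).intervalIntegrable _ _)

end Pool.Agent.H92.RG
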