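/-
MP_103a5c_AH, S1: preparations for the final estimate.
-/
import Mathlib
import Pool.Agent.H92.RG.Meas

set_option autoImplicit false

open MeasureTheory Set Filter Topology
open scoped Real ContDiff ComplexConjugate

namespace Pool.Agent.H92.RG

open Pool.Agent Pool.Agent.H6 Pool.Agent.H14.GP Pool.Agent.H24.HF Pool.Agent.H67.HF Pool.Agent.H68.AH Pool.Agent.H24.AH
  Pool.Agent.H98.GP Pool.Agent.H5.AH

/-! ### formal part -/

theorem growth (M : ℕ) (κ E : PowerSeries ℂ) (k : ℕ) : ‖LM M (κ ^ (2 * k) * E)‖ ≤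
    (NM M E * Real.exp (8 / 5 * NM M κ)) * (2 * k).factorial * (25 / 64) ^ k := by
  have h1 : ‖LM M (κ ^ (2 * k) * E)‖ ≤ NM M κ ^ (2 * k) * NM M E :=
    (LM_le_NM M _).trans ((NM_mul M _ _).trans (mul_le_mul_of_nonneg_right (NM_pow M κ _) (NM_nonneg M E)))
  have h2 := Real.pow_div_factorial_le_exp (8 / 5 * NM M κ) (by have := NM_nonneg M κ; positivity) (2 * k)
  have hf : (0 : ℝ) < (2 * k).factorial := by exact_mod_cast Nat.factorial_pos _
  rw [div_le_iff₀ hf] at h2
  have h3 : NM M κ ^ (2 * k) = (8 / 5 * NM M κ) ^ (2 * k) * (25 / 64) ^ k := by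
    rw [mul_pow]
    have e : (25 / 64 : ℝ) ^ k = (5 / 8) ^ (2 * k) := by rw [pow_mul]; norm_num
    rw [e]
    have e2 : (8 / 5 : ℝ) ^ (2 * k) * (5 / 8) ^ (2 * k) = 1 := by rw [← mul_pow]; norm_num
    linear_combination (-(NM M κ ^ (2 * k))) * e2
  refine h1.trans ?_
  rw [h3]
  have h4 := NM_nonneg M E
  calc (8 / 5 * NM M κ) ^ (2 * k) * (25 / 64) ^ k * NM M E
      ≤ (Real.exp (8 / 5 * NM M κ) * (2 * k).factorial) * (25 / 64) ^ k * NM M E := by gcongr
    _ = _ := by ring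

theorem sum_LM (M : ℕ) (κ E : PowerSeries ℂ) (J : ℂ) (p : Polynomial ℂ) :
    (p.sum fun m x => x * (J * LM M (κ ^ m * E))) = J * LM M (Polynomial.aeval κ p * E) := by
  induction p using Polynomial.induction_on' with
  | add p q hp hq =>
    rw [Polynomial.sum_add_index _ _ _ (fun _ => zero_mul _) (fun _ _ _ => add_mul _ _ _), hp, hq, map_add, add_mul, LM_add]
    ring
  | monomial n a =>
    rw [Polynomial.sum_monomial_index a (fun m x => x * (J * LM M (κ ^ m * E))) (zero_mul _), Polynomial.aeval_monomial]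
    have e : (algebraMap ℂ (PowerSeries ℂ)) a * κ ^ n * E = PowerSeries.C a * (κ ^ n * E) := by
      rw [mul_assoc]; rfl
    rw [e]
    unfold LM
    simp only [PowerSeries.coeff_C_mul]
    rw [← Finset.mul_sum]
    ring

section
variable {M : ℕ} {G : ℕ → ℝ → ℝ} {θ : ℝ}

theorem ipc_diag (hG : Cell0 M G) (hθ : 0 < θ) (hθ1 : θ < 1) (a : ℝ) (j : ℕ) (h1 : 1 ≤ j) (h2 : j < M) :
    ipc (tau θ G a j) (tau θ G a j) = 1 / (j : ℂ) := by
  have h3 := (hG.cells1 hθ hθ1).norm j h1 h2
  unfold ipc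
  have e : ∀ x : ℝ, tau θ G a j x * conj (tau θ G a j x) / (x : ℂ) = ((cG θ G j x ^ 2 / x : ℝ) : ℂ) := by
    intro x
    rw [Complex.mul_conj, Complex.normSq_eq_norm_sq, norm_tau, sq_abs]
    push_cast
    rfl
  simp only [e]
  rw [integral_complex_ofReal, h3]
  push_cast
  rfl

theorem LM_diag (hG : Cell0 M G) (hθ : 0 < θ) (hθ1 : θ < 1) (a : ℝ) : LM M (EXS θ G a a) = M := by
  have h1 : ∀ n < M, PowerSeries.coeff n (EXS θ G a a) = 1 := by
    intro n hn
    have h2 := EX_uniq (y := fun j => (1 : ℂ) ^ j / j) (M := M) (W := EXS θ G a a) (EX_zero _) (by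
      intro m hm
      unfold EXS
      rw [EX_newton]
      refine Finset.sum_congr rfl fun j hj => ?_
      have hj' : j < m + 1 := Finset.mem_range.1 hj
      rw [ipc_diag hG hθ hθ1 a (j + 1) (by omega) (by omega), one_pow]) n hn
    rw [h2, EX_geom, PowerSeries.coeff_mk, one_pow]
  unfold LM
  rw [Finset.sum_congr rfl fun n hn => h1 n (Finset.mem_range.1 hn), Finset.sum_const, Finset.card_range, nsmul_eq_mul, mul_one]

/-! ### moments -/

theorem mom_CT {CR : ℝ} (I : Inputs gZ wZ FZ CR) (hG : Cell0 M G) (hθ : 0 < θ) (hθ1 : θ < 1) :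
    Mom (fun T t => ‖CT M (cG θ G) T t‖) := by
  refine Br_of_le ?_ (Mom.sum (Finset.range M) fun k _ => mom_h I (hG.cells1 hθ hθ1) k) (Eventually.of_forall fun T t => ?_)
  · filter_upwards [eventually_gt_atTop (0 : ℝ)] with T hT
    exact (continuous_finsetSum _ fun k _ => Pool.Agent.H68.HF.continuous_hh _ T k).norm
  · rw [abs_of_nonneg (norm_nonneg _)]
    exact norm_sum_le _ _

theorem cont_CT (M : ℕ) (G : ℕ → ℝ → ℝ) (T c : ℝ) : Continuous (fun t => CT M G T (t + c)) :=
  (continuous_finsetSum _ fun k _ => Pool.Agent.H68.HF.continuous_hh _ T k : Continuous (fun t => CT M G T t)).comp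
    (continuous_id.add continuous_const)

/-- the dominating function -/
noncomputable def Sf (M : ℕ) (G : ℕ → ℝ → ℝ) (θ : ℝ) (χ : ℝ → ℝ) (δ D a a' T t : ℝ) : ℝ :=
  1 + (‖PP1 χ δ D T t‖ + (‖CT M (cG θ G) T (t + a / Real.log T)‖ + ‖CT M (cG θ G) T (t + a' / Real.log T)‖))

theorem cont_Sf (M : ℕ) (G : ℕ → ℝ → ℝ) (θ : ℝ) (χ : ℝ → ℝ) (δ D a a' T : ℝ) : Continuous (Sf M G θ χ δ D a a' T) := by
  unfold Sf
  exact continuous_const.add ((Pool.Agent.H68.HF.continuous_PP1 χ δ D T).norm.add ((cont_CT M _ T _).norm.add (cont_CT M _ T _).norm))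

theorem momS_Sf (RH : RiemannHypothesis) {FF : Filter ℝ} (hFF : FF ≤ atTop) {v : ℝ → ℝ} (hv : Wgt v) (hG : Cell0 M G) (hθ : 0 < θ) (hθ1 : θ < 1)
    {χ : ℝ → ℝ} {D δ : ℝ} (hW : Win2 χ D) (hδ : 0 < δ) (a a' : ℝ) : MomS FF (muT v) (Sf M G θ χ δ D a a') := by
  obtain ⟨CR, I⟩ := exists_inputs RH
  have hP : PoissonInput gZ wZ 1 (PC.arch 1) := poissonInput (zetaFacts RH) (by norm_num)
  have hT0 : ∀ᶠ T : ℝ in FF, 0 < T := hFF (eventually_gt_atTop 0)
  have hM : Mom (Sf M G θ χ δ D a a') := by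
    have h1 := mom_CT I hG hθ hθ1
    exact (Mom.const 1).add ((mom_P I hP hW hδ).add ((Mom_shift h1 a).add (Mom_shift h1 a')))
  have hone : ∀ T t, 1 ≤ Sf M G θ χ δ D a a' T t := fun T t => by
    unfold Sf
    have : 0 ≤ ‖PP1 χ δ D T t‖ + (‖CT M (cG θ G) T (t + a / Real.log T)‖ + ‖CT M (cG θ G) T (t + a' / Real.log T)‖) := by positivity
    linarith
  refine ⟨?_, ?_, hone, ?_, ?_⟩
  · filter_upwards [hT0] with T hT
    exact muT_fin hv hT
  · filter_upwards [hT0] with T hT
    exact (cont_Sf M G θ χ δ D a a' T).aestronglyMeasurable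
  · intro n
    filter_upwards [hT0] with T hT
    exact muT_intble hv hT ((cont_Sf M G θ χ δ D a a' T).pow n)
  · intro n
    obtain ⟨K, hK⟩ := EE_le_of_Mom hv hM n
    refine ⟨K, ?_⟩
    filter_upwards [hFF hK, hT0] with T h1 hT
    rw [muT_EE hv hT]
    refine le_trans (le_of_eq ?_) h1
    congr 1
    funext t
    rw [abs_of_nonneg (by have := hone T t; linarith)]

end

/-! ### the multiplier -/

theorem Phi_eq {w : ℂ} (hw : |w.re| ≤ 3 / 4) : (1 + Complex.exp (Complex.I * π * w)) * Phi w = 1 - Complex.exp (Complex.I * π * w) := by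
  have hcos : Complex.cos (π * w / 2) ≠ 0 := by
    rw [Complex.cos_ne_zero_iff]
    intro k hk
    have h1 := congrArg Complex.re hk
    have e1 : (π * w / 2 : ℂ).re = π * w.re / 2 := by
      have : (π * w / 2 : ℂ) = ((π / 2 : ℝ) : ℂ) * w := by push_cast; ring
      rw [this, Complex.re_ofReal_mul]; ring
    have e2 : ((2 * (k : ℂ) + 1) * π / 2 : ℂ).re = (2 * k + 1) * π / 2 := by
      have : ((2 * (k : ℂ) + 1) * π / 2 : ℂ) = (((2 * (k : ℝ) + 1) * π / 2 : ℝ) : ℂ) := by push_cast; ring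
      rw [this, Complex.ofReal_re]
    rw [e1, e2] at h1
    have h2 : w.re = 2 * k + 1 := by
      have hp := Real.pi_pos
      have : π * w.re = π * (2 * k + 1) := by linarith
      exact mul_left_cancel₀ hp.ne' this
    rw [h2] at hw
    have h3 : (1 : ℝ) ≤ |2 * (k : ℝ) + 1| := by
      have h4 : (1 : ℤ) ≤ |2 * k + 1| := Int.one_le_abs (by omega)
      exact_mod_cast h4
    linarith
  set u : ℂ := π * w / 2 with hu
  have e1 : Complex.exp (Complex.I * π * w) = Complex.exp (u * Complex.I) * Complex.exp (u * Complex.I) := by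
    rw [← Complex.exp_add]
    congr 1
    rw [hu]; ring
  have e2 : Complex.exp (u * Complex.I) = Complex.cos u + Complex.sin u * Complex.I := Complex.exp_mul_I u
  have e3 := Complex.sin_sq_add_cos_sq u
  unfold Phi
  rw [← hu, Complex.tan_eq_sin_div_cos, e1, e2]
  field_simp
  have hI : Complex.I ^ 2 = -1 := Complex.I_sq
  have hI3 : Complex.I ^ 3 = -Complex.I := by rw [pow_succ, hI]; ring
  ring_nf
  rw [hI3, hI]
  linear_combination (Complex.cos u + Complex.I * Complex.sin u) * e3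

theorem measurable_Phi : Measurable Phi := by
  unfold Phi
  have h : (fun z : ℂ => -Complex.I * Complex.tan (π * z / 2)) = fun z => -Complex.I * (Complex.sin (π * z / 2) / Complex.cos (π * z / 2)) := by
    funext z
    rw [Complex.tan_eq_sin_div_cos]
  rw [h]
  have h1 : Continuous (fun z : ℂ => Complex.sin (π * z / 2)) := by fun_prop
  have h2 : Continuous (fun z : ℂ => Complex.cos (π * z / 2)) := by fun_prop
  exact (h1.measurable.div h2.measurable).const_mul _

/-- the algebra of section 1 -/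
theorem VC_eq {w C C' om : ℂ} (hw : |w.re| ≤ 3 / 4) :
    Complex.exp (Complex.I * π * w) * C - om * C' =
      (1 + Complex.exp (Complex.I * π * w)) * ((C - om * C') - Phi w * (C + om * C')) / 2 := by
  have h := Phi_eq hw
  linear_combination (C + om * C') / 2 * h

end Pool.Agent.H92.RG
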