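/-
MP_103a5c_AH, S1: the mean square of `Q - Φ(w) A`.
-/
import Mathlib
import Pool.Agent.H92.RG.S1a

set_option autoImplicit false

open MeasureTheory Set Filter Topology
open scoped Real ContDiff ComplexConjugate

namespace Pool.Agent.H92.RG

open Pool.Agent Pool.Agent.H6 Pool.Agent.H14.GP Pool.Agent.H24.HF Pool.Agent.H67.HF Pool.Agent.H68.AH Pool.Agent.H24.AH
  Pool.Agent.H98.GP Pool.Agent.H5.AH

/-- `w(t) = n(t) - 1/2` -/
noncomputable def wf (χ : ℝ → ℝ) (δ D T t : ℝ) : ℂ := (δ : ℂ) - 2 * PP1 χ δ D T t - 1 / 2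

/-- `C(t + a/L)` -/
noncomputable def Ca (M : ℕ) (G : ℕ → ℝ → ℝ) (θ a T t : ℝ) : ℂ := CT M (cG θ G) T (t + a / Real.log T)

theorem cont_wf (χ : ℝ → ℝ) (δ D T : ℝ) : Continuous (wf χ δ D T) := by
  unfold wf
  have := Pool.Agent.H68.HF.continuous_PP1 χ δ D T
  fun_prop

theorem cont_Ca (M : ℕ) (G : ℕ → ℝ → ℝ) (θ a T : ℝ) : Continuous (Ca M G θ a T) := cont_CT M _ T _

theorem EC_lin4 {v : ℝ → ℝ} (hv : Wgt v) {T : ℝ} (hT : 0 < T) (c1 c2 c3 c4 : ℂ) {f1 f2 f3 f4 : ℝ → ℂ} (h1 : Continuous f1)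
    (h2 : Continuous f2) (h3 : Continuous f3) (h4 : Continuous f4) :
    EC v T (fun t => c1 * f1 t + c2 * f2 t + (c3 * f3 t + c4 * f4 t)) =
      c1 * EC v T f1 + c2 * EC v T f2 + (c3 * EC v T f3 + c4 * EC v T f4) := by
  have e1 := EC_lin2 hv hT c1 c2 h1 h2
  have e2 := EC_lin2 hv hT c3 c4 h3 h4
  have e3 := EC_lin2 hv hT 1 1 (f := fun t => c1 * f1 t + c2 * f2 t) (g := fun t => c3 * f3 t + c4 * f4 t)
    ((continuous_const.mul h1).add (continuous_const.mul h2)) ((continuous_const.mul h3).add (continuous_const.mul h4))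
  simp only [one_mul] at e3
  rw [e3, e1, e2]

section
variable {M : ℕ} {G : ℕ → ℝ → ℝ} {θ : ℝ}

theorem mean_XY {v : ℝ → ℝ} (hv : Wgt v) (hG : Cell0 M G) (hθ : 0 < θ) (hθ1 : θ < 1) {χ : ℝ → ℝ} {D δ : ℝ}
    (hW : Win2 χ D) (a : ℝ) (x1 x2 y1 y2 : ℂ) (m : ℕ) :
    Tendsto (fun T => ∫ t, wf χ δ D T t ^ m * ((x1 * Ca M G θ a T t + x2 * Ca M G θ (-a) T t) *
        conj (y1 * Ca M G θ a T t + y2 * Ca M G θ (-a) T t)) ∂(muT v T)) atTop
      (𝓝 (((∫ x, v x : ℝ) : ℂ) * LM M (kapS θ G χ δ a ^ m *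
          (PowerSeries.C (x1 * conj y1) * EXS θ G a a + PowerSeries.C (x2 * conj y1) * EXS θ G (-a) a)) +
        ((∫ x, v x : ℝ) : ℂ) * LM M (kapS θ G χ δ (-a) ^ m *
          (PowerSeries.C (x1 * conj y2) * EXS θ G a (-a) + PowerSeries.C (x2 * conj y2) * EXS θ G (-a) (-a))))) := by
  have h1 := ((mean_wC2 (δ := δ) hv hG hθ hθ1 hW a a m).const_mul (x1 * conj y1)).add
    ((mean_wC2 (δ := δ) hv hG hθ hθ1 hW (-a) a m).const_mul (x2 * conj y1))
  have h2 := ((mean_wC2 (δ := δ) hv hG hθ hθ1 hW a (-a) m).const_mul (x1 * conj y2)).add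
    ((mean_wC2 (δ := δ) hv hG hθ hθ1 hW (-a) (-a) m).const_mul (x2 * conj y2))
  have h3 := h1.add h2
  have hLM : ∀ (c : ℂ) (κ E : PowerSeries ℂ), LM M (κ * (PowerSeries.C c * E)) = c * LM M (κ * E) := by
    intro c κ E
    have e : κ * (PowerSeries.C c * E) = PowerSeries.C c * (κ * E) := by ring
    rw [e]
    unfold LM
    simp only [PowerSeries.coeff_C_mul]
    rw [Finset.mul_sum]
  have e1 : ∀ J : ℂ, x1 * conj y1 * (J * LM M (kapS θ G χ δ a ^ m * EXS θ G a a)) +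
      x2 * conj y1 * (J * LM M (kapS θ G χ δ a ^ m * EXS θ G (-a) a)) +
      (x1 * conj y2 * (J * LM M (kapS θ G χ δ (-a) ^ m * EXS θ G a (-a))) +
      x2 * conj y2 * (J * LM M (kapS θ G χ δ (-a) ^ m * EXS θ G (-a) (-a)))) =
      J * LM M (kapS θ G χ δ a ^ m *
          (PowerSeries.C (x1 * conj y1) * EXS θ G a a + PowerSeries.C (x2 * conj y1) * EXS θ G (-a) a)) +
        J * LM M (kapS θ G χ δ (-a) ^ m *
          (PowerSeries.C (x1 * conj y2) * EXS θ G a (-a) + PowerSeries.C (x2 * conj y2) * EXS θ G (-a) (-a))) := by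
    intro J
    rw [mul_add (kapS θ G χ δ a ^ m), mul_add (kapS θ G χ δ (-a) ^ m), LM_add, LM_add, hLM, hLM, hLM, hLM]
    ring
  rw [e1] at h3
  refine h3.congr' ?_
  filter_upwards [eventually_gt_atTop (0 : ℝ)] with T hT
  rw [muT_EC hv hT]
  have cw : Continuous (fun t => ((δ : ℂ) - 2 * PP1 χ δ D T t - 1 / 2) ^ m) := (cont_wf χ δ D T).pow m
  have cc : ∀ c : ℝ, Continuous (fun t => CT M (cG θ G) T (t + c / Real.log T)) := fun c => cont_CT M _ T _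
  have cf : ∀ c c' : ℝ, Continuous (fun t => ((δ : ℂ) - 2 * PP1 χ δ D T t - 1 / 2) ^ m *
        CT M (cG θ G) T (t + c / Real.log T) * conj (CT M (cG θ G) T (t + c' / Real.log T))) := fun c c' =>
    (cw.mul (cc c)).mul (Complex.continuous_conj.comp (cc c'))
  rw [← EC_lin4 hv hT _ _ _ _ (cf a a) (cf (-a) a) (cf a (-a)) (cf (-a) (-a))]
  congr 1
  funext t
  unfold wf Ca
  rw [map_add, map_mul, map_mul]
  ring

theorem norm_sq_mul_conj (z : ℂ) : ((‖z‖ ^ 2 : ℝ) : ℂ) = z * conj z := by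
  rw [Complex.mul_conj, Complex.normSq_eq_norm_sq]

end

end Pool.Agent.H92.RG
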