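/-
MP_103a5c_AH, S1: Markov's inequality for `Q - Φ(w) A`.
-/
import Mathlib
import Pool.Agent.H92.RG.S1b

set_option autoImplicit false

open MeasureTheory Set Filter Topology
open scoped Real ContDiff ComplexConjugate

namespace Pool.Agent.H92.RG

open Pool.Agent Pool.Agent.H6 Pool.Agent.H14.GP Pool.Agent.H24.HF Pool.Agent.H67.HF Pool.Agent.H68.AH Pool.Agent.H24.AH
  Pool.Agent.H98.GP Pool.Agent.H5.AH

/-- the phase -/
noncomputable def om (δ : ℝ) : ℂ := Complex.exp (Complex.I * π * ((δ : ℂ) - 1 / 2))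

theorem norm_om (δ : ℝ) : ‖om δ‖ = 1 := by
  unfold om
  have e : Complex.I * π * ((δ : ℂ) - 1 / 2) = ((π * (δ - 1 / 2) : ℝ) : ℂ) * Complex.I := by push_cast; ring
  rw [e, Complex.norm_exp_ofReal_mul_I]

theorem om_conj (δ : ℝ) : om δ * conj (om δ) = 1 := by
  rw [Complex.mul_conj, Complex.normSq_eq_norm_sq, norm_om]
  norm_num

/-- the bound of block FIN for given parameters -/
def FinAt (χ : ℝ → ℝ) (M : ℕ) (G : ℕ → ℝ → ℝ) (θ δ ε₀ B : ℝ) : Prop :=
  ∀ p : Polynomial ℂ, (∀ z : ℂ, |z.re| ≤ 3 / 4 → ‖p.eval z - Complex.tan (π * z / 2)‖ ≤ ε₀ * Real.exp (π / 2 * |z.im|)) →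
    4 * (M : ℝ) - 2 * (LM M (Polynomial.aeval (kapS θ G χ δ (π * δ)) (Polynomial.C (-Complex.I) * p) *
        (EXS θ G (π * δ) (π * δ) + PowerSeries.C (om δ) * EXS θ G (-(π * δ)) (π * δ))) -
      conj (om δ) * LM M (Polynomial.aeval (kapS θ G χ δ (-(π * δ))) (Polynomial.C (-Complex.I) * p) *
        (EXS θ G (π * δ) (-(π * δ)) + PowerSeries.C (om δ) * EXS θ G (-(π * δ)) (-(π * δ))))).re ≤ B

section
variable {M : ℕ} {G : ℕ → ℝ → ℝ} {θ : ℝ}

theorem LM_C (M : ℕ) (c : ℂ) (κ E : PowerSeries ℂ) : LM M (κ * (PowerSeries.C c * E)) = c * LM M (κ * E) := by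
  have e : κ * (PowerSeries.C c * E) = PowerSeries.C c * (κ * E) := by ring
  rw [e]
  unfold LM
  simp only [PowerSeries.coeff_C_mul]
  rw [Finset.mul_sum]

/-- the error term -/
noncomputable def Fe (χ : ℝ → ℝ) (M : ℕ) (G : ℕ → ℝ → ℝ) (θ δ D T t : ℝ) : ℂ :=
  (1 * Ca M G θ (π * δ) T t + -om δ * Ca M G θ (-(π * δ)) T t) -
    Phi (wf χ δ D T t) * (1 * Ca M G θ (π * δ) T t + om δ * Ca M G θ (-(π * δ)) T t)

theorem meas_Fe (χ : ℝ → ℝ) (M : ℕ) (G : ℕ → ℝ → ℝ) (θ δ D T : ℝ) : Measurable (Fe χ M G θ δ D T) := by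
  unfold Fe
  have h1 := (cont_Ca M G θ (π * δ) T).measurable
  have h2 := (cont_Ca M G θ (-(π * δ)) T).measurable
  have h3 := measurable_Phi.comp (cont_wf χ δ D T).measurable
  exact ((h1.const_mul 1).add (h2.const_mul _)).sub (h3.mul ((h1.const_mul 1).add (h2.const_mul _)))

theorem S1_core (RH : RiemannHypothesis) {χ₁ : ℝ → ℝ} (hχ : Win2 χ₁ 1) (hG : Cell0 M G) (hθ : 0 < θ) (hθ1 : θ < 1) {δ D : ℝ}
    (hδ : 0 < δ) (hδ2 : δ < 1 / 2) (hD : 1 ≤ D) {ε₀ B : ℝ} (hε₀ : 0 < ε₀) (hB : 0 ≤ B) (hfin : FinAt (win χ₁ D) M G θ δ ε₀ B)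
    {FF : Filter ℝ} (hF : Hyp FF) {α β : ℝ} (hα : 0 < α) (hαβ : α < β) (hβ : β < 1) :
    ∃ η : ℝ, 0 < η ∧ η ≤ 1 / 4 ∧ ∀ Λ : ℝ, 0 < Λ → Rare FF α β ((B + 1) / Λ ^ 2)
      (fun T => {t | |(wf (win χ₁ D) δ D T t).re| ≤ 1 / 2 + η ∧ Λ ≤ ‖Fe (win χ₁ D) M G θ δ D T t‖}) := by
  obtain ⟨v, a₁, b₁, hv, ha₁, hab₁, hb₁, hsupp, hv1, hvge, hI0, hI1⟩ := exists_wgt hα hαβ hβ
  set χ := win χ₁ D with hχdef
  have hW : Win2 χ D := win2_dil hχ hD
  set a := π * δ with ha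
  set J : ℂ := ((∫ x, v x : ℝ) : ℂ) with hJ
  set w : ℝ → ℝ → ℂ := wf χ δ D with hw
  set A : ℝ → ℝ → ℂ := fun T t => 1 * Ca M G θ a T t + om δ * Ca M G θ (-a) T t with hA
  set Q : ℝ → ℝ → ℂ := fun T t => 1 * Ca M G θ a T t + -om δ * Ca M G θ (-a) T t with hQ
  set μ := muT v with hμ
  set S := Sf M G θ χ δ D a (-a) with hS'
  have hS : MomS FF μ S := momS_Sf RH hF.le hv hG hθ hθ1 hW hδ a (-a)
  have hT0 : ∀ᶠ T : ℝ in FF, 0 < T := hF.le (eventually_gt_atTop 0)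
  have hSle : ∀ T t, ‖Ca M G θ a T t‖ ≤ S T t ∧ ‖Ca M G θ (-a) T t‖ ≤ S T t ∧ ‖PP1 χ δ D T t‖ ≤ S T t ∧ 1 ≤ S T t := by
    intro T t
    have e1 : 0 ≤ ‖Ca M G θ a T t‖ := norm_nonneg _
    have e2 : 0 ≤ ‖Ca M G θ (-a) T t‖ := norm_nonneg _
    have e3 : 0 ≤ ‖PP1 χ δ D T t‖ := norm_nonneg _
    have e4 : S T t = 1 + (‖PP1 χ δ D T t‖ + (‖Ca M G θ a T t‖ + ‖Ca M G θ (-a) T t‖)) := rfl
    refine ⟨?_, ?_, ?_, ?_⟩ <;> linarith
  have hdw : Dom FF μ S w := by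
    refine ⟨1, 3, by norm_num, ?_⟩
    filter_upwards [hT0] with T hT
    refine ⟨(cont_wf χ δ D T).aestronglyMeasurable, fun t => ?_⟩
    obtain ⟨-, -, h1, h2⟩ := hSle T t
    have h3 : ‖w T t‖ ≤ ‖(δ : ℂ) - 1 / 2‖ + 2 * ‖PP1 χ δ D T t‖ := by
      have e : w T t = ((δ : ℂ) - 1 / 2) - 2 * PP1 χ δ D T t := by
        rw [hw]; unfold wf; ring
      rw [e]
      refine (norm_sub_le _ _).trans (le_of_eq ?_)
      rw [norm_mul, Complex.norm_two]
    have h4 : ‖(δ : ℂ) - 1 / 2‖ ≤ 1 := by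
      have e : (δ : ℂ) - 1 / 2 = ((δ - 1 / 2 : ℝ) : ℂ) := by push_cast; ring
      rw [e, Complex.norm_real, Real.norm_eq_abs, abs_le]
      constructor <;> linarith
    rw [pow_one]
    linarith
  have hdA : ∀ c : ℂ, ‖c‖ = 1 → Dom FF μ S (fun T t => 1 * Ca M G θ a T t + c * Ca M G θ (-a) T t) := by
    intro c hc
    refine ⟨1, 2, by norm_num, ?_⟩
    filter_upwards [hT0] with T hT
    refine ⟨((continuous_const.mul (cont_Ca M G θ a T)).add (continuous_const.mul (cont_Ca M G θ (-a) T))).aestronglyMeasurable, fun t => ?_⟩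
    obtain ⟨h1, h2, -, -⟩ := hSle T t
    refine (norm_add_le _ _).trans ?_
    rw [norm_mul, norm_mul, hc, norm_one, one_mul, one_mul, pow_one]
    linarith
  have hom : ‖om δ‖ = 1 := norm_om δ
  have hDA : Dom FF μ S A := hdA (om δ) hom
  have hDQ : Dom FF μ S Q := hdA (-om δ) (by rw [norm_neg, hom])
  -- the strip
  have hst : ∀ η : ℝ, 0 < η → Tendsto (fun T => (μ T).real {t | 1 / 2 + η < |(w T t).re|}) FF (𝓝 0) := by
    intro η hη
    rw [tendsto_order]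
    constructor
    · intro c hc
      exact Eventually.of_forall fun T => lt_of_lt_of_le hc measureReal_nonneg
    · intro c hc
      have h1 := rare_strip RH hχ hδ hδ2 hD hF ha₁ hab₁ hb₁ hη (q := c / 2) (by positivity)
      filter_upwards [h1, hT0] with T h2 hT
      have hms : MeasurableSet {t | 1 / 2 + η < |(w T t).re|} :=
        measurableSet_lt measurable_const ((continuous_abs.comp (Complex.continuous_re.comp (cont_wf χ δ D T))).measurable)
      have h3 := muT_le hv hsupp hv1 hT hms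
      have h4 : {t | 1 / 2 + η < |(w T t).re|} = {t | 1 / 2 + η < |(nD χ₁ δ D T t).re - 1 / 2|} := by
        ext t
        show 1 / 2 + η < |(w T t).re| ↔ 1 / 2 + η < |(nD χ₁ δ D T t).re - 1 / 2|
        have e : (w T t).re = (nD χ₁ δ D T t).re - 1 / 2 := by
          have e1 : w T t = nD χ₁ δ D T t - 1 / 2 := rfl
          rw [e1, Complex.sub_re]
          norm_num
        rw [e]
      rw [h4] at h3 ⊢
      calc (μ T).real {t | 1 / 2 + η < |(nD χ₁ δ D T t).re - 1 / 2|} ≤ 1 / T * (c / 2 * T) :=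
            h3.trans (mul_le_mul_of_nonneg_left h2 (by positivity))
        _ = c / 2 := by field_simp
        _ < c := by linarith
  -- the means
  have hmean := fun (x2 y2 : ℂ) (m : ℕ) => (mean_XY (δ := δ) hv hG hθ hθ1 hW a 1 x2 1 y2 m).mono_left hF.le
  have hma := hmean (om δ) (om δ)
  have hmb := hmean (-om δ) (-om δ)
  have hmc := hmean (om δ) (-om δ)
  set Ep : ℂ → ℂ → PowerSeries ℂ := fun x2 _ => PowerSeries.C (1 * conj (1 : ℂ)) * EXS θ G a a + PowerSeries.C (x2 * conj (1 : ℂ)) * EXS θ G (-a) a with hEp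
  set Em : ℂ → ℂ → PowerSeries ℂ := fun x2 y2 => PowerSeries.C (1 * conj y2) * EXS θ G a (-a) + PowerSeries.C (x2 * conj y2) * EXS θ G (-a) (-a) with hEm
  set κp := kapS θ G χ δ a with hκp
  set κm := kapS θ G χ δ (-a) with hκm
  set lim : ℂ → ℂ → ℕ → ℂ := fun x2 y2 m => J * LM M (κp ^ m * Ep x2 y2) + J * LM M (κm ^ m * Em x2 y2) with hlim
  have ha' : ∀ m, Tendsto (fun T => ∫ t, w T t ^ m * ((‖A T t‖ ^ 2 : ℝ) : ℂ) ∂(μ T)) FF (𝓝 (lim (om δ) (om δ) m)) := by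
    intro m
    simp only [norm_sq_mul_conj]
    exact hma m
  have hb' : ∀ m, Tendsto (fun T => ∫ t, w T t ^ m * ((‖Q T t‖ ^ 2 : ℝ) : ℂ) ∂(μ T)) FF (𝓝 (lim (-om δ) (-om δ) m)) := by
    intro m
    simp only [norm_sq_mul_conj]
    exact hmb m
  have hc' : ∀ m, Tendsto (fun T => ∫ t, w T t ^ m * (A T t * conj (Q T t)) ∂(μ T)) FF (𝓝 (lim (om δ) (-om δ) m)) := hmc
  have hJn : ‖J‖ ≤ 1 := by
    rw [hJ, Complex.norm_real, Real.norm_eq_abs, abs_of_nonneg hI0]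
    exact hI1
  have hgr : ∀ x2 y2 : ℂ, ∃ D' : ℝ, 0 ≤ D' ∧ ∀ k, ‖lim x2 y2 (2 * k)‖ ≤ D' * (2 * k).factorial * (25 / 64) ^ k := by
    intro x2 y2
    refine ⟨NM M (Ep x2 y2) * Real.exp (8 / 5 * NM M κp) + NM M (Em x2 y2) * Real.exp (8 / 5 * NM M κm), ?_, fun k => ?_⟩
    · have h1 := NM_nonneg M (Ep x2 y2)
      have h2 := NM_nonneg M (Em x2 y2)
      positivity
    · have h1 := growth M κp (Ep x2 y2) k
      have h2 := growth M κm (Em x2 y2) k
      rw [hlim]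
      refine (norm_add_le _ _).trans ?_
      rw [norm_mul, norm_mul]
      have h3 : ‖J‖ * ‖LM M (κp ^ (2 * k) * Ep x2 y2)‖ ≤ 1 * ‖LM M (κp ^ (2 * k) * Ep x2 y2)‖ := mul_le_mul_of_nonneg_right hJn (norm_nonneg _)
      have h4 : ‖J‖ * ‖LM M (κm ^ (2 * k) * Em x2 y2)‖ ≤ 1 * ‖LM M (κm ^ (2 * k) * Em x2 y2)‖ := mul_le_mul_of_nonneg_right hJn (norm_nonneg _)
      linarith
  obtain ⟨D1, hD10, hD1⟩ := hgr (om δ) (om δ)
  obtain ⟨D2, hD20, hD2⟩ := hgr (-om δ) (-om δ)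
  set DD := D1 + D2 with hDD
  have hDD0 : 0 ≤ DD := by positivity
  have hga : ∀ k, ‖lim (om δ) (om δ) (2 * k)‖ ≤ DD * (2 * k).factorial * (25 / 64) ^ k := by
    intro k
    refine (hD1 k).trans ?_
    have : 0 ≤ D2 * (2 * k).factorial * (25 / 64 : ℝ) ^ k := by positivity
    rw [hDD, add_mul, add_mul]
    linarith
  have hgb : ∀ k, ‖lim (-om δ) (-om δ) (2 * k)‖ ≤ DD * (2 * k).factorial * (25 / 64) ^ k := by
    intro k
    refine (hD2 k).trans ?_
    have : 0 ≤ D1 * (2 * k).factorial * (25 / 64 : ℝ) ^ k := by positivity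
    rw [hDD, add_mul, add_mul]
    linarith
  -- the polynomial
  set ε : ℝ := min ε₀ (1 / (4800 * DD + 1)) with hε
  have hε0 : 0 < ε := lt_min hε₀ (by positivity)
  obtain ⟨r, hr⟩ := tan_apx ε hε0
  have hp : ∀ z : ℂ, |z.re| ≤ 3 / 4 → ‖(Polynomial.C (-Complex.I) * r).eval z - Phi z‖ ≤ ε * Real.exp (Real.pi / 2 * |z.im|) := by
    intro z hz
    have e : (Polynomial.C (-Complex.I) * r).eval z - Phi z = -Complex.I * (r.eval z - Complex.tan (π * z / 2)) := by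
      rw [Polynomial.eval_mul, Polynomial.eval_C]
      unfold Phi
      ring
    rw [e, norm_mul, norm_neg, Complex.norm_I, one_mul]
    exact hr z hz
  have hfr := hfin r (fun z hz => (hr z hz).trans (mul_le_mul_of_nonneg_right (min_le_left _ _) (Real.exp_pos _).le))
  -- the choice of η
  set η : ℝ := min (1 / 4) (1 / (104 * (|(lim (om δ) (om δ) 0).re| + 1))) with hη
  have hη0 : 0 < η := lt_min (by norm_num) (by positivity)
  have hη4 : η ≤ 1 / 4 := min_le_left _ _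
  have hη2 : 26 * η * |(lim (om δ) (om δ) 0).re| ≤ 1 / 4 := by
    have h1 : η ≤ 1 / (104 * (|(lim (om δ) (om δ) 0).re| + 1)) := min_le_right _ _
    rw [le_div_iff₀ (by positivity)] at h1
    nlinarith [abs_nonneg (lim (om δ) (om δ) 0).re]
  have hcon := contraction hS hdw hDA hDQ hst ha' hb' hc' hDD0 hga hgb hε0.le hp hη0 hη4 (ε' := 1 / 4) (by norm_num)
  -- the value
  have hsum : (Polynomial.C (-Complex.I) * r).sum (fun m x => x * lim (om δ) (-om δ) m) =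
      J * LM M (Polynomial.aeval κp (Polynomial.C (-Complex.I) * r) * Ep (om δ) (-om δ)) +
      J * LM M (Polynomial.aeval κm (Polynomial.C (-Complex.I) * r) * Em (om δ) (-om δ)) := by
    rw [← sum_LM, ← sum_LM]
    unfold Polynomial.sum
    rw [← Finset.sum_add_distrib]
    refine Finset.sum_congr rfl fun m _ => ?_
    rw [hlim]
    ring
  have hab : (lim (om δ) (om δ) 0).re + (lim (-om δ) (-om δ) 0).re = (∫ x, v x) * (4 * M) := by
    have h1 : lim (om δ) (om δ) 0 + lim (-om δ) (-om δ) 0 = J * (4 * M) := by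
      have e1 : ∀ x2 : ℂ, LM M (κp ^ 0 * Ep x2 x2) = LM M (1 * EXS θ G a a) + x2 * LM M (1 * EXS θ G (-a) a) := by
        intro x2
        rw [pow_zero, hEp]
        simp only
        rw [mul_add, LM_add, LM_C, LM_C, map_one, mul_one, mul_one, one_mul]
      have e2 : ∀ x2 : ℂ, x2 * conj x2 = 1 → LM M (κm ^ 0 * Em x2 x2) = conj x2 * LM M (1 * EXS θ G a (-a)) + LM M (1 * EXS θ G (-a) (-a)) := by
        intro x2 hx
        rw [pow_zero, hEm]
        simp only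
        rw [mul_add, LM_add, LM_C, LM_C, hx]
        simp only [one_mul]
      have h2 := om_conj δ
      rw [hlim]
      simp only
      rw [e1, e1, e2 _ h2, e2 _ (by rw [map_neg]; linear_combination h2), one_mul, one_mul, one_mul, one_mul,
        LM_diag hG hθ hθ1, LM_diag hG hθ hθ1, map_neg]
      ring
    have h2 := congrArg Complex.re h1
    rw [Complex.add_re, hJ, Complex.re_ofReal_mul] at h2
    have e3 : ((4 : ℂ) * (M : ℂ)).re = 4 * M := by
      have : ((4 : ℂ) * (M : ℂ)) = ((4 * M : ℝ) : ℂ) := by push_cast; rfl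
      rw [this, Complex.ofReal_re]
    rw [e3] at h2
    exact h2
  have hre : ((Polynomial.C (-Complex.I) * r).sum (fun m x => x * lim (om δ) (-om δ) m)).re = (∫ x, v x) *
      (LM M (Polynomial.aeval (kapS θ G χ δ (π * δ)) (Polynomial.C (-Complex.I) * r) *
        (EXS θ G (π * δ) (π * δ) + PowerSeries.C (om δ) * EXS θ G (-(π * δ)) (π * δ))) -
      conj (om δ) * LM M (Polynomial.aeval (kapS θ G χ δ (-(π * δ))) (Polynomial.C (-Complex.I) * r) *
        (EXS θ G (π * δ) (-(π * δ)) + PowerSeries.C (om δ) * EXS θ G (-(π * δ)) (-(π * δ))))).re := by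
    rw [hsum]
    have e1 : Ep (om δ) (-om δ) = EXS θ G (π * δ) (π * δ) + PowerSeries.C (om δ) * EXS θ G (-(π * δ)) (π * δ) := by
      rw [hEp]
      simp only
      rw [map_one, mul_one, mul_one, map_one, one_mul]
    have e2 : Em (om δ) (-om δ) = PowerSeries.C (-conj (om δ)) *
        (EXS θ G (π * δ) (-(π * δ)) + PowerSeries.C (om δ) * EXS θ G (-(π * δ)) (-(π * δ))) := by
      rw [hEm]
      simp only
      rw [map_neg, one_mul, mul_neg, mul_add, ← mul_assoc, ← map_mul, neg_mul, mul_comm (conj (om δ)) (om δ)]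
    rw [e1, e2, LM_C, ← mul_add, hJ, Complex.re_ofReal_mul]
    congr 2
    ring
  have hfinal : ∀ᶠ T in FF, ∫ t in {t | |(w T t).re| ≤ 1 / 2 + η}, ‖Q T t - Phi (w T t) * A T t‖ ^ 2 ∂(μ T) ≤ B + 1 := by
    filter_upwards [hcon] with T h1
    refine h1.trans ?_
    rw [hre]
    have h2 := mul_le_mul_of_nonneg_left hfr hI0
    have h3 : 1200 * DD * ε ≤ 1 / 4 := by
      have h4 : ε ≤ 1 / (4800 * DD + 1) := min_le_right _ _
      rw [le_div_iff₀ (by positivity)] at h4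
      nlinarith
    have h5 : 26 * η * (lim (om δ) (om δ) 0).re ≤ 1 / 4 :=
      (mul_le_mul_of_nonneg_left (le_abs_self _) (by positivity)).trans hη2
    have h6 : (∫ x, v x) * B ≤ B := mul_le_of_le_one_left hB hI1
    nlinarith
  refine ⟨η, hη0, hη4, fun Λ hΛ => ?_⟩
  filter_upwards [hfinal, hT0, hdw.integrable hS, (hDA.norm.pow 2).integrable hS, (hDQ.norm.pow 2).integrable hS] with T h1 hT iw iA iQ
  have := muT_fin hv hT
  set Gs : Set ℝ := {t | |(w T t).re| ≤ 1 / 2 + η} with hGs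
  have hGm : MeasurableSet Gs :=
    measurableSet_le ((continuous_abs.comp (Complex.continuous_re.comp (cont_wf χ δ D T))).measurable) measurable_const
  have hFm := meas_Fe χ M G θ δ D T
  set N : Set ℝ := {t | |(w T t).re| ≤ 1 / 2 + η ∧ Λ ≤ ‖Fe χ M G θ δ D T t‖} with hN
  have hNm : MeasurableSet N := hGm.inter (measurableSet_le measurable_const hFm.norm)
  have iF : Integrable (fun t => ‖Fe χ M G θ δ D T t‖ ^ 2) ((μ T).restrict Gs) := by
    have ib : Integrable (fun t => 2 * ‖Q T t‖ ^ 2 + 18 * ‖A T t‖ ^ 2) ((μ T).restrict Gs) :=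
      ((iQ.const_mul 2).add (iA.const_mul 18)).mono_measure Measure.restrict_le_self
    refine ib.mono' ((hFm.norm.pow_const 2).aestronglyMeasurable) ?_
    filter_upwards [ae_restrict_mem hGm] with t ht
    rw [Real.norm_eq_abs, abs_of_nonneg (by positivity)]
    have h2 := norm_Phi hη0.le hη4 (show |(w T t).re| ≤ 1 / 2 + η from ht)
    have h3 : ‖Fe χ M G θ δ D T t‖ ≤ ‖Q T t‖ + ‖Phi (w T t)‖ * ‖A T t‖ := by
      have e : Fe χ M G θ δ D T t = Q T t - Phi (w T t) * A T t := rfl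
      rw [e]
      refine (norm_sub_le _ _).trans ?_
      rw [norm_mul]
    have h4 : ‖Phi (w T t)‖ ^ 2 ≤ 9 := h2.trans (by linarith)
    have h5 : (‖Phi (w T t)‖ * ‖A T t‖) ^ 2 ≤ 9 * ‖A T t‖ ^ 2 := by
      rw [mul_pow]
      exact mul_le_mul_of_nonneg_right h4 (by positivity)
    have h6 := pow_le_pow_left₀ (norm_nonneg _) h3 2
    have h7 : (‖Q T t‖ + ‖Phi (w T t)‖ * ‖A T t‖) ^ 2 ≤ 2 * ‖Q T t‖ ^ 2 + 2 * (‖Phi (w T t)‖ * ‖A T t‖) ^ 2 := by
      nlinarith [sq_nonneg (‖Q T t‖ - ‖Phi (w T t)‖ * ‖A T t‖)]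
    linarith
  have h2 := mul_meas_ge_le_integral_of_nonneg (Eventually.of_forall fun t => by positivity) iF (Λ ^ 2)
  have h3 : ((μ T).restrict Gs).real {t | Λ ^ 2 ≤ ‖Fe χ M G θ δ D T t‖ ^ 2} = (μ T).real N := by
    rw [measureReal_restrict_apply (measurableSet_le measurable_const (hFm.norm.pow_const 2))]
    congr 1
    ext t
    show (Λ ^ 2 ≤ ‖Fe χ M G θ δ D T t‖ ^ 2 ∧ t ∈ Gs) ↔ (|(w T t).re| ≤ 1 / 2 + η ∧ Λ ≤ ‖Fe χ M G θ δ D T t‖)
    rw [pow_le_pow_iff_left₀ hΛ.le (norm_nonneg _) (by norm_num)]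
    exact and_comm
  rw [h3] at h2
  have h4 : Λ ^ 2 * (μ T).real N ≤ B + 1 := h2.trans h1
  have h5 := muT_ge hv hvge hT (hNm.inter measurableSet_Icc) (inter_subset_right : N ∩ Icc (α * T) (β * T) ⊆ Icc (α * T) (β * T))
  have h6 : (μ T).real (N ∩ Icc (α * T) (β * T)) ≤ (μ T).real N := measureReal_mono inter_subset_left
  have h7 : (μ T).real N ≤ (B + 1) / Λ ^ 2 := by
    rw [le_div_iff₀ (by positivity)]
    linarith
  calc volume.real (N ∩ Icc (α * T) (β * T)) ≤ T * (μ T).real (N ∩ Icc (α * T) (β * T)) := h5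
    _ ≤ T * ((B + 1) / Λ ^ 2) := mul_le_mul_of_nonneg_left (h6.trans h7) hT.le
    _ = (B + 1) / Λ ^ 2 * T := mul_comm _ _

end

end Pool.Agent.H92.RG
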