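/-
MP_103a5c_AH: the statement S1 from FIN.
-/
import Mathlib
import Pool.Agent.H92.RG.S1c
import Pool.Agent.H68.AH.St

set_option autoImplicit false

open MeasureTheory Set Filter Topology
open scoped Real ContDiff ComplexConjugate

namespace Pool.Agent.H92.RG

open Pool.Agent Pool.Agent.H6 Pool.Agent.H14.GP Pool.Agent.H24.HF Pool.Agent.H67.HF Pool.Agent.H68.AH Pool.Agent.H24.AH
  Pool.Agent.H98.GP Pool.Agent.H5.AH

/-- block FIN (helper29) -/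
def FINP (χ₁ : ℝ → ℝ) : Prop := ∃ (C₀ : ℝ) (M₀ : ℕ), 0 < C₀ ∧ ∀ (M : ℕ) (G : ℕ → ℝ → ℝ), M₀ ≤ M → Cell0 M G → ∀ θ δ D : ℝ,
  1 - 1 / (2 * (M : ℝ)) ≤ θ → θ < 1 → 1 / 2 - 1 / (4 * (M : ℝ)) ≤ δ → δ < 1 / 2 → 1 ≤ D →
  (∀ x : ℝ, 0 < x → x < 1 → |win χ₁ D x - 1| ≤ 1 / M) →
  ∃ ε₀ : ℝ, 0 < ε₀ ∧ FinAt (win χ₁ D) M G θ δ ε₀ (C₀ * Real.log M)

theorem om_sub_one (δ : ℝ) : ‖om δ - 1‖ ≤ π * |δ - 1 / 2| := by
  unfold om
  have e : Complex.I * π * ((δ : ℂ) - 1 / 2) = Complex.I * ((π * (δ - 1 / 2) : ℝ) : ℂ) := by push_cast; ring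
  rw [e]
  refine (Real.norm_exp_I_mul_ofReal_sub_one_le).trans (le_of_eq ?_)
  rw [Real.norm_eq_abs, abs_mul, abs_of_pos Real.pi_pos]

section
variable {M : ℕ} {G : ℕ → ℝ → ℝ} {θ : ℝ}

/-- `E |C|² → M`, hence `|C(t + a/L)| ≥ Λ` is rare -/
theorem rare_C {χ₀ : ℝ → ℝ} (hχ₀ : Win2 χ₀ 1) (hG : Cell0 M G) (hθ : 0 < θ) (hθ1 : θ < 1) {FF : Filter ℝ} (hFF : FF ≤ atTop) {α β : ℝ}
    (hα : 0 < α) (hαβ : α < β) (hβ : β < 1) (a : ℝ) {Λ : ℝ} (hΛ : 0 < Λ) :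
    Rare FF α β ((M + 1) / Λ ^ 2) (fun T => {t | Λ ≤ ‖Ca M G θ a T t‖}) := by
  obtain ⟨v, a₁, b₁, hv, ha₁, hab₁, hb₁, hsupp, hv1, hvge, hI0, hI1⟩ := exists_wgt hα hαβ hβ
  have h1 := mean_wC2 (δ := 1 / 4) hv hG hθ hθ1 hχ₀ a a 0
  rw [pow_zero, one_mul, LM_diag hG hθ hθ1] at h1
  have h2 := ((Complex.continuous_re.tendsto _).comp h1).eventually_lt_const (show ((∫ x, v x : ℝ) * (M : ℂ) : ℂ).re < M + 1 by
    rw [Complex.re_ofReal_mul, Complex.natCast_re]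
    have hM : (0 : ℝ) ≤ M := Nat.cast_nonneg M
    nlinarith)
  filter_upwards [hFF h2, hFF (eventually_gt_atTop (0 : ℝ))] with T h3 hT
  have := muT_fin hv hT
  have hc := cont_Ca M G θ a T
  have e1 : (EC v T fun t => ((1 / 4 : ℝ) - 2 * PP1 χ₀ (1 / 4) 1 T t - 1 / 2) ^ 0 * CT M (cG θ G) T (t + a / Real.log T) *
      conj (CT M (cG θ G) T (t + a / Real.log T))) = ((∫ t, ‖Ca M G θ a T t‖ ^ 2 ∂(muT v T) : ℝ) : ℂ) := by
    rw [← muT_EC hv hT, ← integral_complex_ofReal]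
    refine integral_congr_ae (ae_of_all _ fun t => ?_)
    beta_reduce
    rw [norm_sq_mul_conj, pow_zero, one_mul]
    rfl
  rw [Function.comp_apply, e1, Complex.ofReal_re] at h3
  have hi : Integrable (fun t => ‖Ca M G θ a T t‖ ^ 2) (muT v T) := muT_intble hv hT (hc.norm.pow 2)
  have h4 := mul_meas_ge_le_integral_of_nonneg (f := fun t => ‖Ca M G θ a T t‖ ^ 2)
    (Eventually.of_forall fun t => sq_nonneg _) hi (Λ ^ 2)
  have h5 : {t | Λ ^ 2 ≤ ‖Ca M G θ a T t‖ ^ 2} = {t | Λ ≤ ‖Ca M G θ a T t‖} := by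
    ext t
    exact pow_le_pow_iff_left₀ hΛ.le (norm_nonneg _) (by norm_num)
  rw [h5] at h4
  have hNm : MeasurableSet {t | Λ ≤ ‖Ca M G θ a T t‖} := measurableSet_le measurable_const hc.norm.measurable
  have h6 := muT_ge hv hvge hT (hNm.inter measurableSet_Icc)
    (inter_subset_right : {t | Λ ≤ ‖Ca M G θ a T t‖} ∩ Icc (α * T) (β * T) ⊆ Icc (α * T) (β * T))
  have h7 : (muT v T).real ({t | Λ ≤ ‖Ca M G θ a T t‖} ∩ Icc (α * T) (β * T)) ≤ (muT v T).real {t | Λ ≤ ‖Ca M G θ a T t‖} :=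
    measureReal_mono inter_subset_left
  have h8 : (muT v T).real {t | Λ ≤ ‖Ca M G θ a T t‖} ≤ (M + 1) / Λ ^ 2 := by
    rw [le_div_iff₀ (by positivity)]
    have h9 : Λ ^ 2 * (muT v T).real {t | Λ ≤ ‖Ca M G θ a T t‖} ≤ M + 1 := h4.trans h3.le
    linarith
  calc volume.real ({t | Λ ≤ ‖Ca M G θ a T t‖} ∩ Icc (α * T) (β * T)) ≤
        T * (muT v T).real ({t | Λ ≤ ‖Ca M G θ a T t‖} ∩ Icc (α * T) (β * T)) := h6
    _ ≤ T * ((M + 1) / Λ ^ 2) := mul_le_mul_of_nonneg_left (h7.trans h8) hT.le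
    _ = (M + 1) / Λ ^ 2 * T := mul_comm _ _

theorem CT_sub (M : ℕ) (G : ℕ → ℝ → ℝ) (θ δ T t : ℝ) : CT M (cG θ G) T (t - π * δ / Real.log T) = Ca M G θ (-(π * δ)) T t := by
  unfold Ca
  congr 1
  rw [neg_div]
  ring

theorem VV_eq (χ₁ : ℝ → ℝ) (δ D T t : ℝ) : VV χ₁ δ D T t = Complex.exp (Complex.I * π * wf (win χ₁ D) δ D T t) := rfl

/-- the trivial bound, for bounded `M` -/
theorem S1_triv {χ₁ : ℝ → ℝ} (hχ : Win2 χ₁ 1) (hG : Cell0 M G) (hθ : 0 < θ) (hθ1 : θ < 1) (δ D : ℝ) {FF : Filter ℝ} (hFF : FF ≤ atTop)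
    {α β : ℝ} (hα : 0 < α) (hαβ : α < β) (hβ : β < 1) {Λ : ℝ} (hΛ : 0 < Λ) :
    Rare FF α β ((M + 1) / Λ ^ 2 + (M + 1) / Λ ^ 2) (fun T => {t | Λ * (1 + ‖VV χ₁ δ D T t‖) <
      ‖VV χ₁ δ D T t * CT M (cG θ G) T (t + π * δ / Real.log T) - CT M (cG θ G) T (t - π * δ / Real.log T)‖}) := by
  have h1 := rare_C hχ hG hθ hθ1 hFF hα hαβ hβ (π * δ) hΛ
  have h2 := rare_C hχ hG hθ hθ1 hFF hα hαβ hβ (-(π * δ)) hΛ
  refine rare_mono (rare_union h1 h2) (Eventually.of_forall fun T t _ ht => ?_)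
  have h3 : Λ * (1 + ‖VV χ₁ δ D T t‖) < ‖VV χ₁ δ D T t * Ca M G θ (π * δ) T t - Ca M G θ (-(π * δ)) T t‖ := by
    rw [← CT_sub]
    exact ht
  by_contra hn
  have h4 : ¬ (Λ ≤ ‖Ca M G θ (π * δ) T t‖) ∧ ¬ (Λ ≤ ‖Ca M G θ (-(π * δ)) T t‖) := by
    constructor
    · exact fun h => hn (Or.inl h)
    · exact fun h => hn (Or.inr h)
  have h5 := norm_sub_le (VV χ₁ δ D T t * Ca M G θ (π * δ) T t) (Ca M G θ (-(π * δ)) T t)
  rw [norm_mul] at h5
  have h6 := mul_le_mul_of_nonneg_left (not_le.1 h4.1).le (norm_nonneg (VV χ₁ δ D T t))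
  have h7 := (not_le.1 h4.2).le
  nlinarith

/-- **S1 from FIN** -/
theorem S1P_of (RH : RiemannHypothesis) {χ₁ : ℝ → ℝ} (hχ : Win2 χ₁ 1) (hfin : FINP χ₁) : S1P χ₁ := by
  obtain ⟨C₀, M₀, hC₀, hF⟩ := hfin
  have hlog : ∀ M : ℕ, 2 ≤ M → 1 ≤ Real.log (M + 1) := by
    intro M hM
    rw [Real.le_log_iff_exp_le (by positivity)]
    have h1 : (2 : ℝ) ≤ M := by exact_mod_cast hM
    have h2 := Real.exp_one_lt_d9
    linarith
  refine ⟨C₀ + 20 + 2 * (M₀ + 1), by positivity, fun M G hG => ?_⟩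
  have hM2 : (2 : ℝ) ≤ M := by exact_mod_cast hG.M_pos
  have hM0 : (0 : ℝ) < M := by linarith
  have hl := hlog M hG.M_pos
  by_cases hM : M < M₀
  · refine ⟨1 / 4, by norm_num, le_refl _, fun θ δ hθ hθ1 hδ hδ2 => ⟨1, le_refl _, fun D hD FF hFF α β hα hαβ hβ Λ hΛ => ?_⟩⟩
    have h1 := S1_triv (D := D) (δ := δ) hχ hG (by linarith : 0 < θ) hθ1 hFF.le hα hαβ hβ hΛ
    filter_upwards [h1, hFF.le (eventually_gt_atTop (0 : ℝ))] with T h2 hT
    refine h2.trans (mul_le_mul_of_nonneg_right ?_ hT.le)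
    rw [← add_div]
    apply div_le_div_of_nonneg_right _ (by positivity)
    have h3 : (M : ℝ) ≤ M₀ := by exact_mod_cast hM.le
    nlinarith
  · rw [not_lt] at hM
    have hcont : ContinuousAt χ₁ 0 := hχ.smooth.continuous.continuousAt
    obtain ⟨r, hr0, hr⟩ := Metric.continuousAt_iff.1 hcont (1 / M) (by positivity)
    refine ⟨1 / (4 * M), by positivity, ?_, fun θ δ hθ hθ1 hδ hδ2 => ⟨max 1 (2 / r), le_max_left _ _, fun D hD FF hFF α β hα hαβ hβ Λ hΛ => ?_⟩⟩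
    · exact one_div_le_one_div_of_le (by norm_num) (by linarith)
    have hD1 : 1 ≤ D := (le_max_left _ _).trans hD
    have hD0 : 0 < D := by linarith
    have hD2 : 2 / r ≤ D := (le_max_right _ _).trans hD
    have h4M : 1 / (4 * (M : ℝ)) ≤ 1 / 8 := one_div_le_one_div_of_le (by norm_num) (by linarith)
    have hθ0 : 0 < θ := by linarith
    have hδ0 : 0 < δ := by linarith
    have hwin : ∀ x : ℝ, 0 < x → x < 1 → |win χ₁ D x - 1| ≤ 1 / M := by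
      intro x hx hx1
      have h1 : dist (x / D) 0 < r := by
        rw [Real.dist_eq, sub_zero, abs_of_pos (by positivity), div_lt_iff₀ hD0]
        rw [div_le_iff₀ hr0] at hD2
        linarith
      have h2 := hr h1
      rw [Real.dist_eq, hχ.zero] at h2
      exact h2.le
    obtain ⟨ε₀, hε₀, hfa⟩ := hF M G hM hG θ δ D (by
      have : 1 / (4 * (M : ℝ)) ≤ 1 / (2 * M) := one_div_le_one_div_of_le (by positivity) (by linarith)
      linarith) hθ1 (by linarith) hδ2 hD1 hwin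
    have hB : 0 ≤ C₀ * Real.log M := mul_nonneg hC₀.le (Real.log_nonneg (by linarith))
    obtain ⟨η, hη0, hη4, hmain⟩ := S1_core RH hχ hG hθ0 hθ1 hδ0 hδ2 hD1 hε₀ hB hfa hFF hα hαβ hβ
    have h1 := hmain Λ hΛ
    have h2 := rare_strip RH hχ hδ0 hδ2 hD1 hFF hα hαβ hβ hη0 (q := 1 / Λ ^ 2) (by positivity)
    have h3 := rare_C hχ hG hθ0 hθ1 hFF.le hα hαβ hβ (-(π * δ)) (Λ := Λ / 2 * M) (by positivity)
    have h4 : Rare FF α β ((C₀ * Real.log M + 1) / Λ ^ 2 + (1 / Λ ^ 2 + (M + 1) / (Λ / 2 * M) ^ 2)) (fun T => {t | Λ * (1 + ‖VV χ₁ δ D T t‖) <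
        ‖VV χ₁ δ D T t * CT M (cG θ G) T (t + π * δ / Real.log T) - CT M (cG θ G) T (t - π * δ / Real.log T)‖}) := by
      refine rare_mono (rare_union h1 (rare_union h2 h3)) (Eventually.of_forall fun T t _ ht => ?_)
      have h5 : Λ * (1 + ‖VV χ₁ δ D T t‖) < ‖VV χ₁ δ D T t * Ca M G θ (π * δ) T t - Ca M G θ (-(π * δ)) T t‖ := by
        rw [← CT_sub]
        exact ht
      by_contra hn
      have hn1 : ¬ (|(wf (win χ₁ D) δ D T t).re| ≤ 1 / 2 + η ∧ Λ ≤ ‖Fe (win χ₁ D) M G θ δ D T t‖) := fun h => hn (Or.inl h)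
      have hn2 : ¬ (1 / 2 + η < |(nD χ₁ δ D T t).re - 1 / 2|) := fun h => hn (Or.inr (Or.inl h))
      have hn3 : ¬ (Λ / 2 * M ≤ ‖Ca M G θ (-(π * δ)) T t‖) := fun h => hn (Or.inr (Or.inr h))
      have ew : (wf (win χ₁ D) δ D T t).re = (nD χ₁ δ D T t).re - 1 / 2 := by
        have e1 : wf (win χ₁ D) δ D T t = nD χ₁ δ D T t - 1 / 2 := rfl
        rw [e1, Complex.sub_re]
        norm_num
      rw [← ew, not_lt] at hn2
      have h6 : ‖Fe (win χ₁ D) M G θ δ D T t‖ < Λ := not_le.1 fun h => hn1 ⟨hn2, h⟩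
      have h7 := VC_eq (C := Ca M G θ (π * δ) T t) (C' := Ca M G θ (-(π * δ)) T t) (om := om δ)
        (show |(wf (win χ₁ D) δ D T t).re| ≤ 3 / 4 by linarith)
      rw [← VV_eq] at h7
      have e2 : (Ca M G θ (π * δ) T t - om δ * Ca M G θ (-(π * δ)) T t) -
          Phi (wf (win χ₁ D) δ D T t) * (Ca M G θ (π * δ) T t + om δ * Ca M G θ (-(π * δ)) T t) = Fe (win χ₁ D) M G θ δ D T t := by
        unfold Fe
        ring
      rw [e2] at h7
      have h8 : VV χ₁ δ D T t * Ca M G θ (π * δ) T t - Ca M G θ (-(π * δ)) T t =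
          (1 + VV χ₁ δ D T t) * Fe (win χ₁ D) M G θ δ D T t / 2 + (om δ - 1) * Ca M G θ (-(π * δ)) T t := by
        linear_combination h7
      rw [h8] at h5
      have h9 : ‖(1 + VV χ₁ δ D T t) * Fe (win χ₁ D) M G θ δ D T t / 2‖ ≤ (1 + ‖VV χ₁ δ D T t‖) * Λ / 2 := by
        rw [norm_div, norm_mul, Complex.norm_two]
        apply div_le_div_of_nonneg_right _ (by norm_num)
        have h10 : ‖1 + VV χ₁ δ D T t‖ ≤ 1 + ‖VV χ₁ δ D T t‖ := by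
          refine (norm_add_le _ _).trans ?_
          rw [norm_one]
        exact mul_le_mul h10 h6.le (norm_nonneg _) (by positivity)
      have h11 : ‖(om δ - 1) * Ca M G θ (-(π * δ)) T t‖ ≤ Λ / 2 := by
        rw [norm_mul]
        have h12 : ‖om δ - 1‖ ≤ 1 / M := by
          refine (om_sub_one δ).trans ?_
          rw [abs_of_neg (by linarith)]
          have hpi := Real.pi_lt_d2
          have hpi0 := Real.pi_pos
          have h13 : -(δ - 1 / 2) ≤ 1 / (4 * M) := by linarith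
          calc π * -(δ - 1 / 2) ≤ 4 * (1 / (4 * M)) := mul_le_mul (by linarith) h13 (by linarith) (by norm_num)
            _ = 1 / M := by field_simp
        calc ‖om δ - 1‖ * ‖Ca M G θ (-(π * δ)) T t‖ ≤ 1 / M * (Λ / 2 * M) :=
              mul_le_mul h12 (not_le.1 hn3).le (norm_nonneg _) (by positivity)
          _ = Λ / 2 := by field_simp
      have h14 := norm_add_le ((1 + VV χ₁ δ D T t) * Fe (win χ₁ D) M G θ δ D T t / 2) ((om δ - 1) * Ca M G θ (-(π * δ)) T t)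
      have h15 : 0 ≤ ‖VV χ₁ δ D T t‖ := norm_nonneg _
      nlinarith
    filter_upwards [h4, hFF.le (eventually_gt_atTop (0 : ℝ))] with T h5 hT
    refine h5.trans (mul_le_mul_of_nonneg_right ?_ hT.le)
    have e1 : (M + 1) / (Λ / 2 * M) ^ 2 = (4 * (M + 1) / (M : ℝ) ^ 2) / Λ ^ 2 := by
      field_simp
      ring
    have e2 : 4 * (M + 1) / (M : ℝ) ^ 2 ≤ 4 := by
      rw [div_le_iff₀ (by positivity)]
      nlinarith
    rw [e1, ← add_div, ← add_div]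
    apply div_le_div_of_nonneg_right _ (by positivity)
    have h6 : Real.log M ≤ Real.log (M + 1) := Real.log_le_log hM0 (by linarith)
    have h7 : (0 : ℝ) ≤ M₀ := Nat.cast_nonneg _
    nlinarith

end

end Pool.Agent.H92.RG
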