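/-
MP_103a5c_AH: the statement S1.
-/
import Mathlib
import Pool.Agent.H92.RG.S1d
import Pool.Agent.H29.AH.Fg

set_option autoImplicit false

open scoped Real ContDiff ComplexConjugate

namespace Pool.Agent.H92.RG

open Pool.Agent Pool.Agent.H67.HF Pool.Agent.H68.AH

theorem FINP_holds {χ₁ : ℝ → ℝ} (hχ : Win2 χ₁ 1) : FINP χ₁ := by
  obtain ⟨C₁, M₀, hC, h⟩ := Pool.Agent.H29.AH.FIN
  refine ⟨C₁, M₀, hC, fun M G hM hG θ δ D hθ hθ1 hδ hδ2 _hD hw => ?_⟩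
  have hcont : Continuous (win χ₁ D) := hχ.smooth.continuous.comp (continuous_id.div_const D)
  exact h M G hM hG θ δ (win χ₁ D) hθ hθ1 hδ hδ2 hcont hw

/-- **S1** -/
theorem S1P_holds (RH : RiemannHypothesis) {χ₁ : ℝ → ℝ} (hχ : Win2 χ₁ 1) : S1P χ₁ := S1P_of RH hχ (FINP_holds hχ)

end Pool.Agent.H92.RG
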