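/-
Mean values: a polynomial in prime sums with complex test functions, against `conj h_l(t)` (real cells).
-/
import Mathlib
import Pool.Agent.H68.AH.Defs
import Pool.Agent.H24.HF.Nf
import Pool.Agent.H68.HF.Mean

set_option autoImplicit false

open MeasureTheory Set Filter Topology
open scoped Real ContDiff ComplexConjugate

namespace Pool.Agent.H92.RG

open Pool.Agent Pool.Agent.H6 Pool.Agent.H14.GP Pool.Agent.H24.HF Pool.Agent.H67.HF Pool.Agent.H68.AH

/-! ### The formal part -/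

/-- coefficients of `exp (c ∑ X_j z^j)` -/
noncomputable def aQ (c : ℝ) (n : ℕ) : QQ := cf c (fun j => (MvPolynomial.X j : QQ)) n

theorem pderiv_aQ (c : ℝ) (j n : ℕ) :
    MvPolynomial.pderiv j (aQ c n) = if 1 ≤ j ∧ j ≤ n then c • aQ c (n - j) else 0 := by
  unfold aQ
  rcases j with _ | k
  · rw [if_neg (by omega)]
    apply der_cf_zero
    intro i hi
    rw [MvPolynomial.pderiv_X_of_ne]
    omega
  · rw [der_cf (MvPolynomial.pderiv (k + 1)) c _ k]
    · by_cases h : k + 1 ≤ n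
      · rw [if_pos h, if_pos ⟨by omega, h⟩]
      · rw [if_neg h, if_neg (by omega)]
    · intro i hi
      by_cases h : i = k + 1
      · rw [if_pos h, h, MvPolynomial.pderiv_X_self]
      · rw [if_neg h, MvPolynomial.pderiv_X_of_ne]
        exact h

/-- `∑_{i+m=n} F_i • aQ c m` -/
noncomputable def cvQ (c : ℝ) (F : PowerSeries ℝ) (n : ℕ) : QQ :=
  PowerSeries.coeff n (F.map (algebraMap ℝ QQ) * PowerSeries.mk (aQ c))

/-- `∑_j κ_j z^j` -/
noncomputable def kS (κ : ℕ → ℝ) : PowerSeries ℝ := PowerSeries.mk κ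

theorem cvQ_eq (c : ℝ) (F : PowerSeries ℝ) (n : ℕ) :
    cvQ c F n = ∑ x ∈ Finset.HasAntidiagonal.antidiagonal n, PowerSeries.coeff x.1 F • aQ c x.2 := by
  unfold cvQ
  rw [PowerSeries.coeff_mul]
  refine Finset.sum_congr rfl fun x _ => ?_
  rw [PowerSeries.coeff_map, PowerSeries.coeff_mk, Algebra.smul_def]

theorem cvQ_one (c : ℝ) (n : ℕ) : cvQ c 1 n = aQ c n := by
  unfold cvQ
  rw [map_one, one_mul, PowerSeries.coeff_mk]

theorem DQ_sum (M : ℕ) (κ : ℕ → ℝ) {ι : Type*} (s : Finset ι) (P : ι → QQ) :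
    DQ M κ (∑ i ∈ s, P i) = ∑ i ∈ s, DQ M κ (P i) := by
  unfold DQ
  rw [Finset.sum_comm]
  refine Finset.sum_congr rfl fun j _ => ?_
  rw [map_sum, Finset.smul_sum]

theorem DQ_smul (M : ℕ) (κ : ℕ → ℝ) (r : ℝ) (P : QQ) : DQ M κ (r • P) = r • DQ M κ P := by
  unfold DQ
  rw [Finset.smul_sum]
  refine Finset.sum_congr rfl fun j _ => ?_
  rw [Derivation.map_smul, smul_comm]

theorem DQ_aQ (M : ℕ) {κ : ℕ → ℝ} (h0 : κ 0 = 0) (hM : ∀ i, M ≤ i → κ i = 0) (c : ℝ) (n : ℕ) :
    DQ M κ (aQ c n) = cvQ c (PowerSeries.C c * kS κ) n := by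
  rw [cvQ_eq, Finset.Nat.sum_antidiagonal_eq_sum_range_succ_mk]
  unfold DQ
  have h1 : ∀ j ∈ Finset.range M, κ j • MvPolynomial.pderiv j (aQ c n) =
      if j ≤ n then (c * κ j) • aQ c (n - j) else 0 := by
    intro j _
    rw [pderiv_aQ]
    rcases Nat.eq_zero_or_pos j with rfl | hj
    · rw [h0, zero_smul, mul_zero, zero_smul, ite_self]
    · by_cases h : j ≤ n
      · rw [if_pos ⟨hj, h⟩, if_pos h, smul_smul, mul_comm]
      · rw [if_neg (fun h' => h h'.2), if_neg h, smul_zero]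
  rw [Finset.sum_congr rfl h1]
  have h2 : ∀ j ∈ Finset.range (n + 1), PowerSeries.coeff j (PowerSeries.C c * kS κ) • aQ c (n - j) =
      if j ≤ n then (c * κ j) • aQ c (n - j) else 0 := by
    intro j hj
    rw [if_pos (Nat.lt_succ_iff.1 (Finset.mem_range.1 hj)), PowerSeries.coeff_C_mul]
    unfold kS
    rw [PowerSeries.coeff_mk]
  show _ = ∑ j ∈ Finset.range (n + 1), PowerSeries.coeff j (PowerSeries.C c * kS κ) • aQ c (n - j)
  rw [Finset.sum_congr rfl h2]
  have h3 : ∀ N, M ≤ N → n + 1 ≤ N → (∑ j ∈ Finset.range M, if j ≤ n then (c * κ j) • aQ c (n - j) else 0) =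
      ∑ j ∈ Finset.range N, if j ≤ n then (c * κ j) • aQ c (n - j) else 0 := by
    intro N hN _
    refine Finset.sum_subset (Finset.range_mono hN) fun j _ hj => ?_
    rw [Finset.mem_range, not_lt] at hj
    rw [hM j hj, mul_zero, zero_smul, ite_self]
  have h4 : ∀ N, M ≤ N → n + 1 ≤ N → (∑ j ∈ Finset.range (n + 1), if j ≤ n then (c * κ j) • aQ c (n - j) else 0) =
      ∑ j ∈ Finset.range N, if j ≤ n then (c * κ j) • aQ c (n - j) else 0 := by
    intro N _ hN
    refine Finset.sum_subset (Finset.range_mono hN) fun j _ hj => ?_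
    rw [Finset.mem_range, not_lt] at hj
    rw [if_neg (by omega)]
  rw [h3 (max M (n + 1)) (le_max_left _ _) (le_max_right _ _), h4 (max M (n + 1)) (le_max_left _ _) (le_max_right _ _)]

theorem DQ_cvQ (M : ℕ) {κ : ℕ → ℝ} (h0 : κ 0 = 0) (hM : ∀ i, M ≤ i → κ i = 0) (c : ℝ) (F : PowerSeries ℝ) (n : ℕ) :
    DQ M κ (cvQ c F n) = cvQ c (PowerSeries.C c * kS κ * F) n := by
  rw [cvQ_eq, DQ_sum]
  have h1 : cvQ c (PowerSeries.C c * kS κ * F) n = PowerSeries.coeff n (F.map (algebraMap ℝ QQ) *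
      ((PowerSeries.C c * kS κ).map (algebraMap ℝ QQ) * PowerSeries.mk (aQ c))) := by
    unfold cvQ
    rw [map_mul (PowerSeries.map (algebraMap ℝ QQ)) (PowerSeries.C c * kS κ) F]
    congr 1
    ring
  rw [h1, PowerSeries.coeff_mul]
  refine Finset.sum_congr rfl fun x _ => ?_
  rw [DQ_smul, DQ_aQ M h0 hM, PowerSeries.coeff_map, Algebra.smul_def]
  rfl

theorem DL_cvQ (M : ℕ) (c : ℝ) (l : List (ℕ → ℝ)) (h0 : ∀ κ ∈ l, κ 0 = 0) (hM : ∀ κ ∈ l, ∀ i, M ≤ i → κ i = 0)
    (n : ℕ) : ∀ F : PowerSeries ℝ, DL M l (cvQ c F n) = cvQ c ((l.map fun κ => PowerSeries.C c * kS κ).prod * F) n := by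
  induction l with
  | nil =>
    intro F
    rw [List.map_nil, List.prod_nil, one_mul]
    rfl
  | cons κ l ih =>
    intro F
    show DL M l (DQ M κ (cvQ c F n)) = _
    rw [DQ_cvQ M (h0 κ List.mem_cons_self) (hM κ List.mem_cons_self),
      ih (fun κ' h => h0 κ' (List.mem_cons_of_mem _ h)) (fun κ' h => hM κ' (List.mem_cons_of_mem _ h)), List.map_cons, List.prod_cons]
    congr 1
    ring

theorem cf_zero_fun {𝒜 : Type*} [CommRing 𝒜] [Algebra ℝ 𝒜] (c : ℝ) (n : ℕ) : cf c (fun _ => (0 : 𝒜)) n = if n = 0 then 1 else 0 := by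
  rcases n with _ | n
  · rw [cf_zero, if_pos rfl]
  · rw [cf_succ, if_neg (by omega)]
    simp

theorem const_cvQ (c : ℝ) (F : PowerSeries ℝ) (n : ℕ) : MvPolynomial.constantCoeff (cvQ c F n) = PowerSeries.coeff n F := by
  rw [cvQ_eq, map_sum]
  have h1 : ∀ m, MvPolynomial.constantCoeff (aQ c m) = if m = 0 then (1 : ℝ) else 0 := by
    intro m
    have := cf_map (MvPolynomial.aeval (fun _ => (0 : ℝ)) : QQ →ₐ[ℝ] ℝ) c (fun j => (MvPolynomial.X j : QQ)) m
    simp only [MvPolynomial.aeval_X, cf_zero_fun] at this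
    rw [← this, MvPolynomial.constantCoeff_eq, ← MvPolynomial.constantCoeff_eq]
    unfold aQ
    rw [MvPolynomial.aeval_zero']
    rfl
  rw [Finset.sum_eq_single (n, 0)]
  · rw [MvPolynomial.constantCoeff_smul, h1, if_pos rfl, smul_eq_mul, mul_one]
  · rintro ⟨a, b⟩ hab hne
    have hb : b ≠ 0 := by
      rintro rfl
      apply hne
      rw [Finset.HasAntidiagonal.mem_antidiagonal] at hab
      simp only [add_zero] at hab
      rw [hab]
    rw [MvPolynomial.constantCoeff_smul, h1, if_neg hb, smul_zero]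
  · intro h
    exact absurd (Finset.HasAntidiagonal.mem_antidiagonal.2 (add_zero n)) h

theorem aQ_rename (c : ℝ) (n : ℕ) : MvPolynomial.rename Sum.inr (aQ c n) = aR c n := by
  unfold aQ aR
  rw [cf_map]
  simp only [MvPolynomial.rename_X]

theorem wdeg_aQ (c : ℝ) (n : ℕ) : WDeg n (aQ c n) := by
  intro m hm
  have h1 := deg_aR c n
  rw [← aQ_rename] at h1
  have h2 : Finsupp.mapDomain (Sum.inr : ℕ → ℕ ⊕ ℕ) m ∈ (MvPolynomial.rename (Sum.inr : ℕ → ℕ ⊕ ℕ) (aQ c n)).support := by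
    rw [MvPolynomial.support_rename_of_injective Sum.inr_injective]
    exact Finset.mem_image_of_mem _ hm
  have h3 := (h1 _ h2).2
  rw [Finsupp.sum_mapDomain_index] at h3
  · exact h3
  · intro b
    rcases b with b | b <;> simp
  · intro b x y
    rcases b with b | b <;> simp [mul_add]

/-! ### real test functions, products -/

theorem hh_evQ (G : ℕ → ℝ → ℝ) (T t : ℝ) (l : ℕ) : hh G T t l = ev t (evQ G T (aQ (-1) l)) := by
  unfold hh aQ evQ
  rw [cf_map, cf_map]
  simp only [MvPolynomial.aeval_X]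

theorem kp_zero' {M : ℕ} {θ : ℝ} {G : ℕ → ℝ → ℝ} (hG : Cells1 M θ G) (H : ℝ → ℝ) (i : ℕ) (hi : i < 1 ∨ M ≤ i) : kp G H i = 0 := by
  unfold kp
  have h : ∀ x, G i x = 0 := hG.out i hi
  simp [h]

theorem mean_list {v : ℝ → ℝ} (hv : Wgt v) {M : ℕ} {θ : ℝ} {G : ℕ → ℝ → ℝ} (hG : Cells1 M θ G) {W : ℝ} (hW : 1 ≤ W)
    {Hs : List (ℝ → ℝ)} (hH : ∀ H ∈ Hs, Continuous H) {B : ℝ} (hB : ∀ H ∈ Hs, ∀ x, |H x| ≤ B) {l : ℕ} (hl : l < M) :
    Tendsto (fun T => EC v T (fun t => (Hs.map fun H => ev t (bbW H W T)).prod * conj (hh G T t l))) atTop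
      (𝓝 (((∫ x, v x) * PowerSeries.coeff l ((Hs.map fun H => -kS (kp G H)).prod) : ℝ) : ℂ)) := by
  have hM : (0 : ℝ) < M := by
    have h2 : 0 < M := by omega
    exact_mod_cast h2
  have h1 := transferM hv hG hW hH hB (D := l) (by
      rw [div_lt_one hM]
      have h3 : (l : ℝ) ≤ M := by exact_mod_cast hl.le
      have h4 : θ * l ≤ θ * M := mul_le_mul_of_nonneg_left h3 hG.θ_pos.le
      have h5 : θ * M < 1 * M := mul_lt_mul_of_pos_right hG.θ_lt hM
      linarith) (wdeg_aQ (-1) l)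
  have h2 : MvPolynomial.constantCoeff (DL M (Hs.map (kp G)) (aQ (-1) l)) =
      PowerSeries.coeff l ((Hs.map fun H => -kS (kp G H)).prod) := by
    rw [← cvQ_one, DL_cvQ, const_cvQ, mul_one, List.map_map]
    · congr 2
      refine List.map_congr_left fun H _ => ?_
      simp
    · intro κ hκ
      obtain ⟨H, _, rfl⟩ := List.mem_map.1 hκ
      exact kp_zero' hG H 0 (Or.inl (by omega))
    · intro κ hκ i hi
      obtain ⟨H, _, rfl⟩ := List.mem_map.1 hκ
      exact kp_zero' hG H i (Or.inr hi)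
  rw [h2] at h1
  simp only [hh_evQ]
  exact h1

/-! ### polynomials with complex coefficients -/

/-- `κ_H(y)` for a real test function -/
noncomputable def kR (G : ℕ → ℝ → ℝ) (H : ℝ → ℝ) : PowerSeries ℂ := (kS (kp G H)).map (algebraMap ℝ ℂ)

theorem EC_add {v : ℝ → ℝ} (hv : Wgt v) {T : ℝ} (hT : 0 < T) {f g : ℝ → ℂ} (hf : Continuous f) (hg : Continuous g) :
    EC v T (fun t => f t + g t) = EC v T f + EC v T g := by
  have h := Vb_EC_sum hv hT (Finset.univ : Finset (Fin 2)) (fun _ => 1) ![f, g] (by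
    intro i _
    fin_cases i
    · exact hf
    · exact hg)
  simpa [Fin.sum_univ_two] using h

theorem EC_const_mul (v : ℝ → ℝ) (T : ℝ) (c : ℂ) (f : ℝ → ℂ) : EC v T (fun t => c * f t) = c * EC v T f := by
  unfold EC
  have h : (fun t => (v (t / T) : ℂ) * (c * f t)) = fun t => c * ((v (t / T) : ℂ) * f t) := by
    funext t; ring
  rw [h, integral_const_mul]
  ring

theorem cont_aeval {ι : Type*} {f : ι → ℝ → ℂ} (hf : ∀ i, Continuous (f i)) (R : MvPolynomial ι ℂ) :
    Continuous (fun t => MvPolynomial.aeval (fun i => f i t) R) := by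
  induction R using MvPolynomial.induction_on with
  | C a => simp only [MvPolynomial.aeval_C]; exact continuous_const
  | add p q hp hq => simp only [map_add]; exact hp.add hq
  | mul_X p i hp => simp only [map_mul, MvPolynomial.aeval_X]; exact hp.mul (hf i)

theorem cont_hh (G : ℕ → ℝ → ℝ) (T : ℝ) (k : ℕ) : Continuous (fun t => hh G T t k) := by
  simp only [hh_evQ]
  exact continuous_ev _

theorem cont_conj_hh (G : ℕ → ℝ → ℝ) (T : ℝ) (k : ℕ) : Continuous (fun t => conj (hh G T t k)) :=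
  Complex.continuous_conj.comp (cont_hh G T k)

theorem mean_real {ι : Type*} {v : ℝ → ℝ} (hv : Wgt v) {M : ℕ} {θ : ℝ} {G : ℕ → ℝ → ℝ} (hG : Cells1 M θ G) {W : ℝ} (hW : 1 ≤ W)
    {H : ι → ℝ → ℝ} (hH : ∀ i, Continuous (H i)) {B : ℝ} (hB : ∀ i x, |H i x| ≤ B) (R : MvPolynomial ι ℂ) {l : ℕ} (hl : l < M) :
    Tendsto (fun T => EC v T (fun t => MvPolynomial.aeval (fun i => ev t (bbW (H i) W T)) R * conj (hh G T t l))) atTop
      (𝓝 (((∫ x, v x : ℝ) : ℂ) * PowerSeries.coeff l (MvPolynomial.aeval (fun i => -kR G (H i)) R))) := by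
  classical
  induction R using MvPolynomial.induction_on' with
  | monomial u a =>
    set L := (Finsupp.toMultiset u).toList with hL
    have h1 := mean_list hv hG hW (Hs := L.map H) (by
      intro K hK
      obtain ⟨i, _, rfl⟩ := List.mem_map.1 hK
      exact hH i) (B := B) (by
      intro K hK x
      obtain ⟨i, _, rfl⟩ := List.mem_map.1 hK
      exact hB i x) hl
    have hprod : ∀ {𝒜 : Type} [CommRing 𝒜] [Algebra ℂ 𝒜] (f : ι → 𝒜),
        MvPolynomial.aeval f (MvPolynomial.monomial u a) = algebraMap ℂ 𝒜 a * (L.map f).prod := by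
      intro 𝒜 _ _ f
      rw [MvPolynomial.aeval_monomial]
      congr 1
      have h2 : (L.map f).prod = ((Finsupp.toMultiset u).map f).prod := by
        rw [← Multiset.prod_coe, ← Multiset.map_coe, hL, Multiset.coe_toList]
      rw [h2, Finsupp.toMultiset_map, Finsupp.prod_toMultiset, Finsupp.prod_mapDomain_index]
      · intro b; exact pow_zero b
      · intro b m₁ m₂; exact pow_add b m₁ m₂
    have h3 := h1.const_mul a
    have e1 : a * (((∫ x, v x) * PowerSeries.coeff l (((L.map H).map fun H => -kS (kp G H)).prod) : ℝ) : ℂ) =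
        ((∫ x, v x : ℝ) : ℂ) * PowerSeries.coeff l (MvPolynomial.aeval (fun i => -kR G (H i)) (MvPolynomial.monomial u a)) := by
      rw [hprod, Complex.ofReal_mul]
      have e2 : ((PowerSeries.coeff l (((L.map H).map fun H => -kS (kp G H)).prod) : ℝ) : ℂ) =
          PowerSeries.coeff l ((L.map fun i => -kR G (H i)).prod) := by
        have e3 : (L.map fun i => -kR G (H i)).prod =
            (((L.map H).map fun H => -kS (kp G H)).prod).map (algebraMap ℝ ℂ) := by
          rw [map_list_prod, List.map_map, List.map_map]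
          congr 1
          refine List.map_congr_left fun i _ => ?_
          simp only [Function.comp_apply, map_neg]
          rfl
        rw [e3, PowerSeries.coeff_map]
        rfl
      rw [e2, ← PowerSeries.coeff_C_mul]
      have e4 : (algebraMap ℂ (PowerSeries ℂ)) a = PowerSeries.C a := rfl
      rw [e4, PowerSeries.coeff_C_mul, PowerSeries.coeff_C_mul]
      ring
    rw [e1] at h3
    refine h3.congr fun T => ?_
    rw [← EC_const_mul]
    congr 1
    funext t
    rw [hprod, List.map_map]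
    show a * (_ * _) = _
    rw [← mul_assoc]
    rfl
  | add p q hp hq =>
    have h1 := hp.add hq
    have e1 : ((∫ x, v x : ℝ) : ℂ) * PowerSeries.coeff l (MvPolynomial.aeval (fun i => -kR G (H i)) p) +
        ((∫ x, v x : ℝ) : ℂ) * PowerSeries.coeff l (MvPolynomial.aeval (fun i => -kR G (H i)) q) =
        ((∫ x, v x : ℝ) : ℂ) * PowerSeries.coeff l (MvPolynomial.aeval (fun i => -kR G (H i)) (p + q)) := by
      rw [map_add, map_add]; ring
    rw [e1] at h1
    refine h1.congr' ?_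
    filter_upwards [eventually_gt_atTop (0 : ℝ)] with T hT
    have c1 : ∀ p : MvPolynomial ι ℂ, Continuous (fun t => MvPolynomial.aeval (fun i => ev t (bbW (H i) W T)) p * conj (hh G T t l)) :=
      fun p => (cont_aeval (fun i => continuous_ev _) p).mul (cont_conj_hh G T l)
    rw [← EC_add hv hT (c1 p) (c1 q)]
    congr 1
    funext t
    rw [map_add, add_mul]

/-- long prime sum with a complex test function -/
noncomputable def bC (H : ℝ → ℂ) (W T t : ℝ) : ℂ :=
  ev t (bbW (fun x => (H x).re) W T) + Complex.I * ev t (bbW (fun x => (H x).im) W T)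

/-- `κ_H(y)` for a complex test function -/
noncomputable def kC (G : ℕ → ℝ → ℝ) (H : ℝ → ℂ) : PowerSeries ℂ :=
  kR G (fun x => (H x).re) + PowerSeries.C Complex.I * kR G (fun x => (H x).im)

/-- **Mean values**: a polynomial in prime sums with complex test functions, against `conj h_l(t)`. -/
theorem mean_cplx {ι : Type*} {v : ℝ → ℝ} (hv : Wgt v) {M : ℕ} {θ : ℝ} {G : ℕ → ℝ → ℝ} (hG : Cells1 M θ G) {W : ℝ} (hW : 1 ≤ W)
    {H : ι → ℝ → ℂ} (hH : ∀ i, Continuous (H i)) {B : ℝ} (hB : ∀ i x, ‖H i x‖ ≤ B) (R : MvPolynomial ι ℂ) {l : ℕ} (hl : l < M) :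
    Tendsto (fun T => EC v T (fun t => MvPolynomial.aeval (fun i => bC (H i) W T t) R * conj (hh G T t l))) atTop
      (𝓝 (((∫ x, v x : ℝ) : ℂ) * PowerSeries.coeff l (MvPolynomial.aeval (fun i => -kC G (H i)) R))) := by
  set H' : ι ⊕ ι → ℝ → ℝ := Sum.elim (fun i x => (H i x).re) (fun i x => (H i x).im) with hH'
  set R' : MvPolynomial (ι ⊕ ι) ℂ := MvPolynomial.aeval
    (fun i => (MvPolynomial.X (Sum.inl i) + MvPolynomial.C Complex.I * MvPolynomial.X (Sum.inr i) : MvPolynomial (ι ⊕ ι) ℂ)) R with hR'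
  have h1 := mean_real hv hG hW (H := H') (by
    rintro (i | i)
    · exact Complex.continuous_re.comp (hH i)
    · exact Complex.continuous_im.comp (hH i)) (B := B) (by
    rintro (i | i) x
    · exact (Complex.abs_re_le_norm _).trans (hB i x)
    · exact (Complex.abs_im_le_norm _).trans (hB i x)) R' hl
  have hsub : ∀ {𝒜 : Type} [CommRing 𝒜] [Algebra ℂ 𝒜] (f : ι ⊕ ι → 𝒜), MvPolynomial.aeval f R' =
      MvPolynomial.aeval (fun i => f (Sum.inl i) + algebraMap ℂ 𝒜 Complex.I * f (Sum.inr i)) R := by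
    intro 𝒜 _ _ f
    rw [hR', MvPolynomial.aeval_def, ← MvPolynomial.aeval_def, ← AlgHom.comp_apply]
    congr 1
    apply MvPolynomial.algHom_ext
    intro i
    simp only [AlgHom.comp_apply, MvPolynomial.aeval_X, map_add, map_mul]
    rw [MvPolynomial.algHom_C]
  rw [hsub] at h1
  have e1 : (fun i => -kR G (H' (Sum.inl i)) + algebraMap ℂ (PowerSeries ℂ) Complex.I * -kR G (H' (Sum.inr i))) =
      fun i => -kC G (H i) := by
    funext i
    unfold kC
    have e4 : (algebraMap ℂ (PowerSeries ℂ)) Complex.I = PowerSeries.C Complex.I := rfl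
    rw [e4, hH']
    simp only [Sum.elim_inl, Sum.elim_inr]
    ring
  rw [e1] at h1
  refine h1.congr fun T => ?_
  congr 1
  funext t
  rw [hsub]
  rfl

end Pool.Agent.H92.RG
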