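/-
Shifts of prime sums; the resonator and the window at the points `t ± h`.
-/
import Mathlib
import Pool.Agent.H92.RG.MeanC
import Pool.Agent.H92.RG.Ps

set_option autoImplicit false

open MeasureTheory Set Filter Topology
open scoped Real ContDiff ComplexConjugate

namespace Pool.Agent.H92.RG

open Pool.Agent Pool.Agent.H6 Pool.Agent.H14.GP Pool.Agent.H24.HF Pool.Agent.H67.HF Pool.Agent.H68.AH

/-- the twist by `e^{-iax}` -/
noncomputable def tw (a : ℝ) (H : ℝ → ℂ) (x : ℝ) : ℂ := H x * Complex.exp (-((a * x : ℝ) : ℂ) * Complex.I)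

theorem tw_zero (H : ℝ → ℂ) : tw 0 H = H := by
  funext x
  unfold tw
  simp

theorem tw_tw (a b : ℝ) (H : ℝ → ℂ) : tw a (tw b H) = tw (a + b) H := by
  funext x
  unfold tw
  rw [mul_assoc, ← Complex.exp_add]
  congr 2
  push_cast
  ring

theorem norm_tw (a : ℝ) (H : ℝ → ℂ) (x : ℝ) : ‖tw a H x‖ = ‖H x‖ := by
  unfold tw
  rw [norm_mul, ← Complex.ofReal_neg, Complex.norm_exp_ofReal_mul_I, mul_one]

theorem continuous_tw (a : ℝ) {H : ℝ → ℂ} (hH : Continuous H) : Continuous (tw a H) := by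
  unfold tw
  fun_prop

theorem ev_bbW (H : ℝ → ℝ) {W T : ℝ} (hW : 0 < W) (hT : 1 < T) (t : ℝ) : ev t (bbW H W T) =
    ∑ p ∈ (Finset.range (⌊T ^ W⌋₊ + 1)).filter Nat.Prime,
      (H (Real.log p / Real.log T) : ℂ) * (((p : ℝ) ^ (-(1 / 2) : ℝ) : ℝ) : ℂ) * chi t p := by
  unfold bbW H14.GP.bb
  rw [map_sum]
  refine Finset.sum_congr rfl fun p _ => ?_
  rw [ev_single]
  have hlog : W * (Real.log p / Real.log (T ^ W)) = Real.log p / Real.log T := by
    have : Real.log T ≠ 0 := (Real.log_pos hT).ne'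
    rw [Real.log_rpow (by linarith)]
    field_simp
  show ((H (W * (Real.log p / Real.log (T ^ W))) * (p : ℝ) ^ (-(1 / 2) : ℝ) : ℝ) : ℂ) * chi t p = _
  rw [hlog, Complex.ofReal_mul]

theorem bC_eq (H : ℝ → ℂ) {W T : ℝ} (hW : 0 < W) (hT : 1 < T) (t : ℝ) : bC H W T t =
    ∑ p ∈ (Finset.range (⌊T ^ W⌋₊ + 1)).filter Nat.Prime,
      H (Real.log p / Real.log T) * (((p : ℝ) ^ (-(1 / 2) : ℝ) : ℝ) : ℂ) * chi t p := by
  unfold bC
  rw [ev_bbW _ hW hT, ev_bbW _ hW hT, Finset.mul_sum, ← Finset.sum_add_distrib]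
  refine Finset.sum_congr rfl fun p _ => ?_
  conv_rhs => rw [← Complex.re_add_im (H (Real.log p / Real.log T))]
  ring

theorem bC_real (H : ℝ → ℝ) {W T : ℝ} (hW : 0 < W) (hT : 1 < T) (t : ℝ) :
    ev t (bbW H W T) = bC (fun x => (H x : ℂ)) W T t := by
  rw [bC_eq _ hW hT, ev_bbW _ hW hT]

/-- shifting by `a / log T` is twisting by `e^{-iax}` -/
theorem bC_shift (H : ℝ → ℂ) {W T : ℝ} (hW : 0 < W) (hT : 1 < T) (a t : ℝ) :
    bC H W T (t + a / Real.log T) = bC (tw a H) W T t := by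
  rw [bC_eq _ hW hT, bC_eq _ hW hT]
  refine Finset.sum_congr rfl fun p hp => ?_
  have hp0 : p ≠ 0 := (Finset.mem_filter.1 hp).2.ne_zero
  rw [Vb_chi _ hp0, Vb_chi _ hp0]
  unfold tw
  have e : Complex.exp (-(((t + a / Real.log T) * Real.log p : ℝ) : ℂ) * Complex.I) =
      Complex.exp (-((a * (Real.log p / Real.log T) : ℝ) : ℂ) * Complex.I) * Complex.exp (-((t * Real.log p : ℝ) : ℂ) * Complex.I) := by
    rw [← Complex.exp_add]
    congr 1
    push_cast
    ring
  rw [e]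
  ring

theorem hh_shift {M : ℕ} {θ : ℝ} {G : ℕ → ℝ → ℝ} (hG : Cells1 M θ G) {W : ℝ} (hW : 1 ≤ W) {T : ℝ} (hT : 1 < T) (a t : ℝ) (k : ℕ) :
    hh G T (t + a / Real.log T) k = cf (-1) (fun j => bC (tw a fun x => (G j x : ℂ)) W T t) k := by
  unfold hh
  congr 1
  funext j
  rw [← bbW_cell hG hW hT, bC_real _ (by linarith) hT, bC_shift _ (by linarith) hT]

theorem PP1_shift (χ : ℝ → ℝ) (δ : ℝ) {D : ℝ} (hD : 0 < D) {T : ℝ} (hT : 1 < T) (a t : ℝ) :
    PP1 χ δ D T (t + a / Real.log T) = bC (tw a fun x => (Gd χ δ x : ℂ)) D T t := by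
  unfold PP1
  rw [bC_real _ hD hT, bC_shift _ hD hT]

/-- `cf` under algebra maps over `ℂ` -/
theorem alg_cf {𝒜 ℬ : Type*} [CommRing 𝒜] [Algebra ℂ 𝒜] [Algebra ℝ 𝒜] [IsScalarTower ℝ ℂ 𝒜] [CommRing ℬ] [Algebra ℂ ℬ] [Algebra ℝ ℬ]
    [IsScalarTower ℝ ℂ ℬ] (φ : 𝒜 →ₐ[ℂ] ℬ) (c : ℝ) (y : ℕ → 𝒜) (n : ℕ) : φ (cf c y n) = cf c (fun j => φ (y j)) n :=
  cf_map (φ.restrictScalars ℝ) c y n

theorem cf_neg {𝒜 : Type*} [CommRing 𝒜] [Algebra ℝ 𝒜] (y : ℕ → 𝒜) (n : ℕ) : cf (-1) (fun j => -y j) n = cf 1 y n := by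
  induction n using Nat.strong_induction_on with
  | _ n ih =>
    rcases n with _ | n
    · rw [cf_zero, cf_zero]
    · rw [cf_succ, cf_succ, Finset.smul_sum, Finset.smul_sum]
      refine Finset.sum_congr rfl fun j _ => ?_
      rw [ih (n - j) (by omega), neg_mul, smul_neg, smul_neg, neg_div, neg_smul, neg_neg]

theorem cf_scale (c : ℝ) (y : ℕ → ℂ) (n : ℕ) :
    cf c (fun j => PowerSeries.C (y j) * (PowerSeries.X : PowerSeries ℂ) ^ j) n = PowerSeries.C (cf c y n) * PowerSeries.X ^ n := by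
  induction n using Nat.strong_induction_on with
  | _ n ih =>
    rcases n with _ | n
    · rw [cf_zero, cf_zero]; simp
    · rw [cf_succ, cf_succ]
      have h1 : ∀ j ∈ Finset.range (n + 1), ((j : ℝ) + 1) • (PowerSeries.C (y (j + 1)) * (PowerSeries.X : PowerSeries ℂ) ^ (j + 1) *
          cf c (fun j => PowerSeries.C (y j) * (PowerSeries.X : PowerSeries ℂ) ^ j) (n - j)) =
          PowerSeries.C (((j : ℝ) + 1) • (y (j + 1) * cf c y (n - j))) * PowerSeries.X ^ (n + 1) := by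
        intro j hj
        have hj' : j ≤ n := Nat.lt_succ_iff.1 (Finset.mem_range.1 hj)
        rw [ih (n - j) (by omega)]
        have e : (PowerSeries.X : PowerSeries ℂ) ^ (n + 1) = PowerSeries.X ^ (j + 1) * PowerSeries.X ^ (n - j) := by
          rw [← pow_add]; congr 1; omega
        have e2 : PowerSeries.C (((j : ℝ) + 1) • (y (j + 1) * cf c y (n - j))) =
            ((j : ℝ) + 1) • (PowerSeries.C (y (j + 1)) * PowerSeries.C (cf c y (n - j))) := by
          rw [← map_mul]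
          ext i
          rw [PowerSeries.coeff_smul, PowerSeries.coeff_C, PowerSeries.coeff_C]
          split_ifs
          · rfl
          · rw [smul_zero]
        rw [e, e2, smul_mul_assoc]
        congr 1
        ring
      rw [Finset.sum_congr rfl h1, ← Finset.sum_mul, ← map_sum, ← smul_mul_assoc]
      congr 1
      ext i
      rw [PowerSeries.coeff_smul, PowerSeries.coeff_C, PowerSeries.coeff_C]
      split_ifs
      · rfl
      · rw [smul_zero]

/-- the numbers `⟨e^{-ibx} G_j, G_j⟩` -/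
noncomputable def cb (G : ℕ → ℝ → ℝ) (b : ℝ) (j : ℕ) : ℂ := PowerSeries.coeff j (kC G (tw b fun x => (G j x : ℂ)))

theorem coeff_kC (G : ℕ → ℝ → ℝ) (H : ℝ → ℂ) (i : ℕ) : PowerSeries.coeff i (kC G H) =
    (kp G (fun x => (H x).re) i : ℂ) + Complex.I * (kp G (fun x => (H x).im) i : ℂ) := by
  unfold kC kR kS
  rw [map_add, PowerSeries.coeff_C_mul, PowerSeries.coeff_map, PowerSeries.coeff_map, PowerSeries.coeff_mk, PowerSeries.coeff_mk]
  rfl

theorem kC_cell {M : ℕ} {θ : ℝ} {G : ℕ → ℝ → ℝ} (hG : Cells1 M θ G) (b : ℝ) (j : ℕ) :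
    kC G (tw b fun x => (G j x : ℂ)) = PowerSeries.C (cb G b j) * PowerSeries.X ^ j := by
  ext i
  rw [PowerSeries.coeff_C_mul, PowerSeries.coeff_X_pow]
  by_cases h : i = j
  · rw [if_pos h, mul_one, h]
    rfl
  · rw [if_neg h, mul_zero, coeff_kC]
    have hz : ∀ x, G i x * G j x = 0 := by
      intro x
      by_contra hne
      have h1 := hG.cell i x (left_ne_zero_of_mul hne)
      have h2 := hG.cell j x (right_ne_zero_of_mul hne)
      have hM : (0 : ℝ) < M := by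
        have := hG.M_pos
        exact_mod_cast (by omega : 0 < M)
      rcases lt_or_gt_of_ne h with h3 | h3
      · have h4 : (i : ℝ) ≤ (j : ℝ) - 1 := by
          have : (i : ℝ) + 1 ≤ j := by exact_mod_cast h3
          linarith
        have h5 : θ * i / M ≤ θ * ((j : ℝ) - 1) / M :=
          div_le_div_of_nonneg_right (mul_le_mul_of_nonneg_left h4 hG.θ_pos.le) hM.le
        linarith [h1.2, h2.1]
      · have h4 : (j : ℝ) ≤ (i : ℝ) - 1 := by
          have : (j : ℝ) + 1 ≤ i := by exact_mod_cast h3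
          linarith
        have h5 : θ * j / M ≤ θ * ((i : ℝ) - 1) / M :=
          div_le_div_of_nonneg_right (mul_le_mul_of_nonneg_left h4 hG.θ_pos.le) hM.le
        linarith [h1.1, h2.2]
    have hk : ∀ f : ℝ → ℝ, kp G (fun x => G j x * f x) i = 0 := by
      intro f
      unfold kp
      have : ∀ x, G i x * (G j x * f x) / x = 0 := by
        intro x
        rw [← mul_assoc, hz x, zero_mul, zero_div]
      simp [this]
    have e1 : (fun x => (tw b (fun x => (G j x : ℂ)) x).re) = fun x => G j x * (Complex.exp (-((b * x : ℝ) : ℂ) * Complex.I)).re := by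
      funext x
      unfold tw
      rw [Complex.re_ofReal_mul]
    have e2 : (fun x => (tw b (fun x => (G j x : ℂ)) x).im) = fun x => G j x * (Complex.exp (-((b * x : ℝ) : ℂ) * Complex.I)).im := by
      funext x
      unfold tw
      rw [Complex.im_ofReal_mul]
    rw [e1, e2, hk, hk]
    simp

/-- the index type of the long side -/
abbrev LI := Unit ⊕ ℕ

/-- test functions of the long side -/
noncomputable def HL (G : ℕ → ℝ → ℝ) (χ : ℝ → ℝ) (δ a b : ℝ) : LI → ℝ → ℂ :=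
  Sum.elim (fun _ => tw a fun x => (Gd χ δ x : ℂ)) (fun j => tw b fun x => (G j x : ℂ))

/-- `w(y)` -/
noncomputable def kap (G : ℕ → ℝ → ℝ) (χ : ℝ → ℝ) (δ a : ℝ) : PowerSeries ℂ :=
  PowerSeries.C ((δ : ℂ) - 1 / 2) + 2 * kC G (tw a fun x => (Gd χ δ x : ℂ))

theorem mean_wh {v : ℝ → ℝ} (hv : Wgt v) {M : ℕ} {θ : ℝ} {G : ℕ → ℝ → ℝ} (hG : Cells1 M θ G) {χ : ℝ → ℝ} {D δ : ℝ}
    (hW : Win2 χ D) (a b : ℝ) (m k : ℕ) {l : ℕ} (hl : l < M) :
    Tendsto (fun T => EC v T (fun t => (((δ : ℂ) - 2 * PP1 χ δ D T (t + a / Real.log T) - 1 / 2) ^ m *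
        hh G T (t + b / Real.log T) k) * conj (hh G T t l))) atTop
      (𝓝 (((∫ x, v x : ℝ) : ℂ) * PowerSeries.coeff l (kap G χ δ a ^ m * (PowerSeries.C (cf 1 (cb G b) k) * PowerSeries.X ^ k)))) := by
  obtain ⟨B', hB'0, hB'⟩ := Nc_bdG hG
  set R : MvPolynomial LI ℂ := (MvPolynomial.C ((δ : ℂ) - 1 / 2) - 2 * MvPolynomial.X (Sum.inl ())) ^ m *
    cf (-1) (fun j => (MvPolynomial.X (Sum.inr j) : MvPolynomial LI ℂ)) k with hR
  have h1 := mean_cplx hv hG hW.D_pos (H := HL G χ δ a b) (by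
    rintro (i | j)
    · exact continuous_tw a (Complex.continuous_ofReal.comp (Pool.Agent.H68.HF.continuous_Gd hW δ))
    · exact continuous_tw b (Complex.continuous_ofReal.comp (hG.smooth j).continuous)) (B := max (D * |δ|) B') (by
    rintro (i | j) x
    · show ‖tw a (fun x => (Gd χ δ x : ℂ)) x‖ ≤ max (D * |δ|) B'
      rw [norm_tw, Complex.norm_real, Real.norm_eq_abs]
      exact (Pool.Agent.H68.HF.Gd_le hW δ x).trans (le_max_left _ _)
    · show ‖tw b (fun x => (G j x : ℂ)) x‖ ≤ max (D * |δ|) B'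
      rw [norm_tw, Complex.norm_real, Real.norm_eq_abs]
      exact (hB' j x).trans (le_max_right _ _)) R hl
  have e1 : MvPolynomial.aeval (fun i => -kC G (HL G χ δ a b i)) R =
      kap G χ δ a ^ m * (PowerSeries.C (cf 1 (cb G b) k) * PowerSeries.X ^ k) := by
    rw [hR, map_mul, map_pow, alg_cf]
    congr 1
    · congr 1
      rw [map_sub, map_mul, MvPolynomial.aeval_X, map_ofNat]
      unfold kap
      have e4 : MvPolynomial.aeval (fun i => -kC G (HL G χ δ a b i)) (MvPolynomial.C ((δ : ℂ) - 1 / 2)) = PowerSeries.C ((δ : ℂ) - 1 / 2) := by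
        rw [MvPolynomial.aeval_C]
        rfl
      rw [e4]
      show _ - 2 * -kC G (tw a fun x => (Gd χ δ x : ℂ)) = _
      ring
    · rw [← cf_scale, ← cf_neg]
      congr 1
      funext j
      rw [MvPolynomial.aeval_X]
      show -kC G (tw b fun x => (G j x : ℂ)) = _
      rw [kC_cell hG]
  rw [e1] at h1
  refine h1.congr' ?_
  filter_upwards [eventually_gt_atTop (1 : ℝ)] with T hT
  congr 1
  funext t
  congr 1
  rw [hR, map_mul, map_pow, alg_cf, hh_shift hG hW.D_pos hT, PP1_shift χ δ (by linarith [hW.D_pos]) hT]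
  congr 1
  · congr 1
    rw [map_sub, map_mul, MvPolynomial.aeval_X, map_ofNat, MvPolynomial.aeval_C]
    show ((δ : ℂ) - 1 / 2) - 2 * bC (tw a fun x => (Gd χ δ x : ℂ)) D T t = _
    ring
  · congr 1
    funext j
    rw [MvPolynomial.aeval_X]
    rfl

/-- the mean value of `w(t+a)^m C(t+b) conj C(t)` -/
theorem mean_wC {v : ℝ → ℝ} (hv : Wgt v) {M : ℕ} {θ : ℝ} {G : ℕ → ℝ → ℝ} (hG : Cells1 M θ G) {χ : ℝ → ℝ} {D δ : ℝ}
    (hW : Win2 χ D) (a b : ℝ) (m : ℕ) :
    Tendsto (fun T => EC v T (fun t => ((δ : ℂ) - 2 * PP1 χ δ D T (t + a / Real.log T) - 1 / 2) ^ m *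
        CT M G T (t + b / Real.log T) * conj (CT M G T t))) atTop
      (𝓝 (((∫ x, v x : ℝ) : ℂ) * LM M (kap G χ δ a ^ m * EX (cb G b)))) := by
  have h1 : Tendsto (fun T => ∑ l ∈ Finset.range M, ∑ k ∈ Finset.range M, EC v T (fun t =>
      (((δ : ℂ) - 2 * PP1 χ δ D T (t + a / Real.log T) - 1 / 2) ^ m * hh G T (t + b / Real.log T) k) * conj (hh G T t l))) atTop
      (𝓝 (∑ l ∈ Finset.range M, ∑ k ∈ Finset.range M,
        (((∫ x, v x : ℝ) : ℂ) * PowerSeries.coeff l (kap G χ δ a ^ m * (PowerSeries.C (cf 1 (cb G b) k) * PowerSeries.X ^ k))))) :=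
    tendsto_finsetSum _ fun l hl => tendsto_finsetSum _ fun k _ => mean_wh hv hG hW a b m k (Finset.mem_range.1 hl)
  have e1 : ∑ l ∈ Finset.range M, ∑ k ∈ Finset.range M,
        (((∫ x, v x : ℝ) : ℂ) * PowerSeries.coeff l (kap G χ δ a ^ m * (PowerSeries.C (cf 1 (cb G b) k) * PowerSeries.X ^ k))) =
      ((∫ x, v x : ℝ) : ℂ) * LM M (kap G χ δ a ^ m * EX (cb G b)) := by
    unfold LM
    rw [Finset.mul_sum]
    refine Finset.sum_congr rfl fun l hl => ?_
    rw [← Finset.mul_sum, ← map_sum, ← Finset.mul_sum]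
    congr 1
    rw [PowerSeries.coeff_mul, PowerSeries.coeff_mul]
    refine Finset.sum_congr rfl fun x hx => ?_
    congr 1
    rw [map_sum]
    have hx2 : x.2 < M := by
      have h3 := Finset.HasAntidiagonal.mem_antidiagonal.1 hx
      have h4 := Finset.mem_range.1 hl
      omega
    rw [Finset.sum_eq_single x.2]
    · rw [PowerSeries.coeff_C_mul, PowerSeries.coeff_X_pow, if_pos rfl, mul_one]
      unfold EX
      rw [PowerSeries.coeff_mk]
    · intro k _ hk
      rw [PowerSeries.coeff_C_mul, PowerSeries.coeff_X_pow, if_neg (Ne.symm hk), mul_zero]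
    · intro h
      exact absurd (Finset.mem_range.2 hx2) h
  rw [e1] at h1
  refine h1.congr' ?_
  filter_upwards [eventually_gt_atTop (0 : ℝ)] with T hT
  have hc1 : Continuous (fun t => ((δ : ℂ) - 2 * PP1 χ δ D T (t + a / Real.log T) - 1 / 2) ^ m) := by
    have h2 : Continuous (fun t => PP1 χ δ D T (t + a / Real.log T)) :=
      (Pool.Agent.H68.HF.continuous_PP1 χ δ D T).comp (continuous_id.add continuous_const)
    fun_prop
  have hc2 : ∀ k, Continuous (fun t => hh G T (t + b / Real.log T) k) := fun k =>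
    (cont_hh G T k).comp (continuous_id.add continuous_const)
  have h3 := Vb_EC_sum hv hT (Finset.range M ×ˢ Finset.range M) (fun _ => (1 : ℂ)) (fun x t =>
      (((δ : ℂ) - 2 * PP1 χ δ D T (t + a / Real.log T) - 1 / 2) ^ m * hh G T (t + b / Real.log T) x.2) * conj (hh G T t x.1))
      (fun x _ => ((hc1.mul (hc2 x.2)).mul (cont_conj_hh G T x.1)))
  simp only [one_mul] at h3
  rw [Finset.sum_product] at h3
  rw [← h3]
  congr 1
  funext t
  rw [Finset.sum_product]
  unfold CT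
  rw [map_sum, mul_assoc, Finset.sum_mul_sum, Finset.mul_sum, Finset.sum_comm]
  refine Finset.sum_congr rfl fun l _ => ?_
  rw [Finset.mul_sum]
  refine Finset.sum_congr rfl fun k _ => ?_
  ring

end Pool.Agent.H92.RG
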